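import Pool.Agent.RMLite.Defs

/-!
# RM-lite: basic facts on the gauge `nrm L` of the Voronoi cell (helper9)
-/

set_option autoImplicit false
set_option linter.unusedSectionVars false
set_option linter.unusedSimpArgs false

open MeasureTheory ProbabilityTheory Module
open scoped RealInnerProductSpace ENNReal NNReal

namespace Pool.Agent.RMLite

section basic

variable {E : Type} [NormedAddCommGroup E] [InnerProductSpace ℝ E]

lemma Sp.sep {L : AddSubgroup E} (h : Sp L) : Sep 1 L := by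
  intro y hy hy0
  have h1 := h 1 (fun _ => y) (fun _ => hy) (by
    rw [linearIndependent_unique_iff]; exact hy0)
  have h2 : (gramM (fun _ : Fin 1 => y)).det = ‖y‖ ^ 2 := by
    simp [gramM, Matrix.det_fin_one]
  rw [h2] at h1
  nlinarith [norm_nonneg y]

lemma Sep.mono {L : AddSubgroup E} {c d : ℝ} (h : Sep c L) (hd : d ≤ c) : Sep d L :=
  fun y hy hy0 => hd.trans (h y hy hy0)

lemma ratio_le (x y : E) : 2 * ⟪x, y⟫ / ‖y‖ ^ 2 ≤ 2 * ‖x‖ / ‖y‖ := by
  by_cases hy : y = 0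
  · simp [hy]
  · have hy' : 0 < ‖y‖ := norm_pos_iff.2 hy
    rw [div_le_div_iff₀ (by positivity) hy']
    have := real_inner_le_norm x y
    nlinarith [mul_le_mul_of_nonneg_right this hy'.le]

lemma ratio_le_of_sep {L : AddSubgroup E} {c : ℝ} (hc : 0 < c) (h : Sep c L) (x : E) {y : E}
    (hy : y ∈ L) : 2 * ⟪x, y⟫ / ‖y‖ ^ 2 ≤ 2 / c * ‖x‖ := by
  by_cases hy0 : y = 0
  · simp only [hy0, inner_zero_right, mul_zero, zero_div]; positivity
  · have hy' : 0 < ‖y‖ := norm_pos_iff.2 hy0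
    calc 2 * ⟪x, y⟫ / ‖y‖ ^ 2 ≤ 2 * ‖x‖ / ‖y‖ := ratio_le x y
      _ ≤ 2 * ‖x‖ / c := by
          apply div_le_div_of_nonneg_left (by positivity) hc (h y hy hy0)
      _ = 2 / c * ‖x‖ := by ring

lemma nrm_bdd {L : AddSubgroup E} {c : ℝ} (hc : 0 < c) (h : Sep c L) (x : E) :
    BddAbove (Set.range fun y : L => 2 * ⟪x, (y : E)⟫ / ‖(y : E)‖ ^ 2) := by
  refine ⟨2 / c * ‖x‖, ?_⟩
  rintro _ ⟨y, rfl⟩
  exact ratio_le_of_sep hc h x y.2

lemma le_nrm {L : AddSubgroup E} {c : ℝ} (hc : 0 < c) (h : Sep c L) (x : E) {y : E} (hy : y ∈ L) :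
    2 * ⟪x, y⟫ / ‖y‖ ^ 2 ≤ nrm L x :=
  le_ciSup (nrm_bdd hc h x) ⟨y, hy⟩

lemma nrm_nonneg (L : AddSubgroup E) (x : E) : 0 ≤ nrm L x := by
  by_cases hb : BddAbove (Set.range fun y : L => 2 * ⟪x, (y : E)⟫ / ‖(y : E)‖ ^ 2)
  · refine le_ciSup_of_le hb ⟨0, L.zero_mem⟩ ?_
    simp
  · unfold nrm
    rw [Real.iSup_of_not_bddAbove hb]

lemma nrm_le {L : AddSubgroup E} {c : ℝ} (hc : 0 < c) (h : Sep c L) (x : E) :
    nrm L x ≤ 2 / c * ‖x‖ :=
  ciSup_le fun y => ratio_le_of_sep hc h x y.2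

lemma nrm_le_two {L : AddSubgroup E} (h : Sep 1 L) (x : E) : nrm L x ≤ 2 * ‖x‖ := by
  have := nrm_le one_pos h x
  simpa using this

lemma nrm_add_le {L : AddSubgroup E} {c : ℝ} (hc : 0 < c) (h : Sep c L) (x x' : E) :
    nrm L (x + x') ≤ nrm L x + nrm L x' := by
  refine ciSup_le fun y => ?_
  rw [inner_add_left, mul_add, add_div]
  exact add_le_add (le_nrm hc h x y.2) (le_nrm hc h x' y.2)

lemma nrm_zero (L : AddSubgroup E) : nrm L (0 : E) = 0 := by
  simp [nrm]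

lemma nrm_smul (L : AddSubgroup E) {t : ℝ} (ht : 0 ≤ t) (x : E) :
    nrm L (t • x) = t * nrm L x := by
  unfold nrm
  rw [Real.mul_iSup_of_nonneg ht]
  refine iSup_congr fun y => ?_
  rw [real_inner_smul_left]
  ring

lemma nrm_neg (L : AddSubgroup E) (x : E) : nrm L (-x) = nrm L x := by
  unfold nrm
  refine (Equiv.neg L).surjective.iSup_congr _ fun y => ?_
  simp

lemma nrm_sub_le {L : AddSubgroup E} {c : ℝ} (hc : 0 < c) (h : Sep c L) (x x' : E) :
    nrm L x - nrm L x' ≤ 2 / c * ‖x - x'‖ := by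
  have h1 := nrm_add_le hc h x' (x - x')
  have h2 := nrm_le hc h (x - x')
  rw [add_sub_cancel] at h1
  linarith

lemma nrm_continuous {L : AddSubgroup E} {c : ℝ} (hc : 0 < c) (h : Sep c L) :
    Continuous (nrm L) := by
  have : LipschitzWith (Real.toNNReal (2 / c)) (nrm L) := by
    refine LipschitzWith.of_dist_le_mul fun x x' => ?_
    rw [Real.coe_toNNReal _ (by positivity), Real.dist_eq, dist_eq_norm, abs_le]
    constructor
    · have := nrm_sub_le hc h x' x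
      rw [norm_sub_rev] at this
      linarith
    · exact nrm_sub_le hc h x x'
  exact this.continuous

lemma nrm_measurable [MeasurableSpace E] [BorelSpace E] {L : AddSubgroup E} {c : ℝ} (hc : 0 < c)
    (h : Sep c L) : Measurable (nrm L) := (nrm_continuous hc h).measurable

/-! ### membership in images -/

lemma mem_lmap {F : Type} [NormedAddCommGroup F] [InnerProductSpace ℝ F] {G : E →ₗ[ℝ] F}
    {L : AddSubgroup E} {z : F} : z ∈ lmap G L ↔ ∃ y ∈ L, G y = z := Iff.rfl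

lemma mem_scale {c : ℝ} {L : AddSubgroup E} {z : E} : z ∈ scale c L ↔ ∃ y ∈ L, c • y = z := Iff.rfl

lemma mem_restr {W : Submodule ℝ E} {L : AddSubgroup E} {z : W} :
    z ∈ restr W L ↔ (z : E) ∈ L := Iff.rfl

lemma mem_quot [FiniteDimensional ℝ E] {W : Submodule ℝ E} {L : AddSubgroup E}
    {z : (Wᗮ : Submodule ℝ E)} :
    z ∈ quot W L ↔ ∃ y ∈ L, Wᗮ.orthogonalProjectionOnto y = z := Iff.rfl

lemma Sep.restr {L : AddSubgroup E} {c : ℝ} (h : Sep c L) (W : Submodule ℝ E) :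
    Sep c (restr W L) := by
  intro y hy hy0
  have := h (y : E) hy (by simpa using hy0)
  simpa using this

lemma Sep.scale {L : AddSubgroup E} {c d : ℝ} (h : Sep c L) (hd : 0 < d) :
    Sep (d * c) (scale d L) := by
  rintro z ⟨y, hy, rfl⟩ hz
  have hy0 : y ≠ 0 := by
    rintro rfl
    exact hz (by simp)
  have := h y hy hy0
  change d * c ≤ ‖d • y‖
  rw [norm_smul, Real.norm_eq_abs, abs_of_pos hd]
  exact mul_le_mul_of_nonneg_left this hd.le

lemma nrm_scale (L : AddSubgroup E) {c : ℝ} (hc : 0 < c) (x : E) :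
    nrm (scale c L) x = nrm L x / c := by
  have h1 : nrm L x / c = c⁻¹ * nrm L x := by ring
  rw [h1]
  unfold nrm
  rw [Real.mul_iSup_of_nonneg (by positivity)]
  symm
  let φ : L → scale c L := fun y => ⟨c • (y : E), ⟨y, y.2, rfl⟩⟩
  have hφ : Function.Surjective φ := by
    rintro ⟨z, y, hy, rfl⟩
    exact ⟨⟨y, hy⟩, rfl⟩
  refine hφ.iSup_congr _ fun y => ?_
  change 2 * ⟪x, c • (y : E)⟫ / ‖c • (y : E)‖ ^ 2 = _
  rw [real_inner_smul_right, norm_smul, Real.norm_eq_abs, abs_of_pos hc]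
  by_cases hy : (y : E) = 0
  · simp [hy]
  · have : ‖(y : E)‖ ≠ 0 := norm_ne_zero_iff.2 hy
    field_simp

/-! ### Voronoi cells -/

lemma norm_sub_smul_sq (x y : E) (t : ℝ) :
    ‖x - t • y‖ ^ 2 = ‖x‖ ^ 2 - t * (2 * ⟪x, y⟫ - t * ‖y‖ ^ 2) := by
  rw [norm_sub_sq_real, real_inner_smul_right, norm_smul, Real.norm_eq_abs, mul_pow, sq_abs]
  ring

lemma ratio_le_iff {x y : E} (hy : y ≠ 0) {t : ℝ} (ht : 0 < t) :
    2 * ⟪x, y⟫ / ‖y‖ ^ 2 ≤ t ↔ ‖x‖ ≤ ‖x - t • y‖ := by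
  have hy' : 0 < ‖y‖ := norm_pos_iff.2 hy
  rw [← sq_le_sq₀ (norm_nonneg _) (norm_nonneg _), norm_sub_smul_sq, div_le_iff₀ (by positivity)]
  constructor
  · intro h
    nlinarith [mul_nonneg ht.le (sub_nonneg.2 h)]
  · intro h
    by_contra hc
    push Not at hc
    nlinarith [mul_pos ht (sub_pos.2 hc)]

lemma ratio_lt_iff {x y : E} (hy : y ≠ 0) {t : ℝ} (ht : 0 < t) :
    2 * ⟪x, y⟫ / ‖y‖ ^ 2 < t ↔ ‖x‖ < ‖x - t • y‖ := by
  have hy' : 0 < ‖y‖ := norm_pos_iff.2 hy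
  rw [← sq_lt_sq₀ (norm_nonneg _) (norm_nonneg _), norm_sub_smul_sq, div_lt_iff₀ (by positivity)]
  constructor
  · intro h
    nlinarith [mul_pos ht (sub_pos.2 h)]
  · intro h
    by_contra hc
    push Not at hc
    nlinarith [mul_nonneg ht.le (sub_nonneg.2 hc)]

lemma nrm_le_iff {L : AddSubgroup E} {c : ℝ} (hc : 0 < c) (h : Sep c L) {t : ℝ} (ht : 0 < t)
    (x : E) : nrm L x ≤ t ↔ ∀ y ∈ L, ‖x‖ ≤ ‖x - t • y‖ := by
  constructor
  · intro hx y hy
    by_cases hy0 : y = 0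
    · simp [hy0]
    · exact (ratio_le_iff hy0 ht).1 ((le_nrm hc h x hy).trans hx)
  · intro hx
    refine ciSup_le fun y => ?_
    by_cases hy0 : (y : E) = 0
    · simp [hy0, ht.le]
    · exact (ratio_le_iff hy0 ht).2 (hx y y.2)

lemma norm_lt_of_nrm_lt {L : AddSubgroup E} {c : ℝ} (hc : 0 < c) (h : Sep c L) {t : ℝ}
    (ht : 0 < t) {x : E} (hx : nrm L x < t) {y : E} (hy : y ∈ L) (hy0 : y ≠ 0) :
    ‖x‖ < ‖x - t • y‖ :=
  (ratio_lt_iff hy0 ht).1 ((le_nrm hc h x hy).trans_lt hx)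

/-- the strict cells are disjoint. -/
lemma strict_disjoint {L : AddSubgroup E} {c : ℝ} (hc : 0 < c) (h : Sep c L) {t : ℝ}
    (ht : 0 < t) {x y : E} (hy : y ∈ L) (hx : nrm L x < t) (hxy : nrm L (x + t • y) < t) :
    y = 0 := by
  by_contra hy0
  have h1 := norm_lt_of_nrm_lt hc h ht hx (L.neg_mem hy) (neg_ne_zero.2 hy0)
  have h2 := norm_lt_of_nrm_lt hc h ht hxy hy hy0
  rw [smul_neg, sub_neg_eq_add] at h1
  rw [add_sub_cancel_right] at h2
  exact lt_asymm h1 h2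

/-! ### discreteness -/

lemma Sep.discrete {L : AddSubgroup E} {c : ℝ} (hc : 0 < c) (h : Sep c L) :
    DiscreteTopology L := by
  refine DiscreteTopology.of_forall_le_norm hc fun x hx => ?_
  have := h x x.2 (by simpa using hx)
  simpa using this

variable [FiniteDimensional ℝ E]

lemma Sep.isClosed {L : AddSubgroup E} {c : ℝ} (hc : 0 < c) (h : Sep c L) :
    IsClosed (L : Set E) := by
  have := h.discrete hc
  exact AddSubgroup.isClosed_of_discrete

lemma Sep.finite_inter {L : AddSubgroup E} {c : ℝ} (hc : 0 < c) (h : Sep c L) (R : ℝ) :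
    {y : E | y ∈ L ∧ ‖y‖ ≤ R}.Finite := by
  have := h.discrete hc
  have : ProperSpace E := FiniteDimensional.proper_real E
  have h1 : IsDiscrete (L : Set E) := ⟨inferInstanceAs (DiscreteTopology L)⟩
  have h2 := Metric.finite_isBounded_inter_isClosed (K := Metric.closedBall (0 : E) R)
    (s := (L : Set E)) h1 Metric.isBounded_closedBall (h.isClosed hc)
  refine h2.subset ?_
  rintro y ⟨hy, hR⟩
  exact ⟨by simpa using hR, hy⟩

lemma Sep.countable {L : AddSubgroup E} {c : ℝ} (hc : 0 < c) (h : Sep c L) : Countable L := by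
  have := h.discrete hc
  have : ProperSpace E := FiniteDimensional.proper_real E
  exact countable_of_Lindelof_of_discrete

/-- the maximum is attained at a nonzero vector. -/
lemma exists_max {L : AddSubgroup E} {c : ℝ} (hc : 0 < c) (h : Sep c L) (hL : L ≠ ⊥) (x : E) :
    ∃ y ∈ L, y ≠ 0 ∧ 2 * ⟪x, y⟫ / ‖y‖ ^ 2 = nrm L x := by
  obtain ⟨y0, hy0L, hy00⟩ : ∃ y0 : E, y0 ∈ L ∧ y0 ≠ 0 := by
    obtain ⟨y, hy⟩ := AddSubgroup.ne_bot_iff_exists_ne_zero.1 hL
    exact ⟨y, y.2, by simpa using hy⟩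
  rcases (nrm_nonneg L x).eq_or_lt with hz | hpos
  · refine ⟨y0, hy0L, hy00, le_antisymm (le_nrm hc h x hy0L) ?_⟩
    have h1 := le_nrm hc h x (L.neg_mem hy0L)
    rw [inner_neg_right, norm_neg, ← hz] at h1
    rw [← hz]
    have : 2 * -⟪x, (y0 : E)⟫ / ‖(y0 : E)‖ ^ 2 = -(2 * ⟪x, (y0 : E)⟫ / ‖(y0 : E)‖ ^ 2) := by ring
    linarith
  · set R : ℝ := 4 * ‖x‖ / nrm L x with hR
    set S : Set E := {y : E | y ∈ L ∧ ‖y‖ ≤ R} with hS
    have hfin : S.Finite := h.finite_inter hc R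
    have hx : 0 < ‖x‖ := by
      have := nrm_le hc h x
      by_contra hx
      have hx0 : ‖x‖ = 0 := le_antisymm (not_lt.1 hx) (norm_nonneg x)
      rw [hx0, mul_zero] at this
      linarith
    have hne : S.Nonempty := ⟨0, L.zero_mem, by simp only [norm_zero]; positivity⟩
    obtain ⟨y, hyS, hymax⟩ := Set.exists_max_image S (fun y => 2 * ⟪x, y⟫ / ‖y‖ ^ 2) hfin hne
    have key : nrm L x ≤ max (2 * ⟪x, y⟫ / ‖y‖ ^ 2) (nrm L x / 2) := by
      refine ciSup_le fun z => ?_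
      by_cases hz : ‖(z : E)‖ ≤ R
      · exact le_max_of_le_left (hymax z ⟨z.2, hz⟩)
      · push Not at hz
        have hRpos : 0 < R := by positivity
        refine le_max_of_le_right ((ratio_le x z).trans ?_)
        rw [div_le_iff₀ (hRpos.trans hz)]
        have : nrm L x * R = 4 * ‖x‖ := by rw [hR]; field_simp
        nlinarith
    have hy1 : nrm L x ≤ 2 * ⟪x, y⟫ / ‖y‖ ^ 2 := by
      rcases le_max_iff.1 key with h1 | h1
      · exact h1
      · linarith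
    refine ⟨y, hyS.1, ?_, le_antisymm (le_nrm hc h x hyS.1) hy1⟩
    rintro rfl
    simp at hy1
    linarith

/-- every point is congruent modulo `t • L` to a point of the closed cell. -/
lemma exists_near {L : AddSubgroup E} {c : ℝ} (hc : 0 < c) (h : Sep c L) {t : ℝ} (ht : 0 < t)
    (x : E) : ∃ y ∈ L, nrm L (x - t • y) ≤ t := by
  have : ProperSpace E := FiniteDimensional.proper_real E
  obtain ⟨y, hy, hyd⟩ := (h.isClosed hc).exists_infDist_eq_dist ⟨0, L.zero_mem⟩ (t⁻¹ • x)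
  refine ⟨y, hy, (nrm_le_iff hc h ht _).2 fun z hz => ?_⟩
  have h1 : dist (t⁻¹ • x) y ≤ dist (t⁻¹ • x) (y + z) := by
    rw [← hyd]
    exact Metric.infDist_le_dist_of_mem (L.add_mem hy hz)
  have h2 : ∀ w : E, ‖x - t • w‖ = t * dist (t⁻¹ • x) w := by
    intro w
    rw [dist_eq_norm]
    have : x - t • w = t • (t⁻¹ • x - w) := by
      rw [smul_sub, smul_smul, mul_inv_cancel₀ ht.ne', one_smul]
    rw [this, norm_smul, Real.norm_eq_abs, abs_of_pos ht]
  have h3 : x - t • y - t • z = x - t • (y + z) := by rw [smul_add]; abel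
  rw [h3, h2, h2]
  exact mul_le_mul_of_nonneg_left h1 ht.le

end basic

end Pool.Agent.RMLite
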