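import Mathlib

/-!
# RM-lite: reverse Minkowski with `k^ε` slack, short proof (helper9). Definitions and module interface.

Paper proof: /team-store/MP_86f7a7_RMLITE.md
-/

set_option autoImplicit false

open MeasureTheory ProbabilityTheory Module
open scoped RealInnerProductSpace ENNReal NNReal

namespace Pool.Agent.RMLite

section defs

variable {E : Type} [NormedAddCommGroup E] [InnerProductSpace ℝ E]

/-- Gram matrix of a family of vectors. -/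
noncomputable def gramM {r : ℕ} (y : Fin r → E) : Matrix (Fin r) (Fin r) ℝ :=
  Matrix.of fun i j => ⟪y i, y j⟫

/-- all sublattices of `L` have determinant at least one. -/
def Sp (L : AddSubgroup E) : Prop :=
  ∀ (r : ℕ) (y : Fin r → E), (∀ i, y i ∈ L) → LinearIndependent ℝ y → 1 ≤ (gramM y).det

/-- `L` spans `E`. -/
def Full (L : AddSubgroup E) : Prop := Submodule.span ℝ (L : Set E) = ⊤

/-- nonzero elements of `L` have norm at least `c`. -/
def Sep (c : ℝ) (L : AddSubgroup E) : Prop := ∀ y ∈ L, y ≠ 0 → c ≤ ‖y‖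

/-- gauge of the Voronoi cell of `L` (the term `y = 0` contributes `0`). -/
noncomputable def nrm (L : AddSubgroup E) (x : E) : ℝ :=
  ⨆ y : L, 2 * ⟪x, (y : E)⟫ / ‖(y : E)‖ ^ 2

/-- image of `L` under a linear map. -/
def lmap {F : Type} [NormedAddCommGroup F] [InnerProductSpace ℝ F] (G : E →ₗ[ℝ] F)
    (L : AddSubgroup E) : AddSubgroup F := L.map G.toAddMonoidHom

/-- the scaled lattice `c • L`. -/
noncomputable def scale (c : ℝ) (L : AddSubgroup E) : AddSubgroup E :=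
  lmap (c • (LinearMap.id : E →ₗ[ℝ] E)) L

/-- the lattice `L ∩ W` in `W`. -/
def restr (W : Submodule ℝ E) (L : AddSubgroup E) : AddSubgroup W :=
  L.comap W.subtype.toAddMonoidHom

/-- the projection of `L` to `Wᗮ`. -/
noncomputable def quot [FiniteDimensional ℝ E] (W : Submodule ℝ E) (L : AddSubgroup E) :
    AddSubgroup (Wᗮ : Submodule ℝ E) :=
  lmap (Wᗮ.orthogonalProjectionOnto : E →L[ℝ] Wᗮ).toLinearMap L

/-- a selection of a maximiser `y(x)` of `2⟨x,y⟩/|y|²`. -/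
def IsSel [MeasurableSpace E] (L : AddSubgroup E) (y : E → E) : Prop :=
  Measurable y ∧ ∀ x, y x ∈ L ∧ y x ≠ 0 ∧ 2 * ⟪x, y x⟫ / ‖y x‖ ^ 2 = nrm L x

/-- the functional `2 y/|y|²`. -/
noncomputable def nu (y : E → E) (x : E) : E := (2 / ‖y x‖ ^ 2) • y x

/-- the transvection `x ↦ x + s ⟨u,x⟩ v`. -/
noncomputable def trv (s : ℝ) (u v : E) : E →ₗ[ℝ] E :=
  LinearMap.id + s • ((innerSL ℝ u).toLinearMap.smulRight v)

end defs

section meas

variable {E : Type} [NormedAddCommGroup E] [InnerProductSpace ℝ E] [FiniteDimensional ℝ E]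
  [MeasurableSpace E] [BorelSpace E]

/-- the functional `E ‖g‖_L^q`. -/
noncomputable def Phi (q : ℕ) (L : AddSubgroup E) : ℝ≥0∞ :=
  ∫⁻ x, ENNReal.ofReal (nrm L x) ^ q ∂(stdGaussian E)

/-- `N(u,v) = E [ ρ^{q-1} ⟨ν,u⟩ ⟨g,v⟩ ]`. -/
noncomputable def NN (q : ℕ) (L : AddSubgroup E) (y : E → E) (u v : E) : ℝ :=
  ∫ g, nrm L g ^ (q - 1) * ⟪nu y g, u⟫ * ⟪g, v⟫ ∂(stdGaussian E)

end meas

/-! ## Module statements.  All spaces are finite dimensional real inner product spaces in `Type`. -/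

/-- MOM: crude moment bound. -/
def Stmt_MOM : Prop :=
  ∀ p : ℕ, ∃ C : ℝ, 1 ≤ C ∧ ∀ (E : Type) [NormedAddCommGroup E] [InnerProductSpace ℝ E]
    [FiniteDimensional ℝ E] [MeasurableSpace E] [BorelSpace E],
    Integrable (fun x : E => ‖x‖ ^ p) (stdGaussian E) ∧
    ∫ x : E, ‖x‖ ^ p ∂(stdGaussian E) ≤ C * (finrank ℝ E : ℝ) ^ p

/-- DENS: density of the standard Gaussian. -/
def Stmt_DENS : Prop :=
  ∀ (E : Type) [NormedAddCommGroup E] [InnerProductSpace ℝ E]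
    [FiniteDimensional ℝ E] [MeasurableSpace E] [BorelSpace E],
    stdGaussian E = (volume : Measure E).withDensity
      (fun x => ENNReal.ofReal ((Real.sqrt (2 * Real.pi))⁻¹ ^ (finrank ℝ E) *
        Real.exp (-‖x‖ ^ 2 / 2)))

/-- PROD: the standard Gaussian splits along an orthogonal decomposition. -/
def Stmt_PROD : Prop :=
  ∀ (E : Type) [NormedAddCommGroup E] [InnerProductSpace ℝ E]
    [FiniteDimensional ℝ E] [MeasurableSpace E] [BorelSpace E] (W : Submodule ℝ E),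
    ((stdGaussian E).map (fun x : E => (W.orthogonalProjectionOnto x, Wᗮ.orthogonalProjectionOnto x))) =
      (stdGaussian W).prod (stdGaussian (Wᗮ : Submodule ℝ E))

/-- TAIL (step 1). -/
def Stmt_TAIL : Prop :=
  ∀ (E : Type) [NormedAddCommGroup E] [InnerProductSpace ℝ E]
    [FiniteDimensional ℝ E] [MeasurableSpace E] [BorelSpace E] (L : AddSubgroup E), Sep 1 L →
    ∀ T : ℝ, 0 < T → ∫ x, nrm L x ∂(stdGaussian E) ≤ T →
    ∀ σ : ℝ, 1 / (2 * T) ≤ σ → ∀ S : Finset E, (∀ y ∈ S, y ∈ L) →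
      ∑ y ∈ S, Real.exp (-‖y‖ ^ 2 / (2 * σ ^ 2)) ≤ 2 * (2 * T * σ) ^ (finrank ℝ E)

/-- SPLIT (step 2). -/
def Stmt_SPLIT : Prop :=
  ∀ (E : Type) [NormedAddCommGroup E] [InnerProductSpace ℝ E]
    [FiniteDimensional ℝ E] [MeasurableSpace E] [BorelSpace E] (L : AddSubgroup E) (c : ℝ), 0 < c →
    Sep c L → ∀ W : Submodule ℝ E, Sep c (quot W L) → ∀ q : ℕ, 1 ≤ q →
      Phi q L ≤ Phi q (restr W L) + Phi q (quot W L)

/-- QUOT (algebra of step 2): the quotient by a sublattice of small determinant, scaled. -/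
def Stmt_QUOT : Prop :=
  ∀ (E : Type) [NormedAddCommGroup E] [InnerProductSpace ℝ E] [FiniteDimensional ℝ E]
    (L : AddSubgroup E), Sp L → Full L → ∀ (r : ℕ) (y : Fin r → E), (∀ i, y i ∈ L) →
    LinearIndependent ℝ y → ∀ D : ℝ, 1 ≤ D → (gramM y).det ≤ D ^ 2 →
    Sp (restr (Submodule.span ℝ (Set.range y)) L) ∧
    Full (restr (Submodule.span ℝ (Set.range y)) L) ∧
    Sp (scale D (quot (Submodule.span ℝ (Set.range y)) L)) ∧
    Full (scale D (quot (Submodule.span ℝ (Set.range y)) L))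

/-- SEL: measurable selection of the maximiser. -/
def Stmt_SEL : Prop :=
  ∀ (E : Type) [NormedAddCommGroup E] [InnerProductSpace ℝ E]
    [FiniteDimensional ℝ E] [MeasurableSpace E] [BorelSpace E] (L : AddSubgroup E) (c : ℝ), 0 < c →
    Sep c L → L ≠ ⊥ → ∃ y : E → E, IsSel L y

/-- REFL (step 3, reflection identity). -/
def Stmt_REFL : Prop :=
  ∀ (E : Type) [NormedAddCommGroup E] [InnerProductSpace ℝ E]
    [FiniteDimensional ℝ E] [MeasurableSpace E] [BorelSpace E] (L : AddSubgroup E), Sep 1 L →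
    ∀ y : E → E, IsSel L y → ∀ q : ℕ, 1 ≤ q → ∀ u v : E,
      2 * NN q L y u v =
        ∫ g, nrm L g ^ q * ⟪nu y g, u⟫ * ⟪y g, v⟫ ∂(stdGaussian E)

/-- PERT (step 3, pointwise lower bound). -/
def Stmt_PERT : Prop :=
  ∀ (E : Type) [NormedAddCommGroup E] [InnerProductSpace ℝ E]
    [FiniteDimensional ℝ E] [MeasurableSpace E] [BorelSpace E] (L : AddSubgroup E), Sep 1 L →
    ∀ y : E → E, IsSel L y → ∀ q : ℕ, 1 ≤ q → ∀ u v : E, ‖u‖ = 1 → ‖v‖ = 1 → ⟪u, v⟫ = 0 →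
    ∀ s : ℝ, 0 ≤ s → s ≤ 1 / 4 → ∀ g : E,
      nrm L g ^ q + q * s * nrm L g ^ (q - 1) *
          (⟪nu y g, u⟫ * ⟪g, v⟫ - nrm L g * (⟪nu y g, u⟫ * ⟪y g, v⟫))
        - 8 * q * s ^ 2 * nrm L g ^ (q - 1) * ‖g‖ ≤ nrm (lmap (trv s u v) L) g ^ q

/-- DETP (step 3, transvections preserve `Sp`). -/
def Stmt_DETP : Prop :=
  ∀ (E : Type) [NormedAddCommGroup E] [InnerProductSpace ℝ E] [FiniteDimensional ℝ E]
    (L : AddSubgroup E), Sp L → Full L → ∀ δ : ℝ, 0 < δ →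
    (∀ (r : ℕ) (y : Fin r → E), 0 < r → r < finrank ℝ E → (∀ i, y i ∈ L) →
      LinearIndependent ℝ y → 1 + δ ≤ (gramM y).det) →
    ∀ u v : E, ‖u‖ = 1 → ‖v‖ = 1 → ⟪u, v⟫ = 0 → ∀ s : ℝ, 0 ≤ s → s < 1 →
      1 ≤ (1 - s) ^ (2 * finrank ℝ E) * (1 + δ) →
      Sp (lmap (trv s u v) L) ∧ Full (lmap (trv s u v) L)

/-- NEAR (step 3, conclusion): a near-maximiser is nearly isotropic. -/
def Stmt_NEAR : Prop :=
  ∀ (E : Type) [NormedAddCommGroup E] [InnerProductSpace ℝ E]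
    [FiniteDimensional ℝ E] [MeasurableSpace E] [BorelSpace E], 1 ≤ finrank ℝ E →
    ∀ q : ℕ, 1 ≤ q → ∀ S : ℝ, (∀ L : AddSubgroup E, Sp L → Full L → Phi q L ≤ ENNReal.ofReal S) →
    ∀ δ : ℝ, 0 < δ → ∀ ε : ℝ, 0 < ε → ∃ η : ℝ, 0 < η ∧
    ∀ L : AddSubgroup E, Sp L → Full L →
    (∀ (r : ℕ) (y : Fin r → E), 0 < r → r < finrank ℝ E → (∀ i, y i ∈ L) →
      LinearIndependent ℝ y → 1 + δ ≤ (gramM y).det) →
    ENNReal.ofReal (S - η) ≤ Phi q L →
    ∀ y : E → E, IsSel L y → ∀ u v : E, ‖u‖ = 1 → ‖v‖ = 1 → ⟪u, v⟫ = 0 →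
      |NN q L y u v| ≤ ε

/-- INTERP (step 4, interpolation lemma). -/
def Stmt_INTERP : Prop :=
  ∀ N : ℕ, 1 ≤ N → ∃ C : ℝ, 1 ≤ C ∧ ∀ (k : ℕ) (E : Type) [NormedAddCommGroup E]
    [InnerProductSpace ℝ E] [FiniteDimensional ℝ E] [MeasurableSpace E] [BorelSpace E]
    (b : OrthonormalBasis (Fin k) ℝ E) (F f : E → E) (w : E → ℝ),
    Measurable F → Measurable f →
    Integrable (fun x => ‖F x‖ ^ 2) (stdGaussian E) →
    Integrable (fun x => ‖f x‖ ^ 2) (stdGaussian E) →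
    Integrable w (stdGaussian E) → (∀ x y, |⟪F x, f y⟫| ≤ w x) →
    ∀ β : ℝ, 0 < β → β ≤ 1 →
      |∑ i, ∑ j, (∫ g, ⟪F g, b i⟫ * ⟪g, b j⟫ ∂(stdGaussian E)) *
          (∫ g, ⟪f g, b i⟫ * ⟪g, b j⟫ ∂(stdGaussian E))|
        ≤ C * ((∫ x, w x ∂(stdGaussian E)) / β + β ^ N *
            (Real.sqrt (∫ x, ‖F x‖ ^ 2 ∂(stdGaussian E)) *
              Real.sqrt (∫ x, ‖f x‖ ^ 2 ∂(stdGaussian E))))

/-- URY1 (step 5, functional form in coordinates). -/
def Stmt_URY1 : Prop :=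
  ∀ (k : ℕ) (u : (Fin k → ℝ) → ℝ) (Λ : (Fin k → ℝ) → ℝ), Measurable u → Measurable Λ →
    (∀ x, 0 ≤ u x) → (∃ C : ℝ, ∀ g, |Λ g| ≤ C * (1 + ∑ i, |g i|)) →
    (∀ x g, u x ≤ Real.exp (Λ g - ∑ i, g i * x i)) →
      ∫⁻ x, ENNReal.ofReal (u x) ≤
        ENNReal.ofReal ((Real.sqrt (2 * Real.pi)) ^ k *
          Real.exp (∫ g, Λ g ∂(Measure.pi fun _ : Fin k => gaussianReal 0 1)))

/-- WID (step 5, conclusion): a compact set of volume at least one has large Gaussian width,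
witnessed by a finitely valued measurable map. -/
def Stmt_WID : Prop :=
  ∀ (E : Type) [NormedAddCommGroup E] [InnerProductSpace ℝ E]
    [FiniteDimensional ℝ E] [MeasurableSpace E] [BorelSpace E], 1 ≤ finrank ℝ E →
    ∀ V : Set E, IsCompact V → 1 ≤ volume V →
    ∃ f : E → E, Measurable f ∧ (Set.range f).Finite ∧ (∀ g, f g ∈ V) ∧
      (finrank ℝ E : ℝ) / 8 ≤ ∫ g, ⟪g, f g⟫ ∂(stdGaussian E)

/-- VOL: the Voronoi cell is compact and has volume at least one. -/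
def Stmt_VOL : Prop :=
  ∀ (E : Type) [NormedAddCommGroup E] [InnerProductSpace ℝ E]
    [FiniteDimensional ℝ E] [MeasurableSpace E] [BorelSpace E] (L : AddSubgroup E),
    Sp L → Full L → IsCompact {x : E | nrm L x ≤ 1} ∧ 1 ≤ volume {x : E | nrm L x ≤ 1}

/-- MAIN: bound for `Phi`. -/
def Stmt_MAIN : Prop :=
  ∀ a : ℝ, 0 < a → ∀ q : ℕ, 2 ≤ q → ∃ C : ℝ, 1 ≤ C ∧
    ∀ (E : Type) [NormedAddCommGroup E] [InnerProductSpace ℝ E]
    [FiniteDimensional ℝ E] [MeasurableSpace E] [BorelSpace E] (L : AddSubgroup E),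
    Sp L → Full L → Phi q L ≤ ENNReal.ofReal (finrank ℝ E * (C * (finrank ℝ E : ℝ) ^ a) ^ q)

end Pool.Agent.RMLite
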