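import Pool.Agent.RMLite.Defs

/-!
# RM-lite, module DENS: density of the standard Gaussian measure.
-/

set_option autoImplicit false

open MeasureTheory ProbabilityTheory Module
open scoped RealInnerProductSpace ENNReal NNReal

namespace Pool.Agent.RMLite

namespace DENSAux

variable {E : Type} [NormedAddCommGroup E] [InnerProductSpace ℝ E] [FiniteDimensional ℝ E]
  [MeasurableSpace E] [BorelSpace E]

/-- the Gaussian density. -/
noncomputable def rho (x : E) : ℝ :=
  (Real.sqrt (2 * Real.pi))⁻¹ ^ (finrank ℝ E) * Real.exp (-‖x‖ ^ 2 / 2)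

theorem rho_pos (x : E) : 0 < rho x := by
  unfold rho
  positivity

theorem continuous_rho : Continuous (rho (E := E)) := by
  unfold rho
  fun_prop

theorem integrable_rho : Integrable (rho (E := E)) := by
  have h := GaussianFourier.integrable_cexp_neg_mul_sq_norm_add (V := E) (b := (1 / 2 : ℂ))
    (by norm_num) 0 0
  have h2 := h.re
  have h3 : (fun v : E => RCLike.re (Complex.exp (-(1 / 2) * ‖v‖ ^ 2 + 0 * ⟪(0 : E), v⟫))) =
      fun v : E => Real.exp (-‖v‖ ^ 2 / 2) := by
    ext v
    have : (-(1 / 2) * (‖v‖ : ℂ) ^ 2 + 0 * ((⟪(0 : E), v⟫ : ℝ) : ℂ)) =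
        ((-‖v‖ ^ 2 / 2 : ℝ) : ℂ) := by
      push_cast; ring
    rw [this, ← Complex.ofReal_exp]
    exact Complex.ofReal_re _
  rw [h3] at h2
  exact h2.const_mul _

theorem main : stdGaussian E = (volume : Measure E).withDensity
    (fun x => ENNReal.ofReal (rho x)) := by
  have hfin : IsFiniteMeasure ((volume : Measure E).withDensity
      (fun x : E => ENNReal.ofReal (rho x))) :=
    isFiniteMeasure_withDensity_ofReal integrable_rho.2
  apply Measure.ext_of_charFun
  ext t
  rw [charFun_stdGaussian, charFun_apply,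
    integral_withDensity_eq_integral_toReal_smul
      continuous_rho.measurable.ennreal_ofReal
      (Filter.Eventually.of_forall fun x => ENNReal.ofReal_lt_top)]
  have hc : (Real.sqrt (2 * Real.pi))⁻¹ ^ (finrank ℝ E)
      = (2 * Real.pi) ^ (-((finrank ℝ E : ℝ) / 2)) := by
    have h2π : (0 : ℝ) ≤ 2 * Real.pi := by positivity
    rw [Real.sqrt_eq_rpow, ← Real.rpow_neg h2π, ← Real.rpow_natCast, ← Real.rpow_mul h2π]
    congr 1
    ring
  have h1 : ∀ x : E, (ENNReal.ofReal (rho x)).toReal • Complex.exp (⟪x, t⟫ * Complex.I) =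
      ((2 * Real.pi) ^ (-((finrank ℝ E : ℝ) / 2)) : ℝ) *
        Complex.exp (-(1 / 2) * ‖x‖ ^ 2 + Complex.I * ⟪t, x⟫) := by
    intro x
    rw [ENNReal.toReal_ofReal (rho_pos x).le, Complex.real_smul]
    unfold rho
    rw [hc, Complex.ofReal_mul, mul_assoc, Complex.ofReal_exp, ← Complex.exp_add,
      real_inner_comm]
    congr 2
    push_cast
    ring
  simp only [h1]
  rw [integral_const_mul, GaussianFourier.integral_cexp_neg_mul_sq_norm_add (by norm_num)]
  have h2 : (Real.pi / (1 / 2 : ℂ)) ^ ((finrank ℝ E : ℂ) / 2) =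
      (((2 * Real.pi) ^ ((finrank ℝ E : ℝ) / 2) : ℝ) : ℂ) := by
    rw [Complex.ofReal_cpow (by positivity)]
    push_cast
    congr 1
    ring
  rw [h2, ← mul_assoc, ← Complex.ofReal_mul, ← Real.rpow_add (by positivity)]
  simp only [neg_add_cancel, Real.rpow_zero, Complex.ofReal_one, one_mul]
  congr 1
  rw [Complex.I_sq]
  ring

end DENSAux

theorem stmt_DENS : Stmt_DENS := by
  intro E _ _ _ _ _
  exact DENSAux.main

end Pool.Agent.RMLite
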