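import Pool.Agent.RMLite.Quot

/-!
# RM-lite, module DETP (helper36): transvections preserve the class `Sp`.
-/

set_option autoImplicit false

open Module Matrix
open scoped RealInnerProductSpace

namespace Pool.Agent.RMLite

namespace DETPAux

open QUOTAux

/-- `det (1 + Q) ≥ 1` for `Q` positive semidefinite. -/
lemma one_le_det_one_add {κ : Type*} [Fintype κ] [DecidableEq κ] {Q : Matrix κ κ ℝ}
    (hQ : Q.PosSemidef) : 1 ≤ (1 + Q).det := by
  have hH : (1 + Q).IsHermitian := Matrix.isHermitian_one.add hQ.isHermitian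
  rw [hH.det_eq_prod_eigenvalues]
  have h1 : ∀ i, 1 ≤ hH.eigenvalues i := by
    intro i
    rw [hH.eigenvalues_eq, Matrix.add_mulVec, Matrix.one_mulVec, dotProduct_add, map_add]
    have h2 : RCLike.re (star (⇑(hH.eigenvectorBasis i)) ⬝ᵥ (⇑(hH.eigenvectorBasis i))) = (1 : ℝ) := by
      rw [dotProduct_comm, ← EuclideanSpace.inner_eq_star_dotProduct]
      simp [hH.eigenvectorBasis.orthonormal.1 i]
    have h3 : 0 ≤ RCLike.re (star (⇑(hH.eigenvectorBasis i)) ⬝ᵥ Q *ᵥ (⇑(hH.eigenvectorBasis i))) := by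
      have := hQ.dotProduct_mulVec_nonneg (⇑(hH.eigenvectorBasis i))
      simpa using this
    rw [h2]
    linarith
  simp only [RCLike.ofReal_real_eq_id, id_eq]
  calc (1 : ℝ) = ∏ _i : κ, (1 : ℝ) := by simp
    _ ≤ ∏ i, hH.eigenvalues i := Finset.prod_le_prod (fun _ _ => zero_le_one) fun i _ => h1 i

/-- Loewner monotonicity of the determinant. -/
lemma det_le_det_of_posSemidef_sub {κ : Type*} [Fintype κ] [DecidableEq κ] {A B : Matrix κ κ ℝ}
    (hA : A.PosDef) (hBA : (B - A).PosSemidef) : A.det ≤ B.det := by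
  obtain ⟨C, hC⟩ : ∃ C : Matrix κ κ ℝ, B - A = Cᴴ * C := by
    open scoped MatrixOrder in
    have := CStarAlgebra.nonneg_iff_eq_star_mul_self.mp hBA.nonneg
    obtain ⟨C, hC⟩ := this
    exact ⟨C, hC⟩
  have hB : B = A + Cᴴ * C := by rw [← hC]; abel
  rw [hB, Matrix.det_add_mul _ _ hA.det_pos.ne'.isUnit]
  have h1 : (C * A⁻¹ * Cᴴ).PosSemidef := hA.inv.posSemidef.mul_mul_conjTranspose_same C
  have h2 := one_le_det_one_add h1
  have h3 := hA.det_pos
  nlinarith

variable {E : Type} [NormedAddCommGroup E] [InnerProductSpace ℝ E]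

lemma trv_apply (s : ℝ) (u v x : E) : trv s u v x = x + s • (⟪u, x⟫ • v) := rfl

lemma norm_trv_ge {s : ℝ} (hs : 0 ≤ s) {u v : E} (hu : ‖u‖ = 1) (hv : ‖v‖ = 1) (x : E) :
    (1 - s) * ‖x‖ ≤ ‖trv s u v x‖ := by
  rw [trv_apply]
  have h1 : ‖s • (⟪u, x⟫ • v)‖ ≤ s * ‖x‖ := by
    rw [norm_smul, norm_smul, hv, mul_one, Real.norm_eq_abs, abs_of_nonneg hs]
    have := abs_real_inner_le_norm u x
    rw [hu, one_mul] at this
    exact mul_le_mul_of_nonneg_left this hs
  have h2 : ‖x‖ ≤ ‖x + s • (⟪u, x⟫ • v)‖ + ‖s • (⟪u, x⟫ • v)‖ := by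
    calc ‖x‖ = ‖(x + s • (⟪u, x⟫ • v)) - s • (⟪u, x⟫ • v)‖ := by rw [add_sub_cancel_right]
      _ ≤ _ := norm_sub_le _ _
  linarith

lemma trv_injective {s : ℝ} (hs : 0 ≤ s) (hs1 : s < 1) {u v : E} (hu : ‖u‖ = 1) (hv : ‖v‖ = 1) :
    Function.Injective (trv s u v) := by
  rw [← LinearMap.ker_eq_bot, LinearMap.ker_eq_bot']
  intro x hx
  have h := norm_trv_ge hs hu hv x
  rw [hx, norm_zero] at h
  have h2 : 0 ≤ ‖x‖ := norm_nonneg x
  have h3 : ‖x‖ = 0 := by nlinarith
  exact norm_eq_zero.1 h3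

/-- lower bound for the Gram determinant of the image. -/
lemma det_gram_trv_ge {s : ℝ} (hs : 0 ≤ s) (hs1 : s < 1) {u v : E} (hu : ‖u‖ = 1) (hv : ‖v‖ = 1)
    {r : ℕ} (y : Fin r → E) (hy : LinearIndependent ℝ y) :
    (1 - s) ^ (2 * r) * (Matrix.gram ℝ y).det ≤ (Matrix.gram ℝ fun i => trv s u v (y i)).det := by
  have h1s : 0 < 1 - s := by linarith
  have hA : (((1 - s) ^ 2) • Matrix.gram ℝ y).PosDef :=
    (Matrix.posDef_gram_of_linearIndependent hy).smul (by positivity)
  have hd : (((1 - s) ^ 2) • Matrix.gram ℝ y).det = (1 - s) ^ (2 * r) * (Matrix.gram ℝ y).det := by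
    rw [Matrix.det_smul, Fintype.card_fin, ← pow_mul]
  rw [← hd]
  apply det_le_det_of_posSemidef_sub hA
  refine .of_dotProduct_mulVec_nonneg ?_ fun x => ?_
  · exact (Matrix.isHermitian_gram ℝ _).sub hA.isHermitian
  · have e1 := Matrix.star_dotProduct_gram_mulVec (𝕜 := ℝ) y x x
    have e2 := Matrix.star_dotProduct_gram_mulVec (𝕜 := ℝ) (fun i => trv s u v (y i)) x x
    rw [Matrix.sub_mulVec, dotProduct_sub, e2, Matrix.smul_mulVec, dotProduct_smul, e1]
    have e3 : ∑ i, x i • trv s u v (y i) = trv s u v (∑ i, x i • y i) := by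
      rw [map_sum]
      exact Finset.sum_congr rfl fun i _ => (map_smul _ _ _).symm
    rw [e3, real_inner_self_eq_norm_sq, real_inner_self_eq_norm_sq, smul_eq_mul, ← mul_pow]
    have h := norm_trv_ge hs hu hv (∑ i, x i • y i)
    have h0 : 0 ≤ (1 - s) * ‖∑ i, x i • y i‖ := by positivity
    nlinarith

end DETPAux

open DETPAux QUOTAux

theorem stmt_DETP : Stmt_DETP := by
  intro E _ _ _ L hSp hFull δ hδ H u v hu hv huv s hs hs1 hsδ
  have hinj := trv_injective hs hs1 hu hv
  have h1s : 0 < 1 - s := by linarith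
  constructor
  · intro r z hz hzli
    have hex : ∀ i, ∃ x : E, x ∈ L ∧ trv s u v x = z i := fun i => hz i
    choose y hyL hyz using hex
    have hyz' : z = (trv s u v) ∘ y := by ext i; exact (hyz i).symm
    have hyli : LinearIndependent ℝ y := by
      rw [hyz'] at hzli
      exact LinearIndependent.of_comp _ hzli
    have hle : r ≤ finrank ℝ E := by
      have := hyli.fintype_card_le_finrank
      simpa using this
    rcases Nat.eq_zero_or_pos r with rfl | hr
    · simp [gramM]
    rcases hle.lt_or_eq with hlt | heq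
    · have h1 := H r y hr hlt hyL hyli
      have h2 := det_gram_trv_ge hs hs1 hu hv y hyli
      have h3 : gramM z = Matrix.gram ℝ fun i => trv s u v (y i) := by
        rw [hyz']; rfl
      rw [h3]
      have h4 : (1 - s) ^ (2 * finrank ℝ E) ≤ (1 - s) ^ (2 * r) :=
        pow_le_pow_of_le_one h1s.le (by linarith) (by omega)
      have h5 : (0 : ℝ) < 1 + δ := by linarith
      calc (1 : ℝ) ≤ (1 - s) ^ (2 * finrank ℝ E) * (1 + δ) := hsδ
        _ ≤ (1 - s) ^ (2 * r) * (1 + δ) := by gcongr
        _ ≤ (1 - s) ^ (2 * r) * (Matrix.gram ℝ y).det := by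
            apply mul_le_mul_of_nonneg_left h1; positivity
        _ ≤ _ := h2
    · have : Nonempty (Fin r) := ⟨⟨0, hr⟩⟩
      let b := basisOfLinearIndependentOfCardEqFinrank hyli (by simpa using heq)
      have hb : ∀ i, b i = y i := fun i => by simp [b]
      have h1 : z = fun j => ∑ i, (LinearMap.toMatrix b b (trv s u v)) i j • y i := by
        ext j
        have := b.sum_repr (trv s u v (b j))
        rw [← hyz j, ← hb j, ← this]
        refine Finset.sum_congr rfl fun i _ => ?_
        rw [LinearMap.toMatrix_apply, hb i]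
      have h2 : LinearMap.det (trv s u v) = 1 := by
        have h3 : trv s u v = LinearMap.transvection (s • (innerSL ℝ u).toLinearMap) v := by
          ext x
          rw [trv_apply, LinearMap.transvection.apply]
          simp [smul_smul]
        rw [h3, LinearMap.transvection.det]
        simp [huv]
      have h4 : gramM z = (LinearMap.toMatrix b b (trv s u v))ᵀ * Matrix.gram ℝ y *
          (LinearMap.toMatrix b b (trv s u v)) := by
        rw [gramM_eq, h1, gram_comb]
      rw [h4, Matrix.det_mul, Matrix.det_mul, Matrix.det_transpose, LinearMap.det_toMatrix, h2,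
        one_mul, mul_one]
      exact hSp r y hyL hyli
  · rw [Full, eq_top_iff]
    have hsurj : Function.Surjective (trv s u v) :=
      (LinearMap.injective_iff_surjective).1 hinj
    intro w _
    obtain ⟨x, rfl⟩ := hsurj w
    have hx : x ∈ Submodule.span ℝ (L : Set E) := by rw [hFull]; trivial
    have h1 : Submodule.map (trv s u v) (Submodule.span ℝ (L : Set E)) =
        Submodule.span ℝ ((lmap (trv s u v) L : AddSubgroup E) : Set E) := by
      rw [Submodule.map_span]
      rfl
    rw [← h1]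
    exact ⟨x, hx, rfl⟩

end Pool.Agent.RMLite
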