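import Pool.Agent.RMLite.Main
import Pool.Agent.RevMink.Defs

/-!
# RM-lite: final theorem `RevMink.Stmt_RM` (helper9)
-/

set_option autoImplicit false
set_option linter.unusedSectionVars false
set_option linter.unusedSimpArgs false

open MeasureTheory ProbabilityTheory Module
open scoped RealInnerProductSpace ENNReal NNReal

namespace Pool.Agent.RMLite

namespace FinalAux

open Pool.Agent.RevMink (qf zc zm gram Sparse Stmt_RM)

open scoped MatrixOrder in
/-- realisation of a positive definite form by vectors of Euclidean space -/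
lemma exists_vecs {n : ℕ} (Q : Matrix (Fin n) (Fin n) ℝ) (hQ : Q.PosDef) :
    ∃ v : Fin n → EuclideanSpace ℝ (Fin n), (∀ i j, ⟪v i, v j⟫ = Q i j) ∧
      LinearIndependent ℝ v := by
  obtain ⟨B, hB⟩ := CStarAlgebra.nonneg_iff_eq_star_mul_self.mp hQ.posSemidef.nonneg
  refine ⟨fun j => WithLp.toLp 2 (fun i => B i j), ?_, ?_⟩
  · intro i j
    rw [hB, Matrix.star_eq_conjTranspose, Matrix.mul_apply]
    simp [PiLp.inner_apply, Matrix.conjTranspose_apply, mul_comm]
  · rw [← Matrix.det_gram_ne_zero_iff_linearIndependent]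
    have h1 : Matrix.gram ℝ (fun j => (WithLp.toLp 2 (fun i => B i j) :
        EuclideanSpace ℝ (Fin n))) = Q := by
      ext i j
      rw [Matrix.gram_apply, hB, Matrix.star_eq_conjTranspose, Matrix.mul_apply]
      simp [PiLp.inner_apply, Matrix.conjTranspose_apply, mul_comm]
    rw [h1]
    exact hQ.det_pos.ne'

section
variable {n : ℕ} (v : Fin n → EuclideanSpace ℝ (Fin n))

/-- the embedding of `ℤ^n`. -/
noncomputable def phi : (Fin n → ℤ) →+ EuclideanSpace ℝ (Fin n) :=
  AddMonoidHom.mk' (fun z => ∑ i, (z i : ℝ) • v i) (by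
    intro z w
    simp only [Pi.add_apply, Int.cast_add, add_smul, Finset.sum_add_distrib])

lemma phi_apply (z : Fin n → ℤ) : phi v z = ∑ i, (z i : ℝ) • v i := rfl

variable {v} {Q : Matrix (Fin n) (Fin n) ℝ}

lemma inner_phi (hv : ∀ i j, ⟪v i, v j⟫ = Q i j) (z w : Fin n → ℤ) :
    ⟪phi v z, phi v w⟫ = ∑ a, ∑ b, (z a : ℝ) * (w b : ℝ) * Q a b := by
  rw [phi_apply, phi_apply, sum_inner]
  refine Finset.sum_congr rfl fun a _ => ?_
  rw [inner_sum]
  refine Finset.sum_congr rfl fun b _ => ?_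
  rw [real_inner_smul_left, real_inner_smul_right, hv]
  ring

lemma norm_phi_sq (hv : ∀ i j, ⟪v i, v j⟫ = Q i j) (z : Fin n → ℤ) :
    ‖phi v z‖ ^ 2 = qf Q (zc z) := by
  rw [← real_inner_self_eq_norm_sq, inner_phi hv]
  unfold qf zc
  simp only [dotProduct, Matrix.mulVec, Finset.mul_sum]
  refine Finset.sum_congr rfl fun a _ => Finset.sum_congr rfl fun b _ => ?_
  ring

lemma gramM_phi (hv : ∀ i j, ⟪v i, v j⟫ = Q i j) {r : ℕ} (A : Matrix (Fin n) (Fin r) ℤ) :
    gramM (fun j => phi v (fun i => A i j)) = gram Q A := by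
  ext i j
  unfold gramM gram zm
  rw [Matrix.of_apply, inner_phi hv, Matrix.mul_apply, Finset.sum_comm]
  refine Finset.sum_congr rfl fun b _ => ?_
  rw [Matrix.mul_apply, Finset.sum_mul]
  refine Finset.sum_congr rfl fun a _ => ?_
  simp only [Matrix.transpose_apply, Matrix.map_apply]
  ring

lemma phi_inj (hv : LinearIndependent ℝ v) : Function.Injective (phi v) := by
  rw [injective_iff_map_eq_zero]
  intro z hz
  rw [phi_apply] at hz
  have := Fintype.linearIndependent_iff.1 hv (fun i => (z i : ℝ)) hz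
  ext i
  exact_mod_cast this i

lemma sp_of_sparse (hv : ∀ i j, ⟪v i, v j⟫ = Q i j) (hQ : Sparse Q) :
    Sp (phi v).range := by
  intro r y hy hli
  choose A hA using hy
  have h1 : y = fun j => phi v (fun i => (Matrix.of fun i j => A j i :
      Matrix (Fin n) (Fin r) ℤ) i j) := by
    ext1 j
    exact (hA j).symm
  have hne : (gramM y).det ≠ 0 := by
    have := (Matrix.det_gram_ne_zero_iff_linearIndependent (𝕜 := ℝ) (v := y)).2 hli
    exact this
  rcases Nat.eq_zero_or_pos r with rfl | hr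
  · simp
  · have hrn : r ≤ n := by
      have := hli.fintype_card_le_finrank
      simpa using this
    rw [h1, gramM_phi hv] at hne ⊢
    rcases hQ r hr hrn (Matrix.of fun i j => A j i) with h | h
    · exact absurd h hne
    · exact h

lemma full_of_li (hli : LinearIndependent ℝ v) : Full (phi v).range := by
  unfold Full
  have h1 : Submodule.span ℝ (Set.range v) = ⊤ := hli.span_eq_top_of_card_eq_finrank' (by simp)
  rw [eq_top_iff, ← h1]
  refine Submodule.span_mono ?_
  rintro _ ⟨i, rfl⟩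
  refine ⟨Pi.single i 1, ?_⟩
  rw [phi_apply, Finset.sum_eq_single i]
  · simp
  · intro j _ hj
    simp [Pi.single_eq_of_ne hj]
  · simp

end

/-- bound for the first moment -/
lemma first_moment (hMom : Stmt_MOM) {E : Type} [NormedAddCommGroup E] [InnerProductSpace ℝ E]
    [FiniteDimensional ℝ E] [MeasurableSpace E] [BorelSpace E] {L : AddSubgroup E} (hL : Sep 1 L)
    {q : ℕ} (hq : 1 ≤ q) {M : ℝ} (hM : 0 < M) (h : Phi q L ≤ ENNReal.ofReal (M ^ q)) :
    ∫ g, nrm L g ∂(stdGaussian E) ≤ 2 * M := by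
  obtain ⟨Cm, hCm⟩ := MainAux.exists_momB hMom
  rw [MainAux.Phi_eq hCm hL, ENNReal.ofReal_le_ofReal_iff (by positivity)] at h
  have h1 : ∀ g, nrm L g ≤ M + nrm L g ^ q / M ^ (q - 1) := by
    intro g
    have h0 := nrm_nonneg L g
    rcases le_total (nrm L g) M with h2 | h2
    · have : 0 ≤ nrm L g ^ q / M ^ (q - 1) := by positivity
      linarith
    · have h3 : nrm L g ≤ nrm L g ^ q / M ^ (q - 1) := by
        rw [le_div_iff₀ (by positivity)]
        calc nrm L g * M ^ (q - 1) ≤ nrm L g * nrm L g ^ (q - 1) := by gcongr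
          _ = nrm L g ^ q := by rw [mul_comm, ← pow_succ, Nat.sub_add_cancel hq]
      linarith
  have i1 := (MainAux.nrm_pow_int hCm hL 1).1
  simp only [pow_one] at i1
  have i2 := (MainAux.nrm_pow_int hCm hL q).1
  calc ∫ g, nrm L g ∂(stdGaussian E) ≤ ∫ g, (M + nrm L g ^ q / M ^ (q - 1)) ∂(stdGaussian E) :=
        integral_mono i1 ((integrable_const _).add (i2.div_const _)) h1
    _ = M + (∫ g, nrm L g ^ q ∂(stdGaussian E)) / M ^ (q - 1) := by
        rw [integral_add (integrable_const _) (i2.div_const _), integral_div]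
        simp
    _ ≤ M + M ^ q / M ^ (q - 1) := by gcongr
    _ = 2 * M := by
        have : M ^ q = M ^ (q - 1) * M := by rw [← pow_succ, Nat.sub_add_cancel hq]
        rw [this]
        field_simp
        ring

end FinalAux

open FinalAux in
open Pool.Agent.RevMink (qf zc zm gram Sparse Stmt_RM) in
/-- reverse Minkowski with polynomial slack. -/
theorem stmt_RM_of (hMom : Stmt_MOM) (hMain : Stmt_MAIN) (hTail : Stmt_TAIL) : Stmt_RM := by
  intro c hc
  set q : ℕ := max 2 ⌈4 / c⌉₊ with hq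
  have hq2 : 2 ≤ q := le_max_left _ _
  have hqpos : (0 : ℝ) < q := by
    have : 0 < q := by omega
    exact_mod_cast this
  have hqc : 1 / (q : ℝ) ≤ c / 4 := by
    have h1 : 4 / c ≤ (q : ℝ) := (Nat.le_ceil _).trans (by exact_mod_cast le_max_right _ _)
    rw [div_le_iff₀ hc] at h1
    rw [div_le_iff₀ hqpos]
    linarith
  obtain ⟨C0, hC0, hmain⟩ := hMain (c / 4) (by positivity) q hq2
  refine ⟨4 * C0, by linarith, ?_⟩
  intro n hn Q hQ hSparse s hs r S hS
  have hn1 : (1 : ℝ) ≤ n := by exact_mod_cast hn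
  have hn0 : (0 : ℝ) < n := by linarith
  obtain ⟨v, hv, hli⟩ := exists_vecs Q hQ
  have hSp := sp_of_sparse hv hSparse
  have hFull := full_of_li hli
  set L : AddSubgroup (EuclideanSpace ℝ (Fin n)) := (phi v).range with hLdef
  have hsep := hSp.sep
  set T : ℝ := 2 * C0 * (n : ℝ) ^ (c / 2) with hT
  have hnc : 1 ≤ (n : ℝ) ^ (c / 2) := Real.one_le_rpow hn1 (by positivity)
  have hT2 : 2 ≤ T := by rw [hT]; nlinarith
  have hTmean : ∫ x, nrm L x ∂(stdGaussian (EuclideanSpace ℝ (Fin n))) ≤ T := by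
    have h1 := hmain (EuclideanSpace ℝ (Fin n)) L hSp hFull
    rw [finrank_euclideanSpace_fin] at h1
    set M : ℝ := C0 * (n : ℝ) ^ (c / 2) with hM
    have hMpos : 0 < M := by positivity
    have h2 : (n : ℝ) * (C0 * (n : ℝ) ^ (c / 4)) ^ q ≤ M ^ q := by
      have h3 : (n : ℝ) ≤ ((n : ℝ) ^ (c / 4)) ^ q := by
        rw [← Real.rpow_natCast, ← Real.rpow_mul hn0.le]
        calc (n : ℝ) = (n : ℝ) ^ (1 : ℝ) := (Real.rpow_one _).symm
          _ ≤ (n : ℝ) ^ (c / 4 * q) := by
              refine Real.rpow_le_rpow_of_exponent_le hn1 ?_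
              rw [div_le_iff₀ hqpos] at hqc
              exact hqc
      have h4 : (n : ℝ) ^ (c / 2) = (n : ℝ) ^ (c / 4) * (n : ℝ) ^ (c / 4) := by
        rw [← Real.rpow_add hn0]; congr 1; ring
      calc (n : ℝ) * (C0 * (n : ℝ) ^ (c / 4)) ^ q
          ≤ ((n : ℝ) ^ (c / 4)) ^ q * (C0 * (n : ℝ) ^ (c / 4)) ^ q := by gcongr
        _ = M ^ q := by rw [hM, h4, ← mul_pow]; ring
    have h5 := first_moment hMom hsep (by omega) hMpos
      (h1.trans (ENNReal.ofReal_le_ofReal h2))
    rw [hT]; linarith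
  have hinj := phi_inj hli
  -- the general bound from TAIL
  have hcard : ∀ σ : ℝ, 1 / (2 * T) ≤ σ →
      (S.card : ℝ) ≤ 2 * (2 * T * σ) ^ n * Real.exp (r ^ 2 / (2 * σ ^ 2)) := by
    intro σ hσ
    have hσ0 : 0 < σ := lt_of_lt_of_le (by positivity) hσ
    have h1 := hTail (EuclideanSpace ℝ (Fin n)) L hsep T (by linarith) hTmean σ hσ
      (S.map ⟨phi v, hinj⟩) (by
        intro y hy
        rw [Finset.mem_map] at hy
        obtain ⟨z, -, rfl⟩ := hy
        exact ⟨z, rfl⟩)
    rw [Finset.sum_map, finrank_euclideanSpace_fin] at h1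
    have h2 : (S.card : ℝ) * Real.exp (-(r ^ 2) / (2 * σ ^ 2)) ≤
        ∑ z ∈ S, Real.exp (-‖phi v z‖ ^ 2 / (2 * σ ^ 2)) := by
      rw [← nsmul_eq_mul]
      refine Finset.card_nsmul_le_sum _ _ _ fun z hz => ?_
      refine Real.exp_le_exp.2 ?_
      rw [norm_phi_sq hv]
      have := hS z hz
      gcongr
    have h3 : (S.card : ℝ) * Real.exp (-(r ^ 2) / (2 * σ ^ 2)) ≤ 2 * (2 * T * σ) ^ n := h2.trans h1
    have h4 : Real.exp (-(r ^ 2) / (2 * σ ^ 2)) * Real.exp (r ^ 2 / (2 * σ ^ 2)) = 1 := by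
      rw [← Real.exp_add, ← Real.exp_zero]; congr 1; ring
    calc (S.card : ℝ) = (S.card : ℝ) * Real.exp (-(r ^ 2) / (2 * σ ^ 2)) *
          Real.exp (r ^ 2 / (2 * σ ^ 2)) := by rw [mul_assoc, h4, mul_one]
      _ ≤ 2 * (2 * T * σ) ^ n * Real.exp (r ^ 2 / (2 * σ ^ 2)) := by gcongr
  have hs0 : 0 < s := by linarith
  -- the slack term
  have hslack : 2 * ((n : ℝ) * T / s) ≤ 4 * C0 * (n : ℝ) ^ (1 + c) / s := by
    rw [mul_div_assoc']
    refine div_le_div_of_nonneg_right ?_ hs0.le
    have h1 : (n : ℝ) ^ (1 + c) = (n : ℝ) * ((n : ℝ) ^ (c / 2) * (n : ℝ) ^ (c / 2)) := by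
      rw [← Real.rpow_add hn0, Real.rpow_add hn0, Real.rpow_one]
      congr 2; ring
    rw [h1, hT]
    have h2 : (n : ℝ) ^ (c / 2) ≤ (n : ℝ) ^ (c / 2) * (n : ℝ) ^ (c / 2) :=
      le_mul_of_one_le_left (by linarith) hnc
    have h3 : 0 ≤ 4 * C0 * (n : ℝ) := by positivity
    nlinarith [mul_le_mul_of_nonneg_left h2 h3]
  clear_value T
  have hpi := Real.pi_gt_three
  have hexp1 : (2 : ℝ) ≤ Real.exp 1 := by
    have := Real.add_one_le_exp (1 : ℝ)
    linarith
  rcases le_or_gt (s * Real.sqrt (2 * Real.pi)) (2 * T) with hA | hA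
  · -- case A1
    set σ : ℝ := 1 / (s * Real.sqrt (2 * Real.pi)) with hσ
    have hsq : 0 < Real.sqrt (2 * Real.pi) := Real.sqrt_pos.2 (by positivity)
    have h2pi : Real.sqrt (2 * Real.pi) ^ 2 = 2 * Real.pi := Real.sq_sqrt (by positivity)
    have hsq2 : 2 ≤ Real.sqrt (2 * Real.pi) := by
      refine (Real.le_sqrt (by norm_num) (by positivity)).2 ?_
      linarith
    have h1 := hcard σ (by
      rw [hσ]
      exact one_div_le_one_div_of_le (by positivity) hA)
    have h2 : r ^ 2 / (2 * σ ^ 2) = Real.pi * s ^ 2 * r ^ 2 := by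
      rw [hσ, div_pow, one_pow, mul_pow, h2pi]
      field_simp
    have h3 : 2 * T * σ ≤ T / s := by
      rw [hσ, mul_one_div, div_le_div_iff₀ (by positivity) hs0]
      nlinarith [mul_le_mul_of_nonneg_left hsq2 (mul_nonneg (by linarith : 0 ≤ T) hs0.le)]
    have hσ0 : 0 < σ := by positivity
    have hTs : 1 ≤ T / s := by
      rw [le_div_iff₀ hs0]
      nlinarith
    have h4 : (2 * T * σ) ^ n ≤ Real.exp (n * T / s) := by
      calc (2 * T * σ) ^ n ≤ (T / s) ^ n := pow_le_pow_left₀ (by positivity) h3 n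
        _ ≤ (Real.exp (T / s)) ^ n := by
            refine pow_le_pow_left₀ (by positivity) ?_ n
            have := Real.add_one_le_exp (T / s)
            linarith
        _ = Real.exp (n * T / s) := by rw [← Real.exp_nat_mul]; congr 1; ring
    have h5 : (2 : ℝ) ≤ Real.exp (n * T / s) := by
      refine hexp1.trans (Real.exp_le_exp.2 ?_)
      rw [mul_div_assoc]
      nlinarith
    calc (S.card : ℝ) ≤ 2 * (2 * T * σ) ^ n * Real.exp (r ^ 2 / (2 * σ ^ 2)) := h1
      _ ≤ Real.exp (n * T / s) * Real.exp (n * T / s) * Real.exp (Real.pi * s ^ 2 * r ^ 2) := by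
          rw [h2]; gcongr
      _ = Real.exp (Real.pi * s ^ 2 * r ^ 2 + 2 * (n * T / s)) := by
          rw [← Real.exp_add, ← Real.exp_add]; congr 1; ring
      _ ≤ _ := Real.exp_le_exp.2 (by linarith)
  · -- cases A2, B
    have h1 := hcard (1 / (2 * T)) le_rfl
    have h2 : (2 * T * (1 / (2 * T))) ^ n = 1 := by
      rw [mul_one_div_cancel (by positivity), one_pow]
    have h3 : r ^ 2 / (2 * (1 / (2 * T)) ^ 2) = 2 * T ^ 2 * r ^ 2 := by
      field_simp
    rw [h2, h3, mul_one] at h1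
    have hr : 0 ≤ r ^ 2 := sq_nonneg r
    have hsT : 2 * T ^ 2 ≤ Real.pi * s ^ 2 := by
      have h4 : (2 * T) ^ 2 ≤ (s * Real.sqrt (2 * Real.pi)) ^ 2 :=
        pow_le_pow_left₀ (by positivity) hA.le 2
      have h4' : (s * Real.sqrt (2 * Real.pi)) ^ 2 = s ^ 2 * (2 * Real.pi) := by
        rw [mul_pow, Real.sq_sqrt (by positivity)]
      rw [h4'] at h4
      linarith
    rcases le_or_gt s (2 * T) with hB | hB
    · have h5 : (2 : ℝ) ≤ Real.exp (2 * (n * T / s)) := by
        refine hexp1.trans (Real.exp_le_exp.2 ?_)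
        have : 1 ≤ 2 * T / s := by rw [le_div_iff₀ hs0]; linarith
        have h6 : 2 * (n * T / s) = n * (2 * T / s) := by ring
        rw [h6]
        nlinarith
      calc (S.card : ℝ) ≤ 2 * Real.exp (2 * T ^ 2 * r ^ 2) := h1
        _ ≤ Real.exp (2 * (n * T / s)) * Real.exp (Real.pi * s ^ 2 * r ^ 2) := by
            gcongr
        _ = Real.exp (Real.pi * s ^ 2 * r ^ 2 + 2 * (n * T / s)) := by
            rw [← Real.exp_add]; congr 1; ring
        _ ≤ _ := Real.exp_le_exp.2 (by linarith)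
    · have hpos : 0 ≤ 4 * C0 * (n : ℝ) ^ (1 + c) / s := by positivity
      rcases lt_or_ge (r ^ 2) 1 with hr1 | hr1
      · have hS0 : S ⊆ {0} := by
          intro z hz
          rw [Finset.mem_singleton]
          by_contra hz0
          have h6 : phi v z ≠ 0 := by
            intro h; exact hz0 (hinj (by rw [h, map_zero]))
          have h7 := hsep (phi v z) ⟨z, rfl⟩ h6
          have h8 := norm_phi_sq hv z
          have h9 := hS z hz
          nlinarith
        have h6 : S.card ≤ 1 := (Finset.card_le_card hS0).trans (by simp)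
        have h7 : (S.card : ℝ) ≤ 1 := by exact_mod_cast h6
        refine h7.trans (Real.one_le_exp ?_)
        positivity
      · have h5 : (2 : ℝ) ≤ Real.exp (r ^ 2) :=
          hexp1.trans (Real.exp_le_exp.2 hr1)
        calc (S.card : ℝ) ≤ 2 * Real.exp (2 * T ^ 2 * r ^ 2) := h1
          _ ≤ Real.exp (r ^ 2) * Real.exp (2 * T ^ 2 * r ^ 2) := by gcongr
          _ = Real.exp (r ^ 2 + 2 * T ^ 2 * r ^ 2) := by rw [← Real.exp_add]
          _ ≤ _ := by
              refine Real.exp_le_exp.2 ?_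
              have h6 : 1 + 2 * T ^ 2 ≤ Real.pi * s ^ 2 := by
                have h7 : (2 * T) ^ 2 ≤ s ^ 2 := pow_le_pow_left₀ (by linarith) hB.le 2
                have h8 : 3 * s ^ 2 ≤ Real.pi * s ^ 2 :=
                  mul_le_mul_of_nonneg_right hpi.le (sq_nonneg s)
                have h9 : (1 : ℝ) ≤ T ^ 2 := one_le_pow₀ (by linarith)
                linarith
              have h7 : (1 + 2 * T ^ 2) * r ^ 2 ≤ Real.pi * s ^ 2 * r ^ 2 :=
                mul_le_mul_of_nonneg_right h6 hr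
              linarith

end Pool.Agent.RMLite
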