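import Pool.Agent.RMLite.Defs

/-!
# RM-lite: the interpolation lemma (helper54)
-/

set_option autoImplicit false
set_option linter.unusedSectionVars false
set_option linter.unusedSimpArgs false

open MeasureTheory ProbabilityTheory Module
open scoped RealInnerProductSpace ENNReal NNReal

namespace Pool.Agent.RMLite

namespace INTERPAux

section gauss

variable {E : Type} [NormedAddCommGroup E] [InnerProductSpace ℝ E] [FiniteDimensional ℝ E]
  [MeasurableSpace E] [BorelSpace E]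

lemma integral_cexp (t : E) :
    ∫ x : E, Complex.exp ((⟪x, t⟫ : ℝ) * Complex.I) ∂(stdGaussian E) =
      (Real.exp (-‖t‖ ^ 2 / 2) : ℝ) := by
  have := charFun_stdGaussian t
  rw [charFun_apply] at this
  rw [this]
  push_cast
  rfl

lemma int_bdd {α : Type*} [MeasurableSpace α] (μ : Measure α) [IsFiniteMeasure μ] {f : α → ℝ}
    (hf : Measurable f) (C : ℝ) (h : ∀ x, |f x| ≤ C) : Integrable f μ :=
  Integrable.of_bound hf.aestronglyMeasurable C (Filter.Eventually.of_forall h)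

lemma integral_cos (t : E) :
    ∫ x : E, Real.cos ⟪x, t⟫ ∂(stdGaussian E) = Real.exp (-‖t‖ ^ 2 / 2) := by
  have h := integral_cexp t
  have hint : Integrable (fun x : E => Complex.exp ((⟪x, t⟫ : ℝ) * Complex.I)) (stdGaussian E) := by
    refine Integrable.of_bound (by fun_prop) 1 (Filter.Eventually.of_forall fun x => ?_)
    rw [Complex.norm_exp_ofReal_mul_I]
  have h2 := congrArg Complex.re h
  rw [Complex.ofReal_re] at h2
  rw [← h2, ← RCLike.re_eq_complex_re, ← integral_re hint]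
  refine integral_congr_ae (Filter.Eventually.of_forall fun x => ?_)
  simp only [RCLike.re_eq_complex_re]
  rw [Complex.exp_ofReal_mul_I_re]

lemma integral_sin (t : E) :
    ∫ x : E, Real.sin ⟪x, t⟫ ∂(stdGaussian E) = 0 := by
  have h := integral_cexp t
  have hint : Integrable (fun x : E => Complex.exp ((⟪x, t⟫ : ℝ) * Complex.I)) (stdGaussian E) := by
    refine Integrable.of_bound (by fun_prop) 1 (Filter.Eventually.of_forall fun x => ?_)
    rw [Complex.norm_exp_ofReal_mul_I]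
  have h2 := congrArg Complex.im h
  rw [Complex.ofReal_im] at h2
  rw [← h2, ← RCLike.im_eq_complex_im, ← integral_im hint]
  refine integral_congr_ae (Filter.Eventually.of_forall fun x => ?_)
  simp only [RCLike.im_eq_complex_im]
  rw [Complex.exp_ofReal_mul_I_im]

lemma integrable_inner (b : E) : Integrable (fun x : E => ⟪x, b⟫) (stdGaussian E) := by
  have : Integrable (fun x : E => (innerSL ℝ b) x) (stdGaussian E) :=
    (innerSL ℝ b).integrable_comp (IsGaussian.integrable_id)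
  refine this.congr (Filter.Eventually.of_forall fun x => ?_)
  simp [real_inner_comm]

/-- first order coefficient, sine. -/
lemma integral_sin_mul (u b : E) :
    ∫ x : E, Real.sin ⟪x, u⟫ * ⟪x, b⟫ ∂(stdGaussian E) = Real.exp (-‖u‖ ^ 2 / 2) * ⟪u, b⟫ := by
  have h1 : HasDerivAt (fun t : ℝ => ∫ x : E, Real.cos ⟪x, u + t • b⟫ ∂(stdGaussian E))
      (∫ x : E, -Real.sin ⟪x, u + (0:ℝ) • b⟫ * ⟪x, b⟫ ∂(stdGaussian E)) 0 := by
    refine (hasDerivAt_integral_of_dominated_loc_of_deriv_le (μ := stdGaussian E)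
      (F := fun (t : ℝ) (x : E) => Real.cos ⟪x, u + t • b⟫)
      (F' := fun (t : ℝ) (x : E) => -Real.sin ⟪x, u + t • b⟫ * ⟪x, b⟫)
      (bound := fun x => |⟪x, b⟫|) (s := Set.univ) Filter.univ_mem
      (Filter.Eventually.of_forall fun t => by fun_prop) ?_ (by fun_prop) ?_ ?_ ?_).2
    · exact int_bdd _ (by fun_prop) 1 (fun x => Real.abs_cos_le_one _)
    · refine Filter.Eventually.of_forall fun x t _ => ?_
      rw [Real.norm_eq_abs, abs_mul, abs_neg]
      have := Real.abs_sin_le_one ⟪x, u + t • b⟫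
      nlinarith [abs_nonneg ⟪x, b⟫]
    · exact (integrable_inner b).abs
    · refine Filter.Eventually.of_forall fun x t _ => ?_
      have h2 : HasDerivAt (fun t : ℝ => ⟪x, u + t • b⟫) ⟪x, b⟫ t := by
        have : (fun t : ℝ => ⟪x, u + t • b⟫) = fun t : ℝ => ⟪x, u⟫ + t * ⟪x, b⟫ := by
          funext t; rw [inner_add_right, real_inner_smul_right]
        rw [this]
        simpa using ((hasDerivAt_id t).mul_const ⟪x, b⟫).const_add ⟪x, u⟫
      exact h2.cos
  have h3 : HasDerivAt (fun t : ℝ => Real.exp (-‖u + t • b‖ ^ 2 / 2))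
      (Real.exp (-‖u‖ ^ 2 / 2) * (-⟪u, b⟫)) 0 := by
    have h4 : (fun t : ℝ => -‖u + t • b‖ ^ 2 / 2) =
        fun t : ℝ => -‖u‖ ^ 2 / 2 - t * ⟪u, b⟫ - t ^ 2 * (‖b‖ ^ 2 / 2) := by
      funext t
      rw [norm_add_sq_real, real_inner_smul_right, norm_smul, Real.norm_eq_abs, mul_pow, sq_abs]
      ring
    have h5 : HasDerivAt (fun t : ℝ => -‖u + t • b‖ ^ 2 / 2) (-⟪u, b⟫) 0 := by
      rw [h4]
      have := (((hasDerivAt_id (0:ℝ)).mul_const ⟪u, b⟫).const_sub (-‖u‖ ^ 2 / 2)).sub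
        (((hasDerivAt_id (0:ℝ)).pow 2).mul_const (‖b‖ ^ 2 / 2))
      refine HasDerivAt.congr_deriv this ?_
      simp
    have h6 := h5.exp
    refine HasDerivAt.congr_deriv h6 ?_
    simp
  have h7 : (fun t : ℝ => ∫ x : E, Real.cos ⟪x, u + t • b⟫ ∂(stdGaussian E)) =
      fun t : ℝ => Real.exp (-‖u + t • b‖ ^ 2 / 2) := by
    funext t; exact integral_cos _
  rw [h7] at h1
  have h8 := h1.unique h3
  have h9 : ∫ x : E, -Real.sin ⟪x, u + (0:ℝ) • b⟫ * ⟪x, b⟫ ∂(stdGaussian E) =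
      -∫ x : E, Real.sin ⟪x, u⟫ * ⟪x, b⟫ ∂(stdGaussian E) := by
    rw [← integral_neg]
    refine integral_congr_ae (Filter.Eventually.of_forall fun x => ?_)
    simp
  rw [h9] at h8
  linarith

lemma integral_cos_mul (u b : E) :
    ∫ x : E, Real.cos ⟪x, u⟫ * ⟪x, b⟫ ∂(stdGaussian E) = 0 := by
  have h1 : HasDerivAt (fun t : ℝ => ∫ x : E, Real.sin ⟪x, u + t • b⟫ ∂(stdGaussian E))
      (∫ x : E, Real.cos ⟪x, u + (0:ℝ) • b⟫ * ⟪x, b⟫ ∂(stdGaussian E)) 0 := by
    refine (hasDerivAt_integral_of_dominated_loc_of_deriv_le (μ := stdGaussian E)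
      (F := fun (t : ℝ) (x : E) => Real.sin ⟪x, u + t • b⟫)
      (F' := fun (t : ℝ) (x : E) => Real.cos ⟪x, u + t • b⟫ * ⟪x, b⟫)
      (bound := fun x => |⟪x, b⟫|) (s := Set.univ) Filter.univ_mem
      (Filter.Eventually.of_forall fun t => by fun_prop) ?_ (by fun_prop) ?_ ?_ ?_).2
    · exact int_bdd _ (by fun_prop) 1 (fun x => Real.abs_sin_le_one _)
    · refine Filter.Eventually.of_forall fun x t _ => ?_
      rw [Real.norm_eq_abs, abs_mul]
      have := Real.abs_cos_le_one ⟪x, u + t • b⟫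
      nlinarith [abs_nonneg ⟪x, b⟫]
    · exact (integrable_inner b).abs
    · refine Filter.Eventually.of_forall fun x t _ => ?_
      have h2 : HasDerivAt (fun t : ℝ => ⟪x, u + t • b⟫) ⟪x, b⟫ t := by
        have : (fun t : ℝ => ⟪x, u + t • b⟫) = fun t : ℝ => ⟪x, u⟫ + t * ⟪x, b⟫ := by
          funext t; rw [inner_add_right, real_inner_smul_right]
        rw [this]
        simpa using ((hasDerivAt_id t).mul_const ⟪x, b⟫).const_add ⟪x, u⟫
      exact h2.sin
  have h7 : (fun t : ℝ => ∫ x : E, Real.sin ⟪x, u + t • b⟫ ∂(stdGaussian E)) =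
      fun _ : ℝ => (0:ℝ) := by
    funext t; exact integral_sin _
  rw [h7] at h1
  have h8 := h1.unique (hasDerivAt_const (0:ℝ) (0:ℝ))
  simpa using h8

/-- double integrals. -/
lemma integral_cos2 (a b : E) :
    ∫ p : E × E, Real.cos (⟪p.1, a⟫ + ⟪p.2, b⟫) ∂((stdGaussian E).prod (stdGaussian E)) =
      Real.exp (-(‖a‖ ^ 2 + ‖b‖ ^ 2) / 2) := by
  have h1 : ∀ p : E × E, Real.cos (⟪p.1, a⟫ + ⟪p.2, b⟫) =
      Real.cos ⟪p.1, a⟫ * Real.cos ⟪p.2, b⟫ - Real.sin ⟪p.1, a⟫ * Real.sin ⟪p.2, b⟫ :=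
    fun p => Real.cos_add _ _
  simp_rw [h1]
  rw [integral_sub]
  · rw [integral_prod_mul (fun x : E => Real.cos ⟪x, a⟫) (fun x : E => Real.cos ⟪x, b⟫),
      integral_prod_mul (fun x : E => Real.sin ⟪x, a⟫) (fun x : E => Real.sin ⟪x, b⟫),
      integral_cos, integral_cos, integral_sin, zero_mul, sub_zero, ← Real.exp_add]
    congr 1; ring
  · refine int_bdd _ (by fun_prop) 1 (fun x => ?_)
    rw [abs_mul]
    exact mul_le_one₀ (Real.abs_cos_le_one _) (abs_nonneg _) (Real.abs_cos_le_one _)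
  · refine int_bdd _ (by fun_prop) 1 (fun x => ?_)
    rw [abs_mul]
    exact mul_le_one₀ (Real.abs_sin_le_one _) (abs_nonneg _) (Real.abs_sin_le_one _)

lemma integral_sin2 (a b : E) :
    ∫ p : E × E, Real.sin (⟪p.1, a⟫ + ⟪p.2, b⟫) ∂((stdGaussian E).prod (stdGaussian E)) = 0 := by
  have h1 : ∀ p : E × E, Real.sin (⟪p.1, a⟫ + ⟪p.2, b⟫) =
      Real.sin ⟪p.1, a⟫ * Real.cos ⟪p.2, b⟫ + Real.cos ⟪p.1, a⟫ * Real.sin ⟪p.2, b⟫ :=
    fun p => Real.sin_add _ _
  simp_rw [h1]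
  rw [integral_add]
  · rw [integral_prod_mul (fun x : E => Real.sin ⟪x, a⟫) (fun x : E => Real.cos ⟪x, b⟫),
      integral_prod_mul (fun x : E => Real.cos ⟪x, a⟫) (fun x : E => Real.sin ⟪x, b⟫),
      integral_sin, integral_sin, zero_mul, mul_zero, add_zero]
  · refine int_bdd _ (by fun_prop) 1 (fun x => ?_)
    rw [abs_mul]
    exact mul_le_one₀ (Real.abs_sin_le_one _) (abs_nonneg _) (Real.abs_cos_le_one _)
  · refine int_bdd _ (by fun_prop) 1 (fun x => ?_)
    rw [abs_mul]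
    exact mul_le_one₀ (Real.abs_cos_le_one _) (abs_nonneg _) (Real.abs_sin_le_one _)

/-- the rotation map is measure preserving. -/
lemma mp_rot (z s : ℝ) (h : z ^ 2 + s ^ 2 = 1) :
    MeasurePreserving (fun p : E × E => z • p.1 + s • p.2)
      ((stdGaussian E).prod (stdGaussian E)) (stdGaussian E) := by
  have hm : Measurable (fun p : E × E => z • p.1 + s • p.2) := by fun_prop
  refine ⟨hm, ?_⟩
  have : IsProbabilityMeasure (((stdGaussian E).prod (stdGaussian E)).map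
      (fun p : E × E => z • p.1 + s • p.2)) := Measure.isProbabilityMeasure_map hm.aemeasurable
  apply Measure.ext_of_charFun
  funext t
  rw [charFun_stdGaussian, charFun_apply, integral_map hm.aemeasurable (by fun_prop)]
  have h1 : ∀ p : E × E, Complex.exp ((⟪z • p.1 + s • p.2, t⟫ : ℝ) * Complex.I) =
      Complex.exp ((⟪p.1, z • t⟫ : ℝ) * Complex.I) *
        Complex.exp ((⟪p.2, s • t⟫ : ℝ) * Complex.I) := by
    intro p
    rw [← Complex.exp_add, inner_add_left, real_inner_smul_left, real_inner_smul_left,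
      real_inner_smul_right, real_inner_smul_right]
    congr 1
    push_cast
    ring
  simp_rw [h1]
  rw [integral_prod_mul (fun x : E => Complex.exp ((⟪x, z • t⟫ : ℝ) * Complex.I))
    (fun x : E => Complex.exp ((⟪x, s • t⟫ : ℝ) * Complex.I)), integral_cexp, integral_cexp,
    ← Complex.ofReal_mul, ← Real.exp_add, norm_smul, norm_smul, Real.norm_eq_abs,
    Real.norm_eq_abs, mul_pow, mul_pow, sq_abs, sq_abs]
  have h2 : -(z ^ 2 * ‖t‖ ^ 2) / 2 + -(s ^ 2 * ‖t‖ ^ 2) / 2 = -‖t‖ ^ 2 / 2 := by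
    have : z ^ 2 * ‖t‖ ^ 2 + s ^ 2 * ‖t‖ ^ 2 = ‖t‖ ^ 2 := by rw [← add_mul, h, one_mul]
    linarith
  rw [h2]
  push_cast
  rfl


/-- the kernel integrals. -/
lemma norm_kernel (u v : E) (z s : ℝ) (h : z ^ 2 + s ^ 2 = 1) :
    ‖u + z • v‖ ^ 2 + ‖s • v‖ ^ 2 = ‖u‖ ^ 2 + ‖v‖ ^ 2 + 2 * (z * ⟪u, v⟫) := by
  rw [norm_add_sq_real, real_inner_smul_right, norm_smul, norm_smul, Real.norm_eq_abs,
    Real.norm_eq_abs, mul_pow, mul_pow, sq_abs, sq_abs]
  have : z ^ 2 * ‖v‖ ^ 2 + s ^ 2 * ‖v‖ ^ 2 = ‖v‖ ^ 2 := by rw [← add_mul, h, one_mul]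
  linarith

lemma norm_kernel' (u v : E) (z s : ℝ) (h : z ^ 2 + s ^ 2 = 1) :
    ‖u - z • v‖ ^ 2 + ‖-(s • v)‖ ^ 2 = ‖u‖ ^ 2 + ‖v‖ ^ 2 - 2 * (z * ⟪u, v⟫) := by
  rw [norm_sub_sq_real, real_inner_smul_right, norm_neg, norm_smul, norm_smul, Real.norm_eq_abs,
    Real.norm_eq_abs, mul_pow, mul_pow, sq_abs, sq_abs]
  have : z ^ 2 * ‖v‖ ^ 2 + s ^ 2 * ‖v‖ ^ 2 = ‖v‖ ^ 2 := by rw [← add_mul, h, one_mul]
  linarith

lemma inner_rot (p : E × E) (v : E) (z s : ℝ) :
    ⟪z • p.1 + s • p.2, v⟫ = ⟪p.1, z • v⟫ + ⟪p.2, s • v⟫ := by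
  rw [inner_add_left, real_inner_smul_left, real_inner_smul_left,
      real_inner_smul_right, real_inner_smul_right]

lemma kern_cc (u v : E) (z s : ℝ) (h : z ^ 2 + s ^ 2 = 1) :
    ∫ p : E × E, Real.cos ⟪p.1, u⟫ * Real.cos ⟪z • p.1 + s • p.2, v⟫
      ∂((stdGaussian E).prod (stdGaussian E)) =
    Real.exp (-‖u‖ ^ 2 / 2) * Real.exp (-‖v‖ ^ 2 / 2) * Real.cosh (z * ⟪u, v⟫) := by
  have h1 : ∀ p : E × E, Real.cos ⟪p.1, u⟫ * Real.cos ⟪z • p.1 + s • p.2, v⟫ =
      (1 / 2) * (Real.cos (⟪p.1, u + z • v⟫ + ⟪p.2, s • v⟫) +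
        Real.cos (⟪p.1, u - z • v⟫ + ⟪p.2, -(s • v)⟫)) := by
    intro p
    rw [inner_rot p v, inner_add_right, inner_sub_right, inner_neg_right]
    rw [show ⟪p.1, u⟫ + ⟪p.1, z • v⟫ + ⟪p.2, s • v⟫ =
        ⟪p.1, u⟫ + (⟪p.1, z • v⟫ + ⟪p.2, s • v⟫) by ring,
      show ⟪p.1, u⟫ - ⟪p.1, z • v⟫ + -⟪p.2, s • v⟫ =
        ⟪p.1, u⟫ - (⟪p.1, z • v⟫ + ⟪p.2, s • v⟫) by ring,
      Real.cos_add ⟪p.1, u⟫, Real.cos_sub ⟪p.1, u⟫]
    ring
  simp_rw [h1]
  rw [integral_const_mul, integral_add (int_bdd _ (by fun_prop) 1 fun x => Real.abs_cos_le_one _)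
    (int_bdd _ (by fun_prop) 1 fun x => Real.abs_cos_le_one _), integral_cos2, integral_cos2,
    norm_kernel u v z s h, norm_kernel' u v z s h, Real.cosh_eq]
  rw [show -(‖u‖ ^ 2 + ‖v‖ ^ 2 + 2 * (z * ⟪u, v⟫)) / 2 =
      -‖u‖ ^ 2 / 2 + -‖v‖ ^ 2 / 2 + -(z * ⟪u, v⟫) by ring,
    show -(‖u‖ ^ 2 + ‖v‖ ^ 2 - 2 * (z * ⟪u, v⟫)) / 2 =
      -‖u‖ ^ 2 / 2 + -‖v‖ ^ 2 / 2 + (z * ⟪u, v⟫) by ring]
  simp only [Real.exp_add]
  ring

lemma kern_ss (u v : E) (z s : ℝ) (h : z ^ 2 + s ^ 2 = 1) :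
    ∫ p : E × E, Real.sin ⟪p.1, u⟫ * Real.sin ⟪z • p.1 + s • p.2, v⟫
      ∂((stdGaussian E).prod (stdGaussian E)) =
    Real.exp (-‖u‖ ^ 2 / 2) * Real.exp (-‖v‖ ^ 2 / 2) * Real.sinh (z * ⟪u, v⟫) := by
  have h1 : ∀ p : E × E, Real.sin ⟪p.1, u⟫ * Real.sin ⟪z • p.1 + s • p.2, v⟫ =
      (1 / 2) * (Real.cos (⟪p.1, u - z • v⟫ + ⟪p.2, -(s • v)⟫) -
        Real.cos (⟪p.1, u + z • v⟫ + ⟪p.2, s • v⟫)) := by
    intro p
    rw [inner_rot p v, inner_add_right, inner_sub_right, inner_neg_right]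
    rw [show ⟪p.1, u⟫ + ⟪p.1, z • v⟫ + ⟪p.2, s • v⟫ =
        ⟪p.1, u⟫ + (⟪p.1, z • v⟫ + ⟪p.2, s • v⟫) by ring,
      show ⟪p.1, u⟫ - ⟪p.1, z • v⟫ + -⟪p.2, s • v⟫ =
        ⟪p.1, u⟫ - (⟪p.1, z • v⟫ + ⟪p.2, s • v⟫) by ring,
      Real.cos_add ⟪p.1, u⟫, Real.cos_sub ⟪p.1, u⟫]
    ring
  simp_rw [h1]
  rw [integral_const_mul, integral_sub (int_bdd _ (by fun_prop) 1 fun x => Real.abs_cos_le_one _)
    (int_bdd _ (by fun_prop) 1 fun x => Real.abs_cos_le_one _), integral_cos2, integral_cos2,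
    norm_kernel u v z s h, norm_kernel' u v z s h, Real.sinh_eq]
  rw [show -(‖u‖ ^ 2 + ‖v‖ ^ 2 + 2 * (z * ⟪u, v⟫)) / 2 =
      -‖u‖ ^ 2 / 2 + -‖v‖ ^ 2 / 2 + -(z * ⟪u, v⟫) by ring,
    show -(‖u‖ ^ 2 + ‖v‖ ^ 2 - 2 * (z * ⟪u, v⟫)) / 2 =
      -‖u‖ ^ 2 / 2 + -‖v‖ ^ 2 / 2 + (z * ⟪u, v⟫) by ring]
  simp only [Real.exp_add]
  ring

lemma kern_cs (u v : E) (z s : ℝ) :
    ∫ p : E × E, Real.cos ⟪p.1, u⟫ * Real.sin ⟪z • p.1 + s • p.2, v⟫
      ∂((stdGaussian E).prod (stdGaussian E)) = 0 := by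
  have h1 : ∀ p : E × E, Real.cos ⟪p.1, u⟫ * Real.sin ⟪z • p.1 + s • p.2, v⟫ =
      (1 / 2) * (Real.sin (⟪p.1, u + z • v⟫ + ⟪p.2, s • v⟫) -
        Real.sin (⟪p.1, u - z • v⟫ + ⟪p.2, -(s • v)⟫)) := by
    intro p
    rw [inner_rot p v, inner_add_right, inner_sub_right, inner_neg_right]
    rw [show ⟪p.1, u⟫ + ⟪p.1, z • v⟫ + ⟪p.2, s • v⟫ =
        ⟪p.1, u⟫ + (⟪p.1, z • v⟫ + ⟪p.2, s • v⟫) by ring,
      show ⟪p.1, u⟫ - ⟪p.1, z • v⟫ + -⟪p.2, s • v⟫ =
        ⟪p.1, u⟫ - (⟪p.1, z • v⟫ + ⟪p.2, s • v⟫) by ring,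
      Real.sin_add ⟪p.1, u⟫, Real.sin_sub ⟪p.1, u⟫]
    ring
  simp_rw [h1]
  rw [integral_const_mul, integral_sub (int_bdd _ (by fun_prop) 1 fun x => Real.abs_sin_le_one _)
    (int_bdd _ (by fun_prop) 1 fun x => Real.abs_sin_le_one _), integral_sin2, integral_sin2]
  ring

lemma kern_sc (u v : E) (z s : ℝ) :
    ∫ p : E × E, Real.sin ⟪p.1, u⟫ * Real.cos ⟪z • p.1 + s • p.2, v⟫
      ∂((stdGaussian E).prod (stdGaussian E)) = 0 := by
  have h1 : ∀ p : E × E, Real.sin ⟪p.1, u⟫ * Real.cos ⟪z • p.1 + s • p.2, v⟫ =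
      (1 / 2) * (Real.sin (⟪p.1, u + z • v⟫ + ⟪p.2, s • v⟫) +
        Real.sin (⟪p.1, u - z • v⟫ + ⟪p.2, -(s • v)⟫)) := by
    intro p
    rw [inner_rot p v, inner_add_right, inner_sub_right, inner_neg_right]
    rw [show ⟪p.1, u⟫ + ⟪p.1, z • v⟫ + ⟪p.2, s • v⟫ =
        ⟪p.1, u⟫ + (⟪p.1, z • v⟫ + ⟪p.2, s • v⟫) by ring,
      show ⟪p.1, u⟫ - ⟪p.1, z • v⟫ + -⟪p.2, s • v⟫ =
        ⟪p.1, u⟫ - (⟪p.1, z • v⟫ + ⟪p.2, s • v⟫) by ring,
      Real.sin_add ⟪p.1, u⟫, Real.sin_sub ⟪p.1, u⟫]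
    ring
  simp_rw [h1]
  rw [integral_const_mul, integral_add (int_bdd _ (by fun_prop) 1 fun x => Real.abs_sin_le_one _)
    (int_bdd _ (by fun_prop) 1 fun x => Real.abs_sin_le_one _), integral_sin2, integral_sin2]
  ring

/-- the trigonometric family, indexed by `Bool × E` (`false` = cosine, `true` = sine). -/
noncomputable def trig (i : Bool × E) (x : E) : ℝ :=
  if i.1 then Real.sin ⟪x, i.2⟫ else Real.cos ⟪x, i.2⟫

lemma trig_meas (i : Bool × E) : Measurable (trig i) := by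
  rcases i with ⟨_ | _, u⟩
  · have : trig (false, u) = fun x : E => Real.cos ⟪x, u⟫ := by funext x; simp [trig]
    rw [this]; fun_prop
  · have : trig (true, u) = fun x : E => Real.sin ⟪x, u⟫ := by funext x; simp [trig]
    rw [this]; fun_prop

lemma trig_le (i : Bool × E) (x : E) : |trig i x| ≤ 1 := by
  rcases i with ⟨_ | _, u⟩
  · simp only [trig, Bool.false_eq_true, if_false]; exact Real.abs_cos_le_one _
  · simp only [trig, if_true]; exact Real.abs_sin_le_one _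

/-- the features. -/
noncomputable def feat {k : ℕ} (b : OrthonormalBasis (Fin k) ℝ E) (n : ℕ) (s : Fin n → Fin k)
    (i : Bool × E) : ℝ :=
  (if (i.1 = true ↔ Odd n) then Real.exp (-‖i.2‖ ^ 2 / 2) else 0) * ∏ l, ⟪i.2, b (s l)⟫

lemma feat_sum {k : ℕ} (b : OrthonormalBasis (Fin k) ℝ E) (n : ℕ) (i j : Bool × E) :
    ∑ s : Fin n → Fin k, feat b n s i * feat b n s j =
      (if (i.1 = true ↔ Odd n) then Real.exp (-‖i.2‖ ^ 2 / 2) else 0) *
      (if (j.1 = true ↔ Odd n) then Real.exp (-‖j.2‖ ^ 2 / 2) else 0) * ⟪i.2, j.2⟫ ^ n := by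
  have h1 : ⟪i.2, j.2⟫ ^ n = ∑ s : Fin n → Fin k, ∏ l, ⟪i.2, b (s l)⟫ * ⟪j.2, b (s l)⟫ := by
    have h2 : ⟪i.2, j.2⟫ = ∑ a, ⟪i.2, b a⟫ * ⟪j.2, b a⟫ := by
      rw [← b.sum_inner_mul_inner i.2 j.2]
      refine Finset.sum_congr rfl fun a _ => ?_
      rw [real_inner_comm (b a) j.2]
    rw [h2, Fintype.sum_pow]
  rw [h1, Finset.mul_sum]
  refine Finset.sum_congr rfl fun s _ => ?_
  rw [feat, feat, Finset.prod_mul_distrib]
  ring

lemma hs_congr {f g : ℕ → ℝ} {a : ℝ} (h : HasSum f a) (e : ∀ n, g n = f n) : HasSum g a := by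
  have : g = f := funext e
  rw [this]; exact h

lemma hasSum_cosh (x : ℝ) :
    HasSum (fun n : ℕ => (n.factorial : ℝ)⁻¹ * (if Odd n then 0 else x ^ n)) (Real.cosh x) := by
  have h1 := NormedSpace.expSeries_div_hasSum_exp (𝔸 := ℝ) x
  have h2 := NormedSpace.expSeries_div_hasSum_exp (𝔸 := ℝ) (-x)
  rw [← Real.exp_eq_exp_ℝ] at h1 h2
  have h3 := (h1.add h2).div_const 2
  rw [← Real.cosh_eq] at h3
  refine hs_congr h3 fun n => ?_
  by_cases hn : Odd n
  · rw [if_pos hn, hn.neg_pow]; ring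
  · rw [if_neg hn, (Nat.not_odd_iff_even.1 hn).neg_pow]; ring

lemma hasSum_sinh (x : ℝ) :
    HasSum (fun n : ℕ => (n.factorial : ℝ)⁻¹ * (if Odd n then x ^ n else 0)) (Real.sinh x) := by
  have h1 := NormedSpace.expSeries_div_hasSum_exp (𝔸 := ℝ) x
  have h2 := NormedSpace.expSeries_div_hasSum_exp (𝔸 := ℝ) (-x)
  rw [← Real.exp_eq_exp_ℝ] at h1 h2
  have h3 := (h1.sub h2).div_const 2
  rw [← Real.sinh_eq] at h3
  refine hs_congr h3 fun n => ?_
  by_cases hn : Odd n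
  · rw [if_pos hn, hn.neg_pow]; ring
  · rw [if_neg hn, (Nat.not_odd_iff_even.1 hn).neg_pow]; ring

/-- `B_z` on the trigonometric family. -/
lemma hasSum_kern {k : ℕ} (b : OrthonormalBasis (Fin k) ℝ E) (i j : Bool × E) (z s : ℝ)
    (h : z ^ 2 + s ^ 2 = 1) :
    HasSum (fun n : ℕ => z ^ n * ((n.factorial : ℝ)⁻¹ *
        ∑ t : Fin n → Fin k, feat b n t i * feat b n t j))
      (∫ p : E × E, trig i p.1 * trig j (z • p.1 + s • p.2)
        ∂((stdGaussian E).prod (stdGaussian E))) := by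
  simp_rw [feat_sum]
  rcases i with ⟨_ | _, u⟩ <;> rcases j with ⟨_ | _, v⟩
  · simp only [trig, Bool.false_eq_true, if_false]
    rw [kern_cc u v z s h]
    have := (hasSum_cosh (z * ⟪u, v⟫)).mul_left (Real.exp (-‖u‖ ^ 2 / 2) * Real.exp (-‖v‖ ^ 2 / 2))
    refine hs_congr this fun n => ?_
    by_cases hn : Odd n
    · simp [hn]
    · simp only [hn, if_true, if_false, mul_pow]; ring
  · simp only [trig, Bool.false_eq_true, if_false, if_true]
    rw [kern_cs]
    refine hs_congr hasSum_zero fun n => ?_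
    by_cases hn : Odd n <;> simp [hn]
  · simp only [trig, Bool.false_eq_true, if_false, if_true]
    rw [kern_sc]
    refine hs_congr hasSum_zero fun n => ?_
    by_cases hn : Odd n <;> simp [hn]
  · simp only [trig, if_true]
    rw [kern_ss u v z s h]
    have := (hasSum_sinh (z * ⟪u, v⟫)).mul_left (Real.exp (-‖u‖ ^ 2 / 2) * Real.exp (-‖v‖ ^ 2 / 2))
    refine hs_congr this fun n => ?_
    by_cases hn : Odd n
    · simp only [hn, if_true, if_false, mul_pow]; ring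
    · simp [hn]

/-- the first order coefficient on the trigonometric family. -/
lemma first_kern {k : ℕ} (b : OrthonormalBasis (Fin k) ℝ E) (i j : Bool × E) :
    ∑ l, (∫ x, trig i x * ⟪x, b l⟫ ∂(stdGaussian E)) *
      (∫ x, trig j x * ⟪x, b l⟫ ∂(stdGaussian E)) =
    (((1 : ℕ).factorial : ℝ)⁻¹ * ∑ t : Fin 1 → Fin k, feat b 1 t i * feat b 1 t j) := by
  rw [feat_sum]
  rcases i with ⟨_ | _, u⟩ <;> rcases j with ⟨_ | _, v⟩
  · simp [trig, integral_cos_mul]
  · simp [trig, integral_cos_mul]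
  · simp [trig, integral_cos_mul]
  · simp only [trig, if_true, integral_sin_mul, odd_one, Nat.factorial_one, Nat.cast_one, inv_one,
      one_mul, pow_one]
    rw [← b.sum_inner_mul_inner u v, Finset.mul_sum]
    refine Finset.sum_congr rfl fun a _ => ?_
    rw [real_inner_comm (b a) v]
    ring

end gauss

section abstract

variable {H : Type*} [NormedAddCommGroup H] [InnerProductSpace ℝ H]

lemma bilin_expand {I : Type*} (R : H →ₗ[ℝ] H →ₗ[ℝ] ℝ) (τ : I → H) (c d : I →₀ ℝ) :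
    R (Finsupp.linearCombination ℝ τ c) (Finsupp.linearCombination ℝ τ d) =
      ∑ i ∈ c.support, ∑ j ∈ d.support, c i * (d j * R (τ i) (τ j)) := by
  rw [Finsupp.linearCombination_apply, Finsupp.linearCombination_apply, Finsupp.sum, Finsupp.sum,
    map_sum R, LinearMap.sum_apply]
  refine Finset.sum_congr rfl fun i _ => ?_
  rw [map_smul, LinearMap.smul_apply, map_sum, smul_eq_mul, Finset.mul_sum]
  refine Finset.sum_congr rfl fun j _ => ?_
  rw [map_smul, smul_eq_mul]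

lemma hasSum_expand {I : Type*} (S : ℕ → Type*) [∀ n, Fintype (S n)] (X : ∀ n, S n → I → ℝ)
    (r : ℕ → ℝ) (τ : I → H) (R : H →ₗ[ℝ] H →ₗ[ℝ] ℝ)
    (h : ∀ i j, HasSum (fun n => r n * ∑ s, X n s i * X n s j) (R (τ i) (τ j))) (c d : I →₀ ℝ) :
    HasSum (fun n => r n * ∑ s, (∑ i ∈ c.support, c i * X n s i) *
        (∑ j ∈ d.support, d j * X n s j))
      (R (Finsupp.linearCombination ℝ τ c) (Finsupp.linearCombination ℝ τ d)) := by
  rw [bilin_expand]
  have h1 : HasSum (fun n => ∑ i ∈ c.support, ∑ j ∈ d.support, c i * (d j *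
      (r n * ∑ s, X n s i * X n s j)))
      (∑ i ∈ c.support, ∑ j ∈ d.support, c i * (d j * R (τ i) (τ j))) :=
    hasSum_sum fun i _ => hasSum_sum fun j _ => ((h i j).mul_left _).mul_left _
  refine hs_congr h1 fun n => ?_
  simp_rw [Finset.sum_mul_sum, Finset.mul_sum]
  rw [Finset.sum_comm]
  refine Finset.sum_congr rfl fun i _ => ?_
  rw [Finset.sum_comm]
  refine Finset.sum_congr rfl fun j _ => ?_
  refine Finset.sum_congr rfl fun s _ => ?_
  ring

/-- the abstract comparison lemma. -/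
lemma abstract_cmp {I : Type*} (S : ℕ → Type*) [∀ n, Fintype (S n)] (X : ∀ n, S n → I → ℝ)
    (w r : ℕ → ℝ) (τ : I → H) (R : H →ₗ[ℝ] H →ₗ[ℝ] ℝ) (M : ℝ)
    (hw : ∀ n, 0 ≤ w n) (hM : ∀ n, |r n| ≤ M)
    (h0 : ∀ i j, HasSum (fun n => w n * ∑ s, X n s i * X n s j) ⟪τ i, τ j⟫)
    (h : ∀ i j, HasSum (fun n => r n * (w n * ∑ s, X n s i * X n s j)) (R (τ i) (τ j)))
    (c d : I →₀ ℝ) :
    |R (Finsupp.linearCombination ℝ τ c) (Finsupp.linearCombination ℝ τ d)| ≤
      M / 2 * (‖Finsupp.linearCombination ℝ τ c‖ ^ 2 +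
        ‖Finsupp.linearCombination ℝ τ d‖ ^ 2) := by
  have e1 := hasSum_expand S X w τ (innerₗ H) h0 c c
  have e2 := hasSum_expand S X w τ (innerₗ H) h0 d d
  have e3 := hasSum_expand S X (fun n => r n * w n) τ R (by simpa [mul_assoc] using h) c d
  rw [innerₗ_apply_apply, real_inner_self_eq_norm_sq] at e1 e2
  have e4 := (e1.add e2).mul_left (M / 2)
  have key : ∀ n, |r n * w n * ∑ s, (∑ i ∈ c.support, c i * X n s i) *
        (∑ j ∈ d.support, d j * X n s j)| ≤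
      M / 2 * (w n * ∑ s, (∑ i ∈ c.support, c i * X n s i) * (∑ i ∈ c.support, c i * X n s i) +
        w n * ∑ s, (∑ i ∈ d.support, d i * X n s i) * (∑ i ∈ d.support, d i * X n s i)) := by
    intro n
    have k1 : |∑ s, (∑ i ∈ c.support, c i * X n s i) * (∑ j ∈ d.support, d j * X n s j)| ≤
        (1 / 2) * (∑ s, (∑ i ∈ c.support, c i * X n s i) * (∑ i ∈ c.support, c i * X n s i) +
        ∑ s, (∑ i ∈ d.support, d i * X n s i) * (∑ i ∈ d.support, d i * X n s i)) := by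
      refine (Finset.abs_sum_le_sum_abs _ _).trans ?_
      rw [← Finset.sum_add_distrib, Finset.mul_sum]
      refine Finset.sum_le_sum fun s _ => ?_
      rw [abs_le]
      constructor <;>
      nlinarith [sq_nonneg ((∑ i ∈ c.support, c i * X n s i) + (∑ j ∈ d.support, d j * X n s j)),
        sq_nonneg ((∑ i ∈ c.support, c i * X n s i) - (∑ j ∈ d.support, d j * X n s j))]
    have hM0 : 0 ≤ M := (abs_nonneg _).trans (hM n)
    rw [abs_mul, abs_mul, abs_of_nonneg (hw n)]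
    calc |r n| * w n * |∑ s, (∑ i ∈ c.support, c i * X n s i) * (∑ j ∈ d.support, d j * X n s j)|
        ≤ M * w n * ((1 / 2) * (∑ s, (∑ i ∈ c.support, c i * X n s i) *
          (∑ i ∈ c.support, c i * X n s i) +
        ∑ s, (∑ i ∈ d.support, d i * X n s i) * (∑ i ∈ d.support, d i * X n s i))) := by
          apply mul_le_mul (mul_le_mul_of_nonneg_right (hM n) (hw n)) k1 (abs_nonneg _)
            (mul_nonneg hM0 (hw n))
      _ = _ := by ring
  rw [abs_le]
  constructor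
  · have e5 := e3.neg
    have := hasSum_le (fun n => (neg_le_abs _).trans (key n)) e5 e4
    linarith
  · exact hasSum_le (fun n => (le_abs_self _).trans (key n)) e3 e4

/-- extension by density. -/
lemma abstract_ext {I : Type*} (τ : I → H) (R : H →ₗ[ℝ] H →ₗ[ℝ] ℝ) (M : ℝ)
    (hR : Continuous fun q : H × H => R q.1 q.2)
    (hd : DenseRange (Finsupp.linearCombination ℝ τ))
    (h : ∀ c d : I →₀ ℝ, |R (Finsupp.linearCombination ℝ τ c) (Finsupp.linearCombination ℝ τ d)| ≤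
      M / 2 * (‖Finsupp.linearCombination ℝ τ c‖ ^ 2 +
        ‖Finsupp.linearCombination ℝ τ d‖ ^ 2)) (x y : H) :
    |R x y| ≤ M / 2 * (‖x‖ ^ 2 + ‖y‖ ^ 2) := by
  refine hd.induction_on₂ (p := fun x y => |R x y| ≤ M / 2 * (‖x‖ ^ 2 + ‖y‖ ^ 2)) ?_ h x y
  exact isClosed_le (by fun_prop) (by fun_prop)

lemma abstract_hom (R : H →ₗ[ℝ] H →ₗ[ℝ] ℝ) (M : ℝ)
    (h : ∀ x y : H, |R x y| ≤ M / 2 * (‖x‖ ^ 2 + ‖y‖ ^ 2)) (x y : H) :
    |R x y| ≤ M * (‖x‖ * ‖y‖) := by
  by_cases hx : x = 0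
  · simp [hx]
  by_cases hy : y = 0
  · simp [hy]
  have hx' : 0 < ‖x‖ := norm_pos_iff.2 hx
  have hy' : 0 < ‖y‖ := norm_pos_iff.2 hy
  have h1 := h (‖x‖⁻¹ • x) (‖y‖⁻¹ • y)
  have h2 : ‖‖x‖⁻¹ • x‖ = 1 := by
    rw [norm_smul, norm_inv, norm_norm]; exact inv_mul_cancel₀ hx'.ne'
  have h3 : ‖‖y‖⁻¹ • y‖ = 1 := by
    rw [norm_smul, norm_inv, norm_norm]; exact inv_mul_cancel₀ hy'.ne'
  rw [h2, h3, map_smul (R (‖x‖⁻¹ • x)), map_smul R, LinearMap.smul_apply, smul_eq_mul,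
    smul_eq_mul, abs_mul, abs_mul, abs_of_pos (inv_pos.2 hx'), abs_of_pos (inv_pos.2 hy')] at h1
  have h4 : |R x y| = (‖y‖⁻¹ * (‖x‖⁻¹ * |R x y|)) * (‖x‖ * ‖y‖) := by
    field_simp
  rw [h4]
  refine mul_le_mul_of_nonneg_right ?_ (by positivity)
  linarith

end abstract

section vander

/-- interpolation coefficients. -/
lemma exists_coef (N : ℕ) (hN : 1 ≤ N) : ∃ c : Fin (N + 1) → ℝ,
    ∀ n ≤ N, ∑ i, c i * ((i : ℝ) / N) ^ n = if n = 1 then 1 else 0 := by
  have hN' : (N : ℝ) ≠ 0 := by positivity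
  set v : Fin (N + 1) → ℝ := fun i => (i : ℝ) / N with hv
  have hinj : Function.Injective v := by
    intro i j hij
    simp only [hv] at hij
    have : (i : ℝ) = j := by
      field_simp at hij
      exact hij
    exact Fin.ext (by exact_mod_cast this)
  have hdet : IsUnit (Matrix.vandermonde v).det :=
    isUnit_iff_ne_zero.2 (Matrix.det_vandermonde_ne_zero_iff.2 hinj)
  refine ⟨Matrix.vecMul (fun n : Fin (N + 1) => if (n : ℕ) = 1 then 1 else 0)
    (Matrix.vandermonde v)⁻¹, fun n hn => ?_⟩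
  have h1 : Matrix.vecMul (Matrix.vecMul (fun n : Fin (N + 1) => if (n : ℕ) = 1 then (1:ℝ) else 0)
    (Matrix.vandermonde v)⁻¹) (Matrix.vandermonde v) =
      (fun n : Fin (N + 1) => if (n : ℕ) = 1 then 1 else 0) := by
    rw [Matrix.vecMul_vecMul, Matrix.nonsing_inv_mul _ hdet, Matrix.vecMul_one]
  have h2 := congrFun h1 ⟨n, by omega⟩
  simp only [Matrix.vecMul, dotProduct, Matrix.vandermonde_apply] at h2
  simp only [Matrix.vecMul, dotProduct]
  exact h2

end vander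

section L2

lemma inner_toLp' {α : Type*} [MeasurableSpace α] {μ : Measure α} {f g : α → ℝ}
    (hf : MemLp f 2 μ) (hg : MemLp g 2 μ) :
    ⟪hf.toLp f, hg.toLp g⟫ = ∫ x, f x * g x ∂μ := by
  rw [MeasureTheory.L2.inner_def]
  refine integral_congr_ae ?_
  filter_upwards [hf.coeFn_toLp, hg.coeFn_toLp] with x h1 h2
  rw [h1, h2]
  simp [mul_comm]

variable {E : Type} [NormedAddCommGroup E] [InnerProductSpace ℝ E] [FiniteDimensional ℝ E]
  [MeasurableSpace E] [BorelSpace E]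

lemma trig_memLp (i : Bool × E) : MemLp (trig i) 2 (stdGaussian E) :=
  MemLp.of_bound (trig_meas i).aestronglyMeasurable 1
    (Filter.Eventually.of_forall fun x => by rw [Real.norm_eq_abs]; exact trig_le i x)

lemma memLp_inner (b : E) : MemLp (fun x : E => ⟪x, b⟫) 2 (stdGaussian E) := by
  have h : MemLp (fun x : E => (innerSL ℝ b) (id x)) 2 (stdGaussian E) :=
    (innerSL ℝ b).comp_memLp' (IsGaussian.memLp_two_id)
  have e : (fun x : E => (innerSL ℝ b) (id x)) = fun x : E => ⟪x, b⟫ := by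
    funext x; simp [real_inner_comm]
  rw [e] at h
  exact h

/-- the trigonometric family in `L²`. -/
noncomputable def tau (i : Bool × E) : Lp ℝ 2 (stdGaussian E) := (trig_memLp i).toLp _

lemma trig_total (h : Lp ℝ 2 (stdGaussian E)) (hh : ∀ i, ⟪tau i, h⟫ = 0) : h = 0 := by
  have hf : MemLp (h : E → ℝ) 2 (stdGaussian E) := Lp.memLp h
  have hint : Integrable (h : E → ℝ) (stdGaussian E) := hf.integrable one_le_two
  have h0 : ∀ i : Bool × E, ∫ x, trig i x * h x ∂(stdGaussian E) = 0 := by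
    intro i
    rw [← hh i, MeasureTheory.L2.inner_def]
    refine integral_congr_ae ?_
    filter_upwards [(trig_memLp i).coeFn_toLp] with x h1
    rw [tau, h1]
    simp [mul_comm]
  have hc : ∀ t : E, ∫ x, Real.cos ⟪x, t⟫ * h x ∂(stdGaussian E) = 0 := by
    intro t
    simpa [trig] using h0 (false, t)
  have hs : ∀ t : E, ∫ x, Real.sin ⟪x, t⟫ * h x ∂(stdGaussian E) = 0 := by
    intro t
    simpa [trig] using h0 (true, t)
  have fin1 : IsFiniteMeasure ((stdGaussian E).withDensity fun x => ENNReal.ofReal (h x)) :=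
    isFiniteMeasure_withDensity_ofReal hint.2
  have fin2 : IsFiniteMeasure ((stdGaussian E).withDensity fun x => ENNReal.ofReal (-h x)) :=
    isFiniteMeasure_withDensity_ofReal hint.neg.2
  have hme : ∀ t : E, Continuous fun x : E => Complex.exp ((⟪x, t⟫ : ℝ) * Complex.I) := by
    intro t; fun_prop
  have key : ((stdGaussian E).withDensity fun x => ENNReal.ofReal (h x)) =
      ((stdGaussian E).withDensity fun x => ENNReal.ofReal (-h x)) := by
    apply Measure.ext_of_charFun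
    funext t
    rw [charFun_apply, charFun_apply]
    rw [integral_withDensity_eq_integral_toReal_smul₀ (by
        exact hint.1.aemeasurable.ennreal_ofReal) (by simp),
      integral_withDensity_eq_integral_toReal_smul₀ (by
        exact hint.1.aemeasurable.neg.ennreal_ofReal) (by simp)]
    rw [← sub_eq_zero, ← integral_sub]
    · have e1 : ∀ x : E, (ENNReal.ofReal (h x)).toReal • Complex.exp ((⟪x, t⟫ : ℝ) * Complex.I) -
          (ENNReal.ofReal (-h x)).toReal • Complex.exp ((⟪x, t⟫ : ℝ) * Complex.I) =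
          ((h x : ℝ) : ℂ) * Complex.exp ((⟪x, t⟫ : ℝ) * Complex.I) := by
        intro x
        rw [← sub_smul, Complex.real_smul]
        congr 1
        rcases le_total 0 (h x) with h1 | h1
        · rw [ENNReal.toReal_ofReal h1, ENNReal.ofReal_of_nonpos (by linarith)]; simp
        · rw [ENNReal.toReal_ofReal (by linarith : (0:ℝ) ≤ -h x), ENNReal.ofReal_of_nonpos h1]
          simp
      simp_rw [e1]
      have hI : Integrable (fun x : E => ((h x : ℝ) : ℂ) *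
          Complex.exp ((⟪x, t⟫ : ℝ) * Complex.I)) (stdGaussian E) := by
        refine (hint.ofReal (𝕜 := ℂ)).mul_bdd (c := 1) (hme t).aestronglyMeasurable
          (Filter.Eventually.of_forall fun x => ?_)
        rw [Complex.norm_exp_ofReal_mul_I]
      apply Complex.ext
      · rw [Complex.zero_re, ← RCLike.re_eq_complex_re, ← integral_re hI, ← hc t]
        refine integral_congr_ae (Filter.Eventually.of_forall fun x => ?_)
        simp only [RCLike.re_eq_complex_re]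
        rw [Complex.re_ofReal_mul, Complex.exp_ofReal_mul_I_re]
        ring
      · rw [Complex.zero_im, ← RCLike.im_eq_complex_im, ← integral_im hI, ← hs t]
        refine integral_congr_ae (Filter.Eventually.of_forall fun x => ?_)
        simp only [RCLike.im_eq_complex_im]
        rw [Complex.im_ofReal_mul, Complex.exp_ofReal_mul_I_im]
        ring
    · have h1 : Integrable (fun x => (ENNReal.ofReal (h x)).toReal) (stdGaussian E) := by
        refine hint.pos_part.congr (Filter.Eventually.of_forall fun x => ?_)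
        simp [ENNReal.toReal_ofReal']
      refine h1.smul_bdd 1 (hme t).aestronglyMeasurable
          (Filter.Eventually.of_forall fun x => ?_)
      rw [Complex.norm_exp_ofReal_mul_I]
    · have h1 : Integrable (fun x => (ENNReal.ofReal (-h x)).toReal) (stdGaussian E) := by
        refine hint.neg.pos_part.congr (Filter.Eventually.of_forall fun x => ?_)
        simp [ENNReal.toReal_ofReal']
      refine h1.smul_bdd 1 (hme t).aestronglyMeasurable
          (Filter.Eventually.of_forall fun x => ?_)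
      rw [Complex.norm_exp_ofReal_mul_I]
  replace key := (withDensity_eq_iff hint.1.aemeasurable.ennreal_ofReal
    hint.1.aemeasurable.neg.ennreal_ofReal (by
      have := hint.lintegral_lt_top
      exact this.ne)).1 key
  rw [Lp.eq_zero_iff_ae_eq_zero]
  filter_upwards [key] with x hx
  simp only [Pi.zero_apply]
  rw [Pi.neg_apply] at hx
  rcases lt_trichotomy (h x) 0 with h1 | h1 | h1
  · rw [ENNReal.ofReal_of_nonpos h1.le] at hx
    have : 0 < ENNReal.ofReal (-h x) := ENNReal.ofReal_pos.2 (by linarith)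
    exact absurd hx this.ne
  · exact h1
  · have h2 : ENNReal.ofReal (-h x) = 0 := ENNReal.ofReal_of_nonpos (by linarith)
    rw [h2] at hx
    have : 0 < ENNReal.ofReal (h x) := ENNReal.ofReal_pos.2 h1
    exact absurd hx this.ne'

lemma trig_dense : DenseRange (Finsupp.linearCombination ℝ (tau (E := E))) := by
  have h1 : (LinearMap.range (Finsupp.linearCombination ℝ (tau (E := E))))ᗮ = ⊥ := by
    rw [Submodule.eq_bot_iff]
    intro h hh
    apply trig_total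
    intro i
    rw [Submodule.mem_orthogonal] at hh
    exact hh _ ⟨Finsupp.single i 1, by simp⟩
  have h2 := (Submodule.topologicalClosure_eq_top_iff).2 h1
  rw [DenseRange, ← LinearMap.coe_range]
  exact Submodule.dense_iff_topologicalClosure_eq_top.2 h2

/-- the form `B_z`. -/
noncomputable def Bz (z s : ℝ) (h : z ^ 2 + s ^ 2 = 1) :
    Lp ℝ 2 (stdGaussian E) →ₗ[ℝ] Lp ℝ 2 (stdGaussian E) →ₗ[ℝ] ℝ :=
  LinearMap.mk₂ ℝ (fun x y =>
    ⟪Lp.compMeasurePreservingₗᵢ ℝ (fun p : E × E => p.1)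
      (measurePreserving_fst (μ := stdGaussian E) (ν := stdGaussian E)) x,
      Lp.compMeasurePreservingₗᵢ ℝ (fun p : E × E => z • p.1 + s • p.2) (mp_rot z s h) y⟫)
    (fun x y z => by rw [map_add, inner_add_left])
    (fun c x y => by rw [map_smul, real_inner_smul_left]; rfl)
    (fun x y z => by rw [map_add, inner_add_right])
    (fun c x y => by rw [map_smul, real_inner_smul_right]; rfl)

lemma Bz_toLp (z s : ℝ) (h : z ^ 2 + s ^ 2 = 1) {f g : E → ℝ} (hf : MemLp f 2 (stdGaussian E))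
    (hg : MemLp g 2 (stdGaussian E)) :
    Bz z s h (hf.toLp f) (hg.toLp g) = ∫ p : E × E, f p.1 * g (z • p.1 + s • p.2)
        ∂((stdGaussian E).prod (stdGaussian E)) := by
  rw [Bz, LinearMap.mk₂_apply]
  have h1 : Lp.compMeasurePreservingₗᵢ ℝ (fun p : E × E => p.1)
      (measurePreserving_fst (μ := stdGaussian E) (ν := stdGaussian E)) (hf.toLp f) =
      (hf.comp_measurePreserving
        (measurePreserving_fst (μ := stdGaussian E) (ν := stdGaussian E))).toLp _ := rfl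
  have h2 : Lp.compMeasurePreservingₗᵢ ℝ (fun p : E × E => z • p.1 + s • p.2) (mp_rot z s h)
      (hg.toLp g) = (hg.comp_measurePreserving (mp_rot z s h)).toLp _ := rfl
  rw [h1, h2, inner_toLp']
  rfl

lemma Bz_cont (z s : ℝ) (h : z ^ 2 + s ^ 2 = 1) :
    Continuous fun q : Lp ℝ 2 (stdGaussian E) × Lp ℝ 2 (stdGaussian E) =>
      Bz z s h q.1 q.2 := by
  simp only [Bz, LinearMap.mk₂_apply]
  exact ((LinearIsometry.continuous _).comp continuous_fst).inner
    ((LinearIsometry.continuous _).comp continuous_snd)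

/-- the form `a₁`. -/
noncomputable def A1 {k : ℕ} (b : OrthonormalBasis (Fin k) ℝ E) :
    Lp ℝ 2 (stdGaussian E) →ₗ[ℝ] Lp ℝ 2 (stdGaussian E) →ₗ[ℝ] ℝ :=
  LinearMap.mk₂ ℝ (fun x y => ∑ l, ⟪x, (memLp_inner (b l)).toLp _⟫ *
      ⟪y, (memLp_inner (b l)).toLp _⟫)
    (fun x y z => by simp only [inner_add_left, add_mul, Finset.sum_add_distrib])
    (fun c x y => by
      simp only [real_inner_smul_left, smul_eq_mul, Finset.mul_sum]
      exact Finset.sum_congr rfl fun l _ => by ring)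
    (fun x y z => by simp only [inner_add_left, mul_add, Finset.sum_add_distrib])
    (fun c x y => by
      simp only [real_inner_smul_left, smul_eq_mul, Finset.mul_sum]
      exact Finset.sum_congr rfl fun l _ => by ring)

lemma A1_toLp {k : ℕ} (b : OrthonormalBasis (Fin k) ℝ E) {f g : E → ℝ}
    (hf : MemLp f 2 (stdGaussian E)) (hg : MemLp g 2 (stdGaussian E)) :
    A1 b (hf.toLp f) (hg.toLp g) = ∑ l, (∫ x, f x * ⟪x, b l⟫ ∂(stdGaussian E)) *
      (∫ x, g x * ⟪x, b l⟫ ∂(stdGaussian E)) := by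
  rw [A1, LinearMap.mk₂_apply]
  simp_rw [inner_toLp']

lemma A1_cont {k : ℕ} (b : OrthonormalBasis (Fin k) ℝ E) :
    Continuous fun q : Lp ℝ 2 (stdGaussian E) × Lp ℝ 2 (stdGaussian E) => A1 b q.1 q.2 := by
  simp only [A1, LinearMap.mk₂_apply]
  fun_prop

end L2

section assembly

variable {E : Type} [NormedAddCommGroup E] [InnerProductSpace ℝ E] [FiniteDimensional ℝ E]
  [MeasurableSpace E] [BorelSpace E]

lemma hasSum_tau {k : ℕ} (b : OrthonormalBasis (Fin k) ℝ E) (i j : Bool × E) :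
    HasSum (fun n : ℕ => (n.factorial : ℝ)⁻¹ *
        ∑ t : Fin n → Fin k, feat b n t i * feat b n t j) ⟪tau i, tau j⟫ := by
  have h := hasSum_kern b i j 1 0 (by norm_num)
  have e : ∫ p : E × E, trig i p.1 * trig j ((1:ℝ) • p.1 + (0:ℝ) • p.2)
        ∂((stdGaussian E).prod (stdGaussian E)) = ⟪tau i, tau j⟫ := by
    rw [tau, tau, inner_toLp']
    simp only [one_smul, zero_smul, add_zero]
    rw [integral_fun_fst (fun x : E => trig i x * trig j x)]
    simp
  rw [e] at h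
  refine hs_congr h fun n => ?_
  simp

/-- the remainder form. -/
noncomputable def Rf {k : ℕ} (b : OrthonormalBasis (Fin k) ℝ E) (β : ℝ) {m : ℕ}
    (c z s : Fin m → ℝ) (h : ∀ l, z l ^ 2 + s l ^ 2 = 1) :
    Lp ℝ 2 (stdGaussian E) →ₗ[ℝ] Lp ℝ 2 (stdGaussian E) →ₗ[ℝ] ℝ :=
  A1 b - β⁻¹ • ∑ l, c l • Bz (z l) (s l) (h l)

lemma Rf_apply {k : ℕ} (b : OrthonormalBasis (Fin k) ℝ E) (β : ℝ) {m : ℕ}
    (c z s : Fin m → ℝ) (h : ∀ l, z l ^ 2 + s l ^ 2 = 1) (x y : Lp ℝ 2 (stdGaussian E)) :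
    Rf b β c z s h x y = A1 b x y - β⁻¹ * ∑ l, c l * Bz (z l) (s l) (h l) x y := by
  simp only [Rf, LinearMap.sub_apply, LinearMap.smul_apply, LinearMap.sum_apply, smul_eq_mul]

lemma Rf_bound {k : ℕ} (b : OrthonormalBasis (Fin k) ℝ E) (β : ℝ) {m : ℕ}
    (c z s : Fin m → ℝ) (h : ∀ l, z l ^ 2 + s l ^ 2 = 1) (M : ℝ)
    (hM : ∀ n : ℕ, |(if n = 1 then (1:ℝ) else 0) - β⁻¹ * ∑ l, c l * z l ^ n| ≤ M)
    (x y : Lp ℝ 2 (stdGaussian E)) :
    |Rf b β c z s h x y| ≤ M * (‖x‖ * ‖y‖) := by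
  apply abstract_hom
  apply abstract_ext (tau (E := E))
  · have : (fun q : Lp ℝ 2 (stdGaussian E) × Lp ℝ 2 (stdGaussian E) =>
        Rf b β c z s h q.1 q.2) = fun q => A1 b q.1 q.2 -
          β⁻¹ * ∑ l, c l * Bz (z l) (s l) (h l) q.1 q.2 := by
      funext q; exact Rf_apply b β c z s h q.1 q.2
    rw [this]
    exact (A1_cont b).sub (continuous_const.mul (continuous_finsetSum _ fun l _ =>
      continuous_const.mul (Bz_cont _ _ _)))
  · exact trig_dense
  · refine abstract_cmp (fun n => Fin n → Fin k) (fun n t i => feat b n t i)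
      (fun n => (n.factorial : ℝ)⁻¹) _ tau _ M (fun n => by positivity) hM
      (fun i j => hasSum_tau b i j) (fun i j => ?_)
    rw [Rf_apply]
    have h1 : A1 b (tau i) (tau j) = (((1 : ℕ).factorial : ℝ)⁻¹ *
        ∑ t : Fin 1 → Fin k, feat b 1 t i * feat b 1 t j) := by
      rw [tau, tau, A1_toLp, first_kern]
    have h2 : HasSum (fun n : ℕ => if n = 1 then (((1 : ℕ).factorial : ℝ)⁻¹ *
        ∑ t : Fin 1 → Fin k, feat b 1 t i * feat b 1 t j) else 0) (A1 b (tau i) (tau j)) := by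
      rw [h1]; exact hasSum_ite_eq 1 _
    have h3 : HasSum (fun n : ℕ => β⁻¹ * ∑ l, c l * (z l ^ n * ((n.factorial : ℝ)⁻¹ *
        ∑ t : Fin n → Fin k, feat b n t i * feat b n t j)))
        (β⁻¹ * ∑ l, c l * Bz (z l) (s l) (h l) (tau i) (tau j)) := by
      refine HasSum.mul_left _ (hasSum_sum fun l _ => HasSum.mul_left _ ?_)
      rw [tau, tau, Bz_toLp]
      exact hasSum_kern b i j (z l) (s l) (h l)
    refine hs_congr (h2.sub h3) fun n => ?_
    rw [sub_mul]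
    congr 1
    · by_cases hn : n = 1
      · subst hn; simp
      · simp [hn]
    · rw [mul_assoc, Finset.sum_mul]
      simp_rw [mul_assoc]

lemma coord_memLp {F : E → E} (hF : Measurable F)
    (hF2 : Integrable (fun x => ‖F x‖ ^ 2) (stdGaussian E)) (v : E) :
    MemLp (fun x => ⟪F x, v⟫) 2 (stdGaussian E) := by
  have h1 : MemLp F 2 (stdGaussian E) :=
    (memLp_two_iff_integrable_sq_norm hF.aestronglyMeasurable).2 hF2
  have h : MemLp (fun x : E => (innerSL ℝ v) (F x)) 2 (stdGaussian E) :=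
    (innerSL ℝ v).comp_memLp' h1
  have e : (fun x : E => (innerSL ℝ v) (F x)) = fun x : E => ⟪F x, v⟫ := by
    funext x; simp [real_inner_comm]
  rw [e] at h
  exact h

lemma sum_norm_sq {k : ℕ} (b : OrthonormalBasis (Fin k) ℝ E) {F : E → E} (hF : Measurable F)
    (hF2 : Integrable (fun x => ‖F x‖ ^ 2) (stdGaussian E)) :
    ∑ i, ‖(coord_memLp hF hF2 (b i)).toLp _‖ ^ 2 = ∫ x, ‖F x‖ ^ 2 ∂(stdGaussian E) := by
  simp_rw [← real_inner_self_eq_norm_sq ((coord_memLp hF hF2 (b _)).toLp _), inner_toLp']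
  rw [← integral_finsetSum]
  · refine integral_congr_ae (Filter.Eventually.of_forall fun x => ?_)
    simp only
    rw [← b.sum_sq_inner_left (F x)]
    exact Finset.sum_congr rfl fun i _ => by ring
  · intro i _
    exact (coord_memLp hF hF2 (b i)).integrable_mul (coord_memLp hF hF2 (b i))

lemma sum_Bz {k : ℕ} (b : OrthonormalBasis (Fin k) ℝ E) {F f : E → E} {w : E → ℝ}
    (hF : Measurable F) (hF2 : Integrable (fun x => ‖F x‖ ^ 2) (stdGaussian E))
    (hf : Measurable f) (hf2 : Integrable (fun x => ‖f x‖ ^ 2) (stdGaussian E))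
    (hw : Integrable w (stdGaussian E)) (hle : ∀ x y, |⟪F x, f y⟫| ≤ w x)
    (z s : ℝ) (h : z ^ 2 + s ^ 2 = 1) :
    |∑ i, Bz z s h ((coord_memLp hF hF2 (b i)).toLp _) ((coord_memLp hf hf2 (b i)).toLp _)| ≤
      ∫ x, w x ∂(stdGaussian E) := by
  simp_rw [Bz_toLp]
  rw [← integral_finsetSum]
  · have e : ∀ p : E × E, ∑ i, ⟪F p.1, b i⟫ * ⟪f (z • p.1 + s • p.2), b i⟫ =
        ⟪F p.1, f (z • p.1 + s • p.2)⟫ := by
      intro p
      rw [← b.sum_inner_mul_inner]
      refine Finset.sum_congr rfl fun a _ => ?_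
      rw [real_inner_comm (b a) (f (z • p.1 + s • p.2))]
    simp_rw [e]
    refine (abs_integral_le_integral_abs).trans ?_
    have hwi : Integrable (fun p : E × E => w p.1) ((stdGaussian E).prod (stdGaussian E)) :=
      hw.comp_fst _
    have h1 : ∫ p : E × E, |⟪F p.1, f (z • p.1 + s • p.2)⟫|
        ∂((stdGaussian E).prod (stdGaussian E)) ≤
        ∫ p : E × E, w p.1 ∂((stdGaussian E).prod (stdGaussian E)) := by
      refine integral_mono_of_nonneg (Filter.Eventually.of_forall fun p => abs_nonneg _) hwi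
        (Filter.Eventually.of_forall fun p => hle _ _)
    refine h1.trans ?_
    rw [integral_fun_fst]
    simp
  · intro i _
    exact ((coord_memLp hF hF2 (b i)).comp_measurePreserving
      (measurePreserving_fst (μ := stdGaussian E) (ν := stdGaussian E))).integrable_mul
      ((coord_memLp hf hf2 (b i)).comp_measurePreserving (mp_rot z s h))

end assembly

end INTERPAux

open INTERPAux in
theorem stmt_INTERP : Stmt_INTERP := by
  intro N hN
  obtain ⟨c, hc⟩ := exists_coef N hN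
  have hNpos : (0:ℝ) < N := by exact_mod_cast hN
  set K : ℝ := ∑ l, |c l| with hK
  have hK0 : 0 ≤ K := Finset.sum_nonneg fun l _ => abs_nonneg _
  refine ⟨max 1 K, le_max_left _ _, ?_⟩
  intro k E _ _ _ _ _ b F f w hF hf hF2 hf2 hw hle β hβ0 hβ1
  set z : Fin (N + 1) → ℝ := fun l => β * ((l : ℝ) / N) with hz
  have ht0 : ∀ l : Fin (N + 1), 0 ≤ (l : ℝ) / N := fun l => by positivity
  have ht1 : ∀ l : Fin (N + 1), (l : ℝ) / N ≤ 1 := fun l => by
    rw [div_le_one hNpos]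
    exact_mod_cast Nat.lt_succ_iff.1 l.2
  have hz0 : ∀ l, 0 ≤ z l := fun l => mul_nonneg hβ0.le (ht0 l)
  have hzβ : ∀ l, z l ≤ β := fun l => by
    simp only [hz]
    nlinarith [ht0 l, ht1 l]
  set s : Fin (N + 1) → ℝ := fun l => Real.sqrt (1 - z l ^ 2) with hs
  have hzs : ∀ l, z l ^ 2 + s l ^ 2 = 1 := fun l => by
    have h1 : z l ^ 2 ≤ 1 := by nlinarith [hz0 l, hzβ l]
    simp only [hs]
    rw [Real.sq_sqrt (by linarith)]
    ring
  have hM : ∀ n : ℕ, |(if n = 1 then (1:ℝ) else 0) - β⁻¹ * ∑ l, c l * z l ^ n| ≤ K * β ^ N := by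
    intro n
    by_cases hn : n ≤ N
    · have h1 : ∑ l, c l * z l ^ n = β ^ n * if n = 1 then 1 else 0 := by
        rw [← hc n hn, Finset.mul_sum]
        refine Finset.sum_congr rfl fun l _ => ?_
        simp only [hz, mul_pow]
        ring
      rw [h1]
      have h2 : (if n = 1 then (1:ℝ) else 0) - β⁻¹ * (β ^ n * if n = 1 then 1 else 0) = 0 := by
        by_cases hn1 : n = 1
        · subst hn1
          simp [hβ0.ne']
        · simp [hn1]
      rw [h2, abs_zero]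
      positivity
    · have hn1 : n ≠ 1 := by omega
      rw [if_neg hn1, zero_sub, abs_neg, abs_mul, abs_of_pos (inv_pos.2 hβ0)]
      have h1 : |∑ l, c l * z l ^ n| ≤ K * β ^ n := by
        refine (Finset.abs_sum_le_sum_abs _ _).trans ?_
        rw [hK, Finset.sum_mul]
        refine Finset.sum_le_sum fun l _ => ?_
        rw [abs_mul, abs_of_nonneg (pow_nonneg (hz0 l) n)]
        exact mul_le_mul_of_nonneg_left (pow_le_pow_left₀ (hz0 l) (hzβ l) n) (abs_nonneg _)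
      have h2 : β⁻¹ * (K * β ^ n) = K * β ^ (n - 1) := by
        obtain ⟨m, rfl⟩ : ∃ m, n = m + 1 := ⟨n - 1, by omega⟩
        rw [Nat.add_sub_cancel, pow_succ]
        field_simp
      calc β⁻¹ * |∑ l, c l * z l ^ n| ≤ β⁻¹ * (K * β ^ n) :=
            mul_le_mul_of_nonneg_left h1 (inv_pos.2 hβ0).le
        _ = K * β ^ (n - 1) := h2
        _ ≤ K * β ^ N := by
            refine mul_le_mul_of_nonneg_left ?_ hK0
            exact pow_le_pow_of_le_one hβ0.le hβ1 (by omega)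
  have hR := Rf_bound b β c z s hzs (K * β ^ N) hM
  set φ := fun i => (coord_memLp hF hF2 (b i)).toLp (fun x => ⟪F x, b i⟫) with hφ
  set ψ := fun i => (coord_memLp hf hf2 (b i)).toLp (fun x => ⟪f x, b i⟫) with hψ
  have e1 : ∑ i, ∑ j, (∫ g, ⟪F g, b i⟫ * ⟪g, b j⟫ ∂(stdGaussian E)) *
          (∫ g, ⟪f g, b i⟫ * ⟪g, b j⟫ ∂(stdGaussian E)) = ∑ i, A1 b (φ i) (ψ i) := by
    refine Finset.sum_congr rfl fun i _ => ?_
    simp only [hφ, hψ]
    rw [A1_toLp]
  have e2 : ∑ i, A1 b (φ i) (ψ i) = ∑ i, Rf b β c z s hzs (φ i) (ψ i) +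
      β⁻¹ * ∑ l, c l * ∑ i, Bz (z l) (s l) (hzs l) (φ i) (ψ i) := by
    have : ∀ i, A1 b (φ i) (ψ i) = Rf b β c z s hzs (φ i) (ψ i) +
        β⁻¹ * ∑ l, c l * Bz (z l) (s l) (hzs l) (φ i) (ψ i) := by
      intro i
      rw [Rf_apply]; ring
    simp_rw [this]
    rw [Finset.sum_add_distrib, ← Finset.mul_sum, Finset.sum_comm]
    simp_rw [Finset.mul_sum]
  have e3 : |∑ i, Rf b β c z s hzs (φ i) (ψ i)| ≤ K * β ^ N *
      (Real.sqrt (∫ x, ‖F x‖ ^ 2 ∂(stdGaussian E)) *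
              Real.sqrt (∫ x, ‖f x‖ ^ 2 ∂(stdGaussian E))) := by
    refine (Finset.abs_sum_le_sum_abs _ _).trans ?_
    refine (Finset.sum_le_sum fun i _ => hR (φ i) (ψ i)).trans ?_
    rw [← Finset.mul_sum]
    refine mul_le_mul_of_nonneg_left ?_ (by positivity)
    refine (Real.sum_mul_le_sqrt_mul_sqrt _ _ _).trans ?_
    rw [sum_norm_sq b hF hF2, sum_norm_sq b hf hf2]
  have hw0 : 0 ≤ ∫ x, w x ∂(stdGaussian E) :=
    integral_nonneg fun x => (abs_nonneg _).trans (hle x 0)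
  have e4 : |∑ l, c l * ∑ i, Bz (z l) (s l) (hzs l) (φ i) (ψ i)| ≤
      K * ∫ x, w x ∂(stdGaussian E) := by
    refine (Finset.abs_sum_le_sum_abs _ _).trans ?_
    rw [hK, Finset.sum_mul]
    refine Finset.sum_le_sum fun l _ => ?_
    rw [abs_mul]
    exact mul_le_mul_of_nonneg_left (sum_Bz b hF hF2 hf hf2 hw hle _ _ _) (abs_nonneg _)
  rw [e1, e2]
  calc |∑ i, Rf b β c z s hzs (φ i) (ψ i) +
      β⁻¹ * ∑ l, c l * ∑ i, Bz (z l) (s l) (hzs l) (φ i) (ψ i)|
      ≤ |∑ i, Rf b β c z s hzs (φ i) (ψ i)| +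
        |β⁻¹ * ∑ l, c l * ∑ i, Bz (z l) (s l) (hzs l) (φ i) (ψ i)| := abs_add_le _ _
    _ ≤ K * β ^ N * (Real.sqrt (∫ x, ‖F x‖ ^ 2 ∂(stdGaussian E)) *
              Real.sqrt (∫ x, ‖f x‖ ^ 2 ∂(stdGaussian E))) +
          β⁻¹ * (K * ∫ x, w x ∂(stdGaussian E)) := by
        rw [abs_mul, abs_of_pos (inv_pos.2 hβ0)]
        exact add_le_add e3 (mul_le_mul_of_nonneg_left e4 (inv_pos.2 hβ0).le)
    _ = K * ((∫ x, w x ∂(stdGaussian E)) / β + β ^ N *
            (Real.sqrt (∫ x, ‖F x‖ ^ 2 ∂(stdGaussian E)) *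
              Real.sqrt (∫ x, ‖f x‖ ^ 2 ∂(stdGaussian E)))) := by
        rw [div_eq_mul_inv]; ring
    _ ≤ _ := mul_le_mul_of_nonneg_right (le_max_right _ _) (by positivity)

end Pool.Agent.RMLite
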