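import Pool.Agent.RMLite.Defs

/-!
# RM-lite, module MOM: crude moment bound for the standard Gaussian
-/

set_option autoImplicit false

open MeasureTheory ProbabilityTheory Module
open scoped RealInnerProductSpace ENNReal NNReal

namespace Pool.Agent.RMLite

namespace MOMAux

lemma integrable_abs_pow (p : ℕ) :
    Integrable (fun x : ℝ => |x| ^ p) (gaussianReal 0 1) := by
  have h : MemLp (id : ℝ → ℝ) p (gaussianReal 0 1) :=
    IsGaussian.memLp_id _ _ (by simp)
  exact h.integrable_norm_pow'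

lemma norm_sum_le_abs {k : ℕ} {E : Type} [NormedAddCommGroup E] [InnerProductSpace ℝ E]
    (b : OrthonormalBasis (Fin k) ℝ E) (x : Fin k → ℝ) :
    ‖∑ i, x i • b i‖ ≤ ∑ i, |x i| := by
  refine (_root_.norm_sum_le _ _).trans (le_of_eq ?_)
  refine Finset.sum_congr rfl fun i _ => ?_
  rw [norm_smul, b.orthonormal.1 i, mul_one, Real.norm_eq_abs]

lemma pow_le {k : ℕ} (q : ℕ) (x : Fin k → ℝ) :
    (∑ i, |x i|) ^ (q + 1) ≤ (k : ℝ) ^ q * ∑ i, |x i| ^ (q + 1) := by
  rcases Nat.eq_zero_or_pos k with hk | hk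
  · subst hk; simp
  have := pow_sum_div_card_le_sum_pow (s := (Finset.univ : Finset (Fin k)))
    (f := fun i => |x i|) (fun i _ => abs_nonneg _) q
  have hk' : (0 : ℝ) < (k : ℝ) ^ q := by positivity
  rw [Finset.card_univ, Fintype.card_fin, div_le_iff₀ hk'] at this
  linarith [this, mul_comm ((k : ℝ) ^ q) (∑ i, |x i| ^ (q + 1))]

end MOMAux

open MOMAux in
theorem stmt_MOM : Stmt_MOM := by
  intro p
  set m : ℝ := ∫ x : ℝ, |x| ^ p ∂(gaussianReal 0 1) with hm
  have hm0 : 0 ≤ m := integral_nonneg fun x => by positivity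
  refine ⟨1 + m, by linarith, ?_⟩
  intro E _ _ _ _ _
  set k := finrank ℝ E with hk
  let b := stdOrthonormalBasis ℝ E
  let P : Measure (Fin k → ℝ) := Measure.pi fun _ : Fin k => gaussianReal 0 1
  have hG : stdGaussian E = P.map (fun x : Fin k → ℝ => ∑ i, x i • b i) :=
    stdGaussian_eq_map_pi_orthonormalBasis b
  have hmeas : Measurable (fun x : Fin k → ℝ => ∑ i, x i • b i) := by fun_prop
  have hcont : Continuous (fun x : E => ‖x‖ ^ p) := by fun_prop
  rcases Nat.eq_zero_or_pos p with hp | hp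
  · subst hp
    simp only [pow_zero, mul_one]
    refine ⟨integrable_const _, ?_⟩
    simp only [integral_const, probReal_univ, smul_eq_mul, mul_one]
    linarith
  obtain ⟨q, rfl⟩ : ∃ q, p = q + 1 := ⟨p - 1, by omega⟩
  have hint : ∀ i : Fin k, Integrable (fun x : Fin k → ℝ => |x i| ^ (q + 1)) P := by
    intro i
    have h1 := measurePreserving_eval (fun _ : Fin k => gaussianReal 0 1) i
    exact h1.integrable_comp_of_integrable (integrable_abs_pow (q + 1))
  have hval : ∀ i : Fin k, ∫ x : Fin k → ℝ, |x i| ^ (q + 1) ∂P = m := by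
    intro i
    have h1 := measurePreserving_eval (fun _ : Fin k => gaussianReal 0 1) i
    have h2 : AEStronglyMeasurable (fun x : ℝ => |x| ^ (q + 1))
        (P.map (Function.eval i)) := by
      exact (Continuous.aestronglyMeasurable (by fun_prop))
    have h3 := integral_map (μ := P) (φ := Function.eval i) h1.measurable.aemeasurable h2
    rw [h1.map_eq] at h3
    exact h3.symm
  have hsum : Integrable (fun x : Fin k → ℝ => (k : ℝ) ^ q * ∑ i, |x i| ^ (q + 1)) P :=
    (integrable_finsetSum _ fun i _ => hint i).const_mul _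
  have hbound : ∀ x : Fin k → ℝ, ‖∑ i, x i • b i‖ ^ (q + 1) ≤
      (k : ℝ) ^ q * ∑ i, |x i| ^ (q + 1) := fun x =>
    (pow_le_pow_left₀ (norm_nonneg _) (norm_sum_le_abs b x) _).trans (pow_le q x)
  have hI : Integrable (fun x : Fin k → ℝ => ‖∑ i, x i • b i‖ ^ (q + 1)) P := by
    refine hsum.mono' ?_ (Filter.Eventually.of_forall fun x => ?_)
    · exact (hcont.measurable.comp hmeas).aestronglyMeasurable
    · rw [Real.norm_of_nonneg (by positivity)]
      exact hbound x
  refine ⟨?_, ?_⟩
  · rw [hG, integrable_map_measure hcont.aestronglyMeasurable hmeas.aemeasurable]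
    exact hI
  · rw [hG, integral_map hmeas.aemeasurable hcont.aestronglyMeasurable]
    calc ∫ x, ‖∑ i, x i • b i‖ ^ (q + 1) ∂P
        ≤ ∫ x, (k : ℝ) ^ q * ∑ i, |x i| ^ (q + 1) ∂P := integral_mono hI hsum hbound
      _ = (k : ℝ) ^ q * (k * m) := by
          rw [integral_const_mul, integral_finsetSum _ fun i _ => hint i]
          simp [hval]
      _ = m * (k : ℝ) ^ (q + 1) := by ring
      _ ≤ (1 + m) * (k : ℝ) ^ (q + 1) := by
          have : (0 : ℝ) ≤ (k : ℝ) ^ (q + 1) := by positivity
          nlinarith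

end Pool.Agent.RMLite
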