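import Pool.Agent.RMLite.Basic

/-!
# RM-lite: main induction (helper9)
-/

set_option autoImplicit false
set_option linter.unusedSectionVars false
set_option linter.unusedSimpArgs false

open MeasureTheory ProbabilityTheory Module
open scoped RealInnerProductSpace ENNReal NNReal

namespace Pool.Agent.RMLite

namespace MainAux

/-- moment bounds with explicit constants -/
def MomB (Cm : ℕ → ℝ) : Prop :=
  ∀ p : ℕ, 1 ≤ Cm p ∧ ∀ (E : Type) [NormedAddCommGroup E] [InnerProductSpace ℝ E]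
    [FiniteDimensional ℝ E] [MeasurableSpace E] [BorelSpace E],
    Integrable (fun x : E => ‖x‖ ^ p) (stdGaussian E) ∧
    ∫ x : E, ‖x‖ ^ p ∂(stdGaussian E) ≤ Cm p * (finrank ℝ E : ℝ) ^ p

lemma exists_momB (h : Stmt_MOM) : ∃ Cm : ℕ → ℝ, MomB Cm := by
  choose Cm hCm using h
  exact ⟨Cm, fun p => hCm p⟩

section fixed

variable {E : Type} [NormedAddCommGroup E] [InnerProductSpace ℝ E] [FiniteDimensional ℝ E]
  [MeasurableSpace E] [BorelSpace E]

lemma int_of_le {Cm : ℕ → ℝ} (hM : MomB Cm) (p : ℕ) {h : E → ℝ}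
    (hm : AEStronglyMeasurable h (stdGaussian E)) {K : ℝ} (hK : 0 ≤ K)
    (hb : ∀ g, |h g| ≤ K * ‖g‖ ^ p) :
    Integrable h (stdGaussian E) ∧
      |∫ g, h g ∂(stdGaussian E)| ≤ K * (Cm p * (finrank ℝ E : ℝ) ^ p) := by
  have h1 := (hM p).2 E
  have h2 : Integrable (fun x : E => K * ‖x‖ ^ p) (stdGaussian E) := h1.1.const_mul K
  have h3 : Integrable h (stdGaussian E) :=
    h2.mono' hm (Filter.Eventually.of_forall fun g => by simpa using hb g)
  refine ⟨h3, ?_⟩
  calc |∫ g, h g ∂(stdGaussian E)| ≤ ∫ g, |h g| ∂(stdGaussian E) := abs_integral_le_integral_abs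
    _ ≤ ∫ g, K * ‖g‖ ^ p ∂(stdGaussian E) := integral_mono h3.abs h2 hb
    _ = K * ∫ g, ‖g‖ ^ p ∂(stdGaussian E) := integral_const_mul _ _
    _ ≤ K * (Cm p * (finrank ℝ E : ℝ) ^ p) := mul_le_mul_of_nonneg_left h1.2 hK

variable {L : AddSubgroup E} {y : E → E}

lemma nu_meas (hy : IsSel L y) : Measurable (nu y) := by
  have := hy.1
  unfold nu
  fun_prop

lemma nu_norm (hL : Sep 1 L) (hy : IsSel L y) (g : E) : ‖nu y g‖ ≤ 2 := by
  obtain ⟨h1, h2, -⟩ := hy.2 g
  have h3 : 1 ≤ ‖y g‖ := hL _ h1 h2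
  unfold nu
  rw [norm_smul, Real.norm_eq_abs, abs_of_nonneg (by positivity)]
  rw [div_mul_eq_mul_div, div_le_iff₀ (by positivity)]
  nlinarith

lemma inner_nu_self (hy : IsSel L y) (g : E) : ⟪nu y g, g⟫ = nrm L g := by
  rw [← (hy.2 g).2.2]
  unfold nu
  rw [real_inner_smul_left, real_inner_comm]
  ring

lemma inner_nu_le (hL : Sep 1 L) (hy : IsSel L y) (g x : E) : |⟪nu y g, x⟫| ≤ nrm L x := by
  have key : ∀ x : E, ⟪nu y g, x⟫ ≤ nrm L x := by
    intro x
    have := le_nrm one_pos hL x (hy.2 g).1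
    refine le_trans (le_of_eq ?_) this
    unfold nu
    rw [real_inner_smul_left, real_inner_comm]
    ring
  rw [abs_le]
  constructor
  · have := key (-x)
    rw [inner_neg_right, nrm_neg] at this
    linarith
  · exact key x

lemma nrm_pow_le (hL : Sep 1 L) (p : ℕ) (g : E) : nrm L g ^ p ≤ 2 ^ p * ‖g‖ ^ p := by
  rw [← mul_pow]
  exact pow_le_pow_left₀ (nrm_nonneg L g) (nrm_le_two hL g) p

/-- the integrand of `NN`. -/
lemma NN_int {Cm : ℕ → ℝ} (hM : MomB Cm) (hL : Sep 1 L) (hy : IsSel L y) {q : ℕ} (hq : 1 ≤ q)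
    (u v : E) :
    Integrable (fun g => nrm L g ^ (q - 1) * ⟪nu y g, u⟫ * ⟪g, v⟫) (stdGaussian E) := by
  refine (int_of_le hM q (K := 2 ^ q * ‖u‖ * ‖v‖) ?_ (by positivity) ?_).1
  · have h1 := nrm_measurable one_pos hL
    have h2 := nu_meas hy
    exact (((h1.pow_const _).mul (h2.inner measurable_const)).mul
      (measurable_id.inner measurable_const)).aestronglyMeasurable
  · intro g
    have h1 := nrm_pow_le hL (q - 1) g
    have h2 : |⟪nu y g, u⟫| ≤ 2 * ‖u‖ :=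
      (abs_real_inner_le_norm _ _).trans (mul_le_mul_of_nonneg_right (nu_norm hL hy g)
        (norm_nonneg u))
    have h3 := abs_real_inner_le_norm g v
    rw [abs_mul, abs_mul, abs_of_nonneg (pow_nonneg (nrm_nonneg L g) _)]
    calc nrm L g ^ (q - 1) * |⟪nu y g, u⟫| * |⟪g, v⟫|
        ≤ (2 ^ (q - 1) * ‖g‖ ^ (q - 1)) * (2 * ‖u‖) * (‖g‖ * ‖v‖) := by
          gcongr
      _ = (2 ^ (q - 1) * 2) * ‖u‖ * ‖v‖ * (‖g‖ ^ (q - 1) * ‖g‖) := by ring
      _ = 2 ^ q * ‖u‖ * ‖v‖ * ‖g‖ ^ q := by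
          rw [← pow_succ, ← pow_succ, Nat.sub_add_cancel hq]

lemma NN_add_left {Cm : ℕ → ℝ} (hM : MomB Cm) (hL : Sep 1 L) (hy : IsSel L y) {q : ℕ}
    (hq : 1 ≤ q) (u u' v : E) : NN q L y (u + u') v = NN q L y u v + NN q L y u' v := by
  unfold NN
  rw [← integral_add (NN_int hM hL hy hq u v) (NN_int hM hL hy hq u' v)]
  congr 1
  ext g
  rw [inner_add_right]
  ring

lemma NN_add_right {Cm : ℕ → ℝ} (hM : MomB Cm) (hL : Sep 1 L) (hy : IsSel L y) {q : ℕ}
    (hq : 1 ≤ q) (u v v' : E) : NN q L y u (v + v') = NN q L y u v + NN q L y u v' := by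
  unfold NN
  rw [← integral_add (NN_int hM hL hy hq u v) (NN_int hM hL hy hq u v')]
  congr 1
  ext g
  rw [inner_add_right]
  ring

lemma NN_smul_left (q : ℕ) (c : ℝ) (u v : E) : NN q L y (c • u) v = c * NN q L y u v := by
  unfold NN
  rw [← integral_const_mul]
  congr 1
  ext g
  rw [real_inner_smul_right]
  ring

lemma NN_smul_right (q : ℕ) (c : ℝ) (u v : E) : NN q L y u (c • v) = c * NN q L y u v := by
  unfold NN
  rw [← integral_const_mul]
  congr 1
  ext g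
  rw [real_inner_smul_right]
  ring

lemma NN_sum_left {Cm : ℕ → ℝ} (hM : MomB Cm) (hL : Sep 1 L) (hy : IsSel L y) {q : ℕ}
    (hq : 1 ≤ q) {ι : Type} (s : Finset ι) (c : ι → ℝ) (u : ι → E) (v : E) :
    NN q L y (∑ i ∈ s, c i • u i) v = ∑ i ∈ s, c i * NN q L y (u i) v := by
  classical
  induction s using Finset.induction_on with
  | empty => simp [NN]
  | insert a s ha ih =>
    rw [Finset.sum_insert ha, Finset.sum_insert ha, NN_add_left hM hL hy hq, ih, NN_smul_left]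

lemma NN_sum_right {Cm : ℕ → ℝ} (hM : MomB Cm) (hL : Sep 1 L) (hy : IsSel L y) {q : ℕ}
    (hq : 1 ≤ q) {ι : Type} (s : Finset ι) (c : ι → ℝ) (u : E) (v : ι → E) :
    NN q L y u (∑ i ∈ s, c i • v i) = ∑ i ∈ s, c i * NN q L y u (v i) := by
  classical
  induction s using Finset.induction_on with
  | empty => simp [NN]
  | insert a s ha ih =>
    rw [Finset.sum_insert ha, Finset.sum_insert ha, NN_add_right hM hL hy hq, ih, NN_smul_right]

lemma nrm_pow_int {Cm : ℕ → ℝ} (hM : MomB Cm) (hL : Sep 1 L) (p : ℕ) :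
    Integrable (fun g => nrm L g ^ p) (stdGaussian E) ∧
      ∫ g, nrm L g ^ p ∂(stdGaussian E) ≤ 2 ^ p * (Cm p * (finrank ℝ E : ℝ) ^ p) := by
  obtain ⟨h1, h2⟩ := int_of_le hM p (h := fun g : E => nrm L g ^ p) (K := 2 ^ p)
    ((nrm_measurable one_pos hL).pow_const p).aestronglyMeasurable (by positivity)
    (fun g => by
      rw [abs_of_nonneg (pow_nonneg (nrm_nonneg L g) _)]
      exact nrm_pow_le hL p g)
  exact ⟨h1, (le_abs_self _).trans h2⟩

lemma Phi_eq {Cm : ℕ → ℝ} (hM : MomB Cm) (hL : Sep 1 L) (q : ℕ) :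
    Phi q L = ENNReal.ofReal (∫ g, nrm L g ^ q ∂(stdGaussian E)) := by
  unfold Phi
  rw [ofReal_integral_eq_lintegral_ofReal (nrm_pow_int hM hL q).1
    (Filter.Eventually.of_forall fun g => pow_nonneg (nrm_nonneg L g) _)]
  congr 1
  ext g
  rw [ENNReal.ofReal_pow (nrm_nonneg L g)]

/-- trace of `NN`. -/
lemma NN_trace {Cm : ℕ → ℝ} (hM : MomB Cm) (hL : Sep 1 L) (hy : IsSel L y) {q : ℕ}
    (hq : 1 ≤ q) {k : ℕ} (b : OrthonormalBasis (Fin k) ℝ E) :
    ∑ i, NN q L y (b i) (b i) = ∫ g, nrm L g ^ q ∂(stdGaussian E) := by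
  unfold NN
  rw [← integral_finsetSum _ (fun i _ => NN_int hM hL hy hq (b i) (b i))]
  congr 1
  ext g
  have h1 : ∀ i, nrm L g ^ (q - 1) * ⟪nu y g, b i⟫ * ⟪g, b i⟫ =
      nrm L g ^ (q - 1) * (⟪nu y g, b i⟫ * ⟪b i, g⟫) := by
    intro i
    rw [real_inner_comm g (b i)]
    ring
  simp only [h1]
  rw [← Finset.mul_sum, b.sum_inner_mul_inner, inner_nu_self hy, ← pow_succ,
    Nat.sub_add_cancel hq]

/-- from off-diagonal smallness to near isotropy -/
lemma near_iso {Cm : ℕ → ℝ} (hM : MomB Cm) (hL : Sep 1 L) (hy : IsSel L y) {q : ℕ}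
    (hq : 1 ≤ q) {k : ℕ} (hk : 1 ≤ k) (b : OrthonormalBasis (Fin k) ℝ E) {ε : ℝ} (hε : 0 ≤ ε)
    (hN : ∀ u v : E, ‖u‖ = 1 → ‖v‖ = 1 → ⟪u, v⟫ = 0 → |NN q L y u v| ≤ ε) (i j : Fin k) :
    |NN q L y (b i) (b j) - if i = j then (∫ g, nrm L g ^ q ∂(stdGaussian E)) / k else 0|
      ≤ 4 * ε := by
  have hoff : ∀ i j : Fin k, i ≠ j → |NN q L y (b i) (b j)| ≤ ε := by
    intro i j hij
    refine hN _ _ (by simp) (by simp) ?_
    rw [b.inner_eq_ite, if_neg hij]
  have hdiag : ∀ i j : Fin k, |NN q L y (b i) (b i) - NN q L y (b j) (b j)| ≤ 4 * ε ∨ i = j := by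
    intro i j
    by_cases hij : i = j
    · exact Or.inr hij
    left
    set c : ℝ := (Real.sqrt 2)⁻¹ with hc
    have hc2 : c * c = 1 / 2 := by
      rw [hc, ← mul_inv, Real.mul_self_sqrt (by norm_num)]; norm_num
    have hbi : ∀ i, ⟪b i, b i⟫ = 1 := fun i => by rw [b.inner_eq_ite, if_pos rfl]
    have hbij : ⟪b i, b j⟫ = 0 := by rw [b.inner_eq_ite, if_neg hij]
    have hbji : ⟪b j, b i⟫ = 0 := by rw [b.inner_eq_ite, if_neg (Ne.symm hij)]
    have hn1 : ‖c • b i + c • b j‖ = 1 := by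
      rw [← sq_eq_sq₀ (norm_nonneg _) zero_le_one, ← real_inner_self_eq_norm_sq]
      simp only [inner_add_left, inner_add_right, real_inner_smul_left, real_inner_smul_right,
        hbi, hbij, hbji]
      linarith
    have hn2 : ‖c • b i + (-c) • b j‖ = 1 := by
      rw [← sq_eq_sq₀ (norm_nonneg _) zero_le_one, ← real_inner_self_eq_norm_sq]
      simp only [inner_add_left, inner_add_right, real_inner_smul_left, real_inner_smul_right,
        hbi, hbij, hbji]
      linarith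
    have hn3 : ⟪c • b i + c • b j, c • b i + (-c) • b j⟫ = 0 := by
      simp only [inner_add_left, inner_add_right, real_inner_smul_left, real_inner_smul_right,
        hbi, hbij, hbji]
      ring
    have h1 := hN _ _ hn1 hn2 hn3
    rw [NN_add_left hM hL hy hq, NN_add_right hM hL hy hq, NN_add_right hM hL hy hq] at h1
    simp only [NN_smul_left, NN_smul_right] at h1
    have h2 := hoff i j hij
    have h3 := hoff j i (Ne.symm hij)
    have h5 : c * (c * NN q L y (b i) (b i)) + -c * (c * NN q L y (b i) (b j)) +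
        (c * (c * NN q L y (b j) (b i)) + -c * (c * NN q L y (b j) (b j))) =
        1 / 2 * (NN q L y (b i) (b i) - NN q L y (b j) (b j) - NN q L y (b i) (b j) +
          NN q L y (b j) (b i)) := by
      linear_combination (NN q L y (b i) (b i) - NN q L y (b j) (b j) - NN q L y (b i) (b j) +
          NN q L y (b j) (b i)) * hc2
    have h6 : |1 / 2 * (NN q L y (b i) (b i) - NN q L y (b j) (b j) - NN q L y (b i) (b j) +
          NN q L y (b j) (b i))| ≤ ε := by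
      rw [h5] at h1
      exact h1
    rw [abs_le] at h2 h3 h6 ⊢
    constructor <;> linarith [h2.1, h2.2, h3.1, h3.2, h6.1, h6.2]
  by_cases hij : i = j
  · subst hij
    rw [if_pos rfl, ← NN_trace hM hL hy hq b]
    have hk' : (0 : ℝ) < k := by exact_mod_cast hk
    have h1 : NN q L y (b i) (b i) - (∑ j, NN q L y (b j) (b j)) / k =
        (∑ j, (NN q L y (b i) (b i) - NN q L y (b j) (b j))) / k := by
      rw [Finset.sum_sub_distrib, Finset.sum_const, Finset.card_univ, Fintype.card_fin, sub_div,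
        nsmul_eq_mul]
      field_simp
    rw [h1, abs_div, abs_of_pos hk', div_le_iff₀ hk']
    calc |∑ j, (NN q L y (b i) (b i) - NN q L y (b j) (b j))|
        ≤ ∑ j, |NN q L y (b i) (b i) - NN q L y (b j) (b j)| := Finset.abs_sum_le_sum_abs _ _
      _ ≤ ∑ _j : Fin k, 4 * ε := by
          refine Finset.sum_le_sum fun j _ => ?_
          rcases hdiag i j with h | h
          · exact h
          · subst h; simp [hε]
      _ = 4 * ε * k := by
          rw [Finset.sum_const, Finset.card_univ, Fintype.card_fin, nsmul_eq_mul]; ring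
  · rw [if_neg hij, sub_zero]
    exact (hoff i j hij).trans (by linarith)

/-- circumradius bound -/
lemma circ {Cm : ℕ → ℝ} (hM : MomB Cm) (hL : Sep 1 L) (hy : IsSel L y) {q : ℕ}
    (hq : 1 ≤ q) {k : ℕ} (hk : 1 ≤ k) (hkE : finrank ℝ E = k) (b : OrthonormalBasis (Fin k) ℝ E)
    {ε : ℝ} (hε : 0 ≤ ε) (hε2 : ε ≤ 1 / (8 * k))
    (hN : ∀ u v : E, ‖u‖ = 1 → ‖v‖ = 1 → ⟪u, v⟫ = 0 → |NN q L y u v| ≤ ε)
    (hP : (k : ℝ) ≤ ∫ g, nrm L g ^ q ∂(stdGaussian E)) {x : E} (hx : nrm L x ≤ 1) :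
    ‖x‖ ≤ 2 ^ q * Cm q * (k : ℝ) ^ q := by
  have hk' : (0 : ℝ) < k := by exact_mod_cast hk
  set P : ℝ := ∫ g, nrm L g ^ q ∂(stdGaussian E) with hPdef
  have hiso := near_iso hM hL hy hq hk b hε hN
  -- upper bound
  have hup : NN q L y x x ≤ 2 ^ (q - 1) * ‖x‖ * (Cm q * (k : ℝ) ^ q) := by
    have h1 := (int_of_le hM q (h := fun g => nrm L g ^ (q - 1) * ⟪nu y g, x⟫ * ⟪g, x⟫)
      (K := 2 ^ (q - 1) * ‖x‖) (NN_int hM hL hy hq x x).aestronglyMeasurable (by positivity) (by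
        intro g
        have h1 := nrm_pow_le hL (q - 1) g
        have h2 : |⟪nu y g, x⟫| ≤ 1 := (inner_nu_le hL hy g x).trans hx
        have h3 := abs_real_inner_le_norm g x
        rw [abs_mul, abs_mul, abs_of_nonneg (pow_nonneg (nrm_nonneg L g) _)]
        calc nrm L g ^ (q - 1) * |⟪nu y g, x⟫| * |⟪g, x⟫|
            ≤ (2 ^ (q - 1) * ‖g‖ ^ (q - 1)) * 1 * (‖g‖ * ‖x‖) := by gcongr
          _ = 2 ^ (q - 1) * ‖x‖ * (‖g‖ ^ (q - 1) * ‖g‖) := by ring
          _ = 2 ^ (q - 1) * ‖x‖ * ‖g‖ ^ q := by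
              rw [← pow_succ, Nat.sub_add_cancel hq])).2
    rw [hkE] at h1
    exact (le_abs_self _).trans h1
  -- lower bound
  have hxe : x = ∑ i, ⟪b i, x⟫ • b i := (b.sum_repr' x).symm
  have hexp : NN q L y x x = ∑ i, ∑ j, ⟪b i, x⟫ * (⟪b j, x⟫ * NN q L y (b i) (b j)) := by
    calc NN q L y x x = NN q L y (∑ i, ⟪b i, x⟫ • b i) (∑ j, ⟪b j, x⟫ • b j) := by rw [← hxe]
      _ = _ := by
        rw [NN_sum_left hM hL hy hq]
        refine Finset.sum_congr rfl fun i _ => ?_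
        rw [NN_sum_right hM hL hy hq, Finset.mul_sum]
  have hsq : ∑ i, ⟪b i, x⟫ ^ 2 = ‖x‖ ^ 2 := b.sum_sq_inner_right x
  have hlow : (P / k - 4 * ε * k) * ‖x‖ ^ 2 ≤ NN q L y x x := by
    have h1 : NN q L y x x - P / k * ‖x‖ ^ 2 = ∑ i, ∑ j, ⟪b i, x⟫ * (⟪b j, x⟫ *
        (NN q L y (b i) (b j) - if i = j then P / k else 0)) := by
      rw [hexp, ← hsq, Finset.mul_sum, ← Finset.sum_sub_distrib]
      refine Finset.sum_congr rfl fun i _ => ?_
      have h2 : ∀ j, ⟪b i, x⟫ * (⟪b j, x⟫ * (NN q L y (b i) (b j) - if i = j then P / k else 0)) =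
          ⟪b i, x⟫ * (⟪b j, x⟫ * NN q L y (b i) (b j)) -
            (if i = j then ⟪b i, x⟫ * (⟪b j, x⟫ * (P / k)) else 0) := by
        intro j
        split_ifs <;> ring
      simp only [h2]
      rw [Finset.sum_sub_distrib, Finset.sum_ite_eq]
      simp only [Finset.mem_univ, if_true]
      ring
    have h2 : |NN q L y x x - P / k * ‖x‖ ^ 2| ≤ 4 * ε * k * ‖x‖ ^ 2 := by
      rw [h1]
      calc |∑ i, ∑ j, ⟪b i, x⟫ * (⟪b j, x⟫ * (NN q L y (b i) (b j) - if i = j then P / k else 0))|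
          ≤ ∑ i, ∑ j, |⟪b i, x⟫ * (⟪b j, x⟫ *
              (NN q L y (b i) (b j) - if i = j then P / k else 0))| := by
            refine (Finset.abs_sum_le_sum_abs _ _).trans (Finset.sum_le_sum fun i _ => ?_)
            exact Finset.abs_sum_le_sum_abs _ _
        _ ≤ ∑ i, ∑ j, |⟪b i, x⟫| * (|⟪b j, x⟫| * (4 * ε)) := by
            refine Finset.sum_le_sum fun i _ => Finset.sum_le_sum fun j _ => ?_
            rw [abs_mul, abs_mul]
            have := hiso i j
            gcongr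
        _ = 4 * ε * (∑ i, |⟪b i, x⟫|) ^ 2 := by
            rw [sq, Finset.sum_mul_sum, Finset.mul_sum]
            refine Finset.sum_congr rfl fun i _ => ?_
            rw [Finset.mul_sum]
            refine Finset.sum_congr rfl fun j _ => ?_
            ring
        _ ≤ 4 * ε * (k * ∑ i, |⟪b i, x⟫| ^ 2) := by
            refine mul_le_mul_of_nonneg_left ?_ (by positivity)
            have := sq_sum_le_card_mul_sum_sq (s := (Finset.univ : Finset (Fin k)))
              (f := fun i => |⟪b i, x⟫|)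
            simpa using this
        _ = 4 * ε * k * ‖x‖ ^ 2 := by
            simp only [sq_abs]
            rw [hsq]; ring
    have h3 := (abs_le.1 h2).1
    nlinarith [h3]
  have h1 : (1 : ℝ) / 2 ≤ P / k - 4 * ε * k := by
    have h2 : 1 ≤ P / k := by rw [le_div_iff₀ hk']; linarith
    have h3 : 4 * ε * k ≤ 1 / 2 := by
      have : ε * (8 * k) ≤ 1 := by
        rw [le_div_iff₀ (by positivity)] at hε2
        exact hε2
      linarith
    linarith
  have h2 : 1 / 2 * ‖x‖ ^ 2 ≤ 2 ^ (q - 1) * ‖x‖ * (Cm q * (k : ℝ) ^ q) :=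
    (mul_le_mul_of_nonneg_right h1 (sq_nonneg _)).trans (hlow.trans hup)
  have hCm : 0 ≤ Cm q := zero_le_one.trans (hM q).1
  rcases (norm_nonneg x).eq_or_lt with h0 | h0
  · rw [← h0]; positivity
  · have h3 : (2 : ℝ) ^ q = 2 ^ (q - 1) * 2 := by rw [← pow_succ, Nat.sub_add_cancel hq]
    rw [h3]
    have h4 : ‖x‖ * ‖x‖ ≤ (2 ^ (q - 1) * 2 * Cm q * (k : ℝ) ^ q) * ‖x‖ := by nlinarith
    exact le_of_mul_le_mul_right h4 h0

lemma real_absorb {P CN C' ka W M : ℝ} {q : ℕ} (hq : 1 ≤ q) (hP : 0 ≤ P) (hCN : 1 ≤ CN)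
    (hka : 1 ≤ ka) (hM : M = 16 * CN * ka) (hW : W ≤ P / M + M ^ (q - 1))
    (h : P / 8 ≤ CN * (W * ka + C') + 1) : P ≤ M ^ q + 16 * (CN * C' + 1) := by
  have hMpos : 0 < M := by rw [hM]; positivity
  have h1 : CN * (W * ka) ≤ P / 16 + M ^ q / 16 := by
    have h2 : CN * (W * ka) ≤ CN * ((P / M + M ^ (q - 1)) * ka) := by gcongr
    have h3 : CN * ((P / M + M ^ (q - 1)) * ka) = P / 16 + M ^ q / 16 := by
      have h4 : M ^ q = M ^ (q - 1) * M := by rw [← pow_succ, Nat.sub_add_cancel hq]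
      have h5 : CN * ka = M / 16 := by rw [hM]; ring
      have h6 : CN * ((P / M + M ^ (q - 1)) * ka) = (P / M + M ^ (q - 1)) * (CN * ka) := by ring
      rw [h6, h5, h4]
      field_simp
    linarith
  nlinarith [h1]

/-- the interpolation bound for a fixed `N`. -/
def InterpB (N : ℕ) (C : ℝ) : Prop :=
  ∀ (k : ℕ) (E : Type) [NormedAddCommGroup E]
    [InnerProductSpace ℝ E] [FiniteDimensional ℝ E] [MeasurableSpace E] [BorelSpace E]
    (b : OrthonormalBasis (Fin k) ℝ E) (F f : E → E) (w : E → ℝ),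
    Measurable F → Measurable f →
    Integrable (fun x => ‖F x‖ ^ 2) (stdGaussian E) →
    Integrable (fun x => ‖f x‖ ^ 2) (stdGaussian E) →
    Integrable w (stdGaussian E) → (∀ x y, |⟪F x, f y⟫| ≤ w x) →
    ∀ β : ℝ, 0 < β → β ≤ 1 →
      |∑ i, ∑ j, (∫ g, ⟪F g, b i⟫ * ⟪g, b j⟫ ∂(stdGaussian E)) *
          (∫ g, ⟪f g, b i⟫ * ⟪g, b j⟫ ∂(stdGaussian E))|
        ≤ C * ((∫ x, w x ∂(stdGaussian E)) / β + β ^ N *
            (Real.sqrt (∫ x, ‖F x‖ ^ 2 ∂(stdGaussian E)) *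
              Real.sqrt (∫ x, ‖f x‖ ^ 2 ∂(stdGaussian E))))

end fixed

/-- core of the contradiction argument -/
lemma core {Cm : ℕ → ℝ} (hM : MomB Cm) (hW : Stmt_WID) (hV : Stmt_VOL) {N : ℕ} {CN : ℝ}
    (hCN : 1 ≤ CN) (hI : InterpB N CN) {q : ℕ} (hq : 2 ≤ q) {a : ℝ} (ha : 0 < a)
    (hNa : (2 * q : ℝ) ≤ N * a) (E : Type) [NormedAddCommGroup E] [InnerProductSpace ℝ E]
    [FiniteDimensional ℝ E] [MeasurableSpace E] [BorelSpace E] (hk : 1 ≤ finrank ℝ E) :
    ∃ ε : ℝ, 0 < ε ∧ ∀ L : AddSubgroup E, Sp L → Full L → ∀ y : E → E, IsSel L y →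
      (∀ u v : E, ‖u‖ = 1 → ‖v‖ = 1 → ⟪u, v⟫ = 0 → |NN q L y u v| ≤ ε) →
      (finrank ℝ E : ℝ) ≤ ∫ g, nrm L g ^ q ∂(stdGaussian E) →
      ∫ g, nrm L g ^ q ∂(stdGaussian E) ≤ (16 * CN * (finrank ℝ E : ℝ) ^ a) ^ q +
        16 * (CN * (2 ^ q * Real.sqrt (Cm (2 * q - 2)) * (2 ^ q * Cm q)) + 1) := by
  have hq1 : 1 ≤ q := by omega
  set k : ℕ := finrank ℝ E with hkdef
  have hk' : (0 : ℝ) < k := by exact_mod_cast hk
  have hk1 : (1 : ℝ) ≤ k := by exact_mod_cast hk
  set R : ℝ := 2 ^ q * Cm q * (k : ℝ) ^ q with hR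
  have hCm : ∀ p, 0 < Cm p := fun p => zero_lt_one.trans_le (hM p).1
  have hRpos : 0 < R := by have := hCm q; positivity
  set K1 : ℝ := R * (Cm 1 * (k : ℝ) ^ 1) with hK1
  have hK1pos : 0 < K1 := by have := hCm 1; positivity
  refine ⟨min (1 / (8 * k)) (1 / (4 * k ^ 2 * K1)), by positivity, ?_⟩
  set ε : ℝ := min (1 / (8 * k)) (1 / (4 * k ^ 2 * K1)) with hεdef
  have hε : 0 < ε := by positivity
  intro L hSp hFull y hy hN hP
  set P : ℝ := ∫ g, nrm L g ^ q ∂(stdGaussian E) with hPdef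
  have hL : Sep 1 L := hSp.sep
  set b := stdOrthonormalBasis ℝ E with hb
  have hiso := near_iso hM hL hy hq1 hk b hε.le hN
  obtain ⟨hVc, hVv⟩ := hV E L hSp hFull
  obtain ⟨f, hfm, hffin, hfV, hfint⟩ := hW E hk _ hVc hVv
  have hfR : ∀ g, ‖f g‖ ≤ R := fun g =>
    circ hM hL hy hq1 hk rfl b hε.le (min_le_left _ _) hN hP (hfV g)
  -- the functions for the interpolation lemma
  have hnu := nu_meas hy
  have hnm := nrm_measurable one_pos hL
  have hFm : Measurable (fun g => nrm L g ^ (q - 1) • nu y g) := (hnm.pow_const _).smul hnu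
  have hFle : ∀ g, ‖nrm L g ^ (q - 1) • nu y g‖ ≤ 2 ^ q * ‖g‖ ^ (q - 1) := by
    intro g
    rw [norm_smul, Real.norm_eq_abs, abs_of_nonneg (pow_nonneg (nrm_nonneg L g) _)]
    have h1 := nrm_pow_le hL (q - 1) g
    have h2 := nu_norm hL hy g
    calc nrm L g ^ (q - 1) * ‖nu y g‖ ≤ (2 ^ (q - 1) * ‖g‖ ^ (q - 1)) * 2 := by gcongr
      _ = (2 ^ (q - 1) * 2) * ‖g‖ ^ (q - 1) := by ring
      _ = 2 ^ q * ‖g‖ ^ (q - 1) := by rw [← pow_succ, Nat.sub_add_cancel hq1]
  have hF2 : Integrable (fun g => ‖nrm L g ^ (q - 1) • nu y g‖ ^ 2) (stdGaussian E) ∧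
      ∫ g, ‖nrm L g ^ (q - 1) • nu y g‖ ^ 2 ∂(stdGaussian E) ≤
        (2 ^ q) ^ 2 * (Cm (2 * q - 2) * (k : ℝ) ^ (2 * q - 2)) := by
    have h1 := int_of_le hM (2 * q - 2)
      (h := fun g => ‖nrm L g ^ (q - 1) • nu y g‖ ^ 2) (K := (2 ^ q) ^ 2)
      (hFm.norm.pow_const 2).aestronglyMeasurable (by positivity) (by
        intro g
        rw [abs_of_nonneg (by positivity)]
        have h2 : 2 * q - 2 = (q - 1) * 2 := by omega
        rw [h2, pow_mul, ← mul_pow]
        exact pow_le_pow_left₀ (norm_nonneg _) (hFle g) 2)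
    exact ⟨h1.1, (le_abs_self _).trans h1.2⟩
  have hf2 : Integrable (fun g => ‖f g‖ ^ 2) (stdGaussian E) ∧
      ∫ g, ‖f g‖ ^ 2 ∂(stdGaussian E) ≤ R ^ 2 := by
    have h0 : Integrable (fun g => ‖f g‖ ^ 2) (stdGaussian E) := by
      refine (integrable_const (R ^ 2)).mono' (hfm.norm.pow_const 2).aestronglyMeasurable
        (Filter.Eventually.of_forall fun g => ?_)
      rw [Real.norm_eq_abs, abs_of_nonneg (by positivity)]
      exact pow_le_pow_left₀ (norm_nonneg _) (hfR g) 2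
    refine ⟨h0, ?_⟩
    calc ∫ g, ‖f g‖ ^ 2 ∂(stdGaussian E) ≤ ∫ _g, R ^ 2 ∂(stdGaussian E) :=
          integral_mono h0 (integrable_const _)
            (fun g => pow_le_pow_left₀ (norm_nonneg _) (hfR g) 2)
      _ = R ^ 2 := by simp
  have hw := nrm_pow_int hM hL (q - 1)
  have hwb : ∀ x z, |⟪nrm L x ^ (q - 1) • nu y x, f z⟫| ≤ nrm L x ^ (q - 1) := by
    intro x z
    rw [real_inner_smul_left, abs_mul, abs_of_nonneg (pow_nonneg (nrm_nonneg L x) _)]
    have h1 : |⟪nu y x, f z⟫| ≤ 1 := (inner_nu_le hL hy x (f z)).trans (hfV z)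
    calc nrm L x ^ (q - 1) * |⟪nu y x, f z⟫| ≤ nrm L x ^ (q - 1) * 1 :=
          mul_le_mul_of_nonneg_left h1 (pow_nonneg (nrm_nonneg L x) _)
      _ = _ := mul_one _
  set β : ℝ := ((k : ℝ) ^ a)⁻¹ with hβ
  have hka : 1 ≤ (k : ℝ) ^ a := Real.one_le_rpow hk1 ha.le
  have hβ0 : 0 < β := by positivity
  have hβ1 : β ≤ 1 := inv_le_one_of_one_le₀ hka
  have hint := hI k E b (fun g => nrm L g ^ (q - 1) • nu y g) f (fun g => nrm L g ^ (q - 1))
    hFm hfm hF2.1 hf2.1 hw.1 hwb β hβ0 hβ1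
  set W : ℝ := ∫ g, nrm L g ^ (q - 1) ∂(stdGaussian E) with hWdef
  set S : Fin k → Fin k → ℝ := fun i j => ∫ g, ⟪f g, b i⟫ * ⟪g, b j⟫ ∂(stdGaussian E) with hS
  have hNNeq : ∀ i j, ∫ g, ⟪nrm L g ^ (q - 1) • nu y g, b i⟫ * ⟪g, b j⟫ ∂(stdGaussian E) =
      NN q L y (b i) (b j) := by
    intro i j
    unfold NN
    congr 1
    ext g
    rw [real_inner_smul_left]
  simp only [hNNeq] at hint
  change |∑ i, ∑ j, NN q L y (b i) (b j) * S i j| ≤ _ at hint
  -- integrability of the entries of S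
  have hSint : ∀ i j, Integrable (fun g => ⟪f g, b i⟫ * ⟪g, b j⟫) (stdGaussian E) ∧
      |S i j| ≤ K1 := by
    intro i j
    have h1 := int_of_le hM 1 (h := fun g => ⟪f g, b i⟫ * ⟪g, b j⟫) (K := R)
      ((hfm.inner measurable_const).mul (measurable_id.inner measurable_const)).aestronglyMeasurable
      hRpos.le (by
        intro g
        rw [abs_mul, pow_one]
        have h2 := abs_real_inner_le_norm (f g) (b i)
        have h3 := abs_real_inner_le_norm g (b j)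
        rw [b.norm_eq_one, mul_one] at h2 h3
        have h4 := hfR g
        gcongr
        exact h2.trans h4)
    exact h1
  have htr : (k : ℝ) / 8 ≤ ∑ i, S i i := by
    have h1 : ∑ i, S i i = ∫ g, ⟪g, f g⟫ ∂(stdGaussian E) := by
      rw [hS, ← integral_finsetSum _ (fun i _ => (hSint i i).1)]
      congr 1
      ext g
      have h2 : ∀ i, ⟪f g, b i⟫ * ⟪g, b i⟫ = ⟪g, b i⟫ * ⟪b i, f g⟫ := by
        intro i
        rw [real_inner_comm (f g) (b i)]; ring
      simp only [h2]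
      exact b.sum_inner_mul_inner g (f g)
    rw [h1]; exact hfint
  -- comparison with the scalar matrix
  have hcomp : |∑ i, ∑ j, NN q L y (b i) (b j) * S i j - P / k * ∑ i, S i i| ≤ 1 := by
    have h1 : ∑ i, ∑ j, NN q L y (b i) (b j) * S i j - P / k * ∑ i, S i i =
        ∑ i, ∑ j, (NN q L y (b i) (b j) - if i = j then P / k else 0) * S i j := by
      rw [Finset.mul_sum, ← Finset.sum_sub_distrib]
      refine Finset.sum_congr rfl fun i _ => ?_
      have h2 : ∀ j, (NN q L y (b i) (b j) - if i = j then P / k else 0) * S i j =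
          NN q L y (b i) (b j) * S i j - (if i = j then P / k * S i j else 0) := by
        intro j
        split_ifs <;> ring
      simp only [h2]
      rw [Finset.sum_sub_distrib, Finset.sum_ite_eq]
      simp
    rw [h1]
    calc |∑ i, ∑ j, (NN q L y (b i) (b j) - if i = j then P / k else 0) * S i j|
        ≤ ∑ i, ∑ j, |(NN q L y (b i) (b j) - if i = j then P / k else 0) * S i j| := by
          refine (Finset.abs_sum_le_sum_abs _ _).trans (Finset.sum_le_sum fun i _ => ?_)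
          exact Finset.abs_sum_le_sum_abs _ _
      _ ≤ ∑ _i : Fin k, ∑ _j : Fin k, 4 * ε * K1 := by
          refine Finset.sum_le_sum fun i _ => Finset.sum_le_sum fun j _ => ?_
          rw [abs_mul]
          have h3 := hiso i j
          have h4 := (hSint i j).2
          gcongr
      _ = ε * (4 * k ^ 2 * K1) := by
          simp only [Finset.sum_const, Finset.card_univ, Fintype.card_fin, nsmul_eq_mul]
          ring
      _ ≤ 1 / (4 * k ^ 2 * K1) * (4 * k ^ 2 * K1) := by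
          refine mul_le_mul_of_nonneg_right (min_le_right _ _) (by positivity)
      _ = 1 := by field_simp
  -- the error term
  set C' : ℝ := 2 ^ q * Real.sqrt (Cm (2 * q - 2)) * (2 ^ q * Cm q) with hC'
  have hD : β ^ N * (Real.sqrt (∫ g, ‖nrm L g ^ (q - 1) • nu y g‖ ^ 2 ∂(stdGaussian E)) *
      Real.sqrt (∫ g, ‖f g‖ ^ 2 ∂(stdGaussian E))) ≤ C' := by
    have h1 : Real.sqrt (∫ g, ‖nrm L g ^ (q - 1) • nu y g‖ ^ 2 ∂(stdGaussian E)) ≤
        2 ^ q * Real.sqrt (Cm (2 * q - 2)) * (k : ℝ) ^ (q - 1) := by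
      refine (Real.sqrt_le_sqrt hF2.2).trans (le_of_eq ?_)
      have h2 : (k : ℝ) ^ (2 * q - 2) = ((k : ℝ) ^ (q - 1)) ^ 2 := by
        rw [← pow_mul]; congr 1; omega
      rw [h2, Real.sqrt_mul (by positivity), Real.sqrt_sq (by positivity),
        Real.sqrt_mul (hCm _).le, Real.sqrt_sq (by positivity)]
      ring
    have h2 : Real.sqrt (∫ g, ‖f g‖ ^ 2 ∂(stdGaussian E)) ≤ R := by
      refine (Real.sqrt_le_sqrt hf2.2).trans (le_of_eq ?_)
      rw [Real.sqrt_sq hRpos.le]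
    have h3 : β ^ N * (k : ℝ) ^ (2 * q) ≤ 1 := by
      have h4 : β ^ N = ((k : ℝ) ^ (a * N))⁻¹ := by
        rw [hβ, inv_pow, Real.rpow_mul hk'.le, Real.rpow_natCast]
      rw [h4, inv_mul_le_iff₀ (by positivity), mul_one, ← Real.rpow_natCast]
      refine Real.rpow_le_rpow_of_exponent_le hk1 ?_
      push_cast
      linarith
    calc β ^ N * (Real.sqrt (∫ g, ‖nrm L g ^ (q - 1) • nu y g‖ ^ 2 ∂(stdGaussian E)) *
          Real.sqrt (∫ g, ‖f g‖ ^ 2 ∂(stdGaussian E)))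
        ≤ β ^ N * ((2 ^ q * Real.sqrt (Cm (2 * q - 2)) * (k : ℝ) ^ (q - 1)) * R) := by
          gcongr
      _ = (β ^ N * ((k : ℝ) ^ (q - 1) * (k : ℝ) ^ q)) * C' := by rw [hC', hR]; ring
      _ ≤ (β ^ N * (k : ℝ) ^ (2 * q)) * C' := by
          have hC'0 : 0 ≤ C' := by
            have := hCm q
            rw [hC']; positivity
          refine mul_le_mul_of_nonneg_right (mul_le_mul_of_nonneg_left ?_ (by positivity)) hC'0
          rw [← pow_add]
          exact pow_le_pow_right₀ hk1 (by omega)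
      _ ≤ 1 * C' := by
          have hC'0 : 0 ≤ C' := by
            have := hCm q
            rw [hC']; positivity
          exact mul_le_mul_of_nonneg_right h3 hC'0
      _ = C' := one_mul _
  -- assembling
  set M : ℝ := 16 * CN * (k : ℝ) ^ a with hMdef
  have hMpos : 0 < M := by positivity
  have hP0 : 0 ≤ P := hk'.le.trans hP
  have hWle : W ≤ P / M + M ^ (q - 1) := by
    have h1 : ∀ g, nrm L g ^ (q - 1) ≤ nrm L g ^ q / M + M ^ (q - 1) := by
      intro g
      have h0 := nrm_nonneg L g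
      rcases le_total (nrm L g) M with h | h
      · have h2 : nrm L g ^ (q - 1) ≤ M ^ (q - 1) := pow_le_pow_left₀ h0 h _
        have h3 : 0 ≤ nrm L g ^ q / M := by positivity
        linarith
      · have h2 : nrm L g ^ (q - 1) ≤ nrm L g ^ q / M := by
          rw [le_div_iff₀ hMpos]
          calc nrm L g ^ (q - 1) * M ≤ nrm L g ^ (q - 1) * nrm L g := by gcongr
            _ = nrm L g ^ q := by rw [← pow_succ, Nat.sub_add_cancel hq1]
        have h3 : 0 ≤ M ^ (q - 1) := by positivity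
        linarith
    have h2 := (nrm_pow_int hM hL q).1
    calc W ≤ ∫ g, (nrm L g ^ q / M + M ^ (q - 1)) ∂(stdGaussian E) :=
          integral_mono hw.1 ((h2.div_const M).add (integrable_const _)) h1
      _ = P / M + M ^ (q - 1) := by
          rw [integral_add (h2.div_const M) (integrable_const _), integral_div]
          simp [hPdef]
  refine real_absorb hq1 hP0 hCN hka hMdef hWle ?_
  have h1 : P / 8 ≤ P / k * ∑ i, S i i := by
    have h2 : P / 8 = P / k * (k / 8) := by field_simp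
    rw [h2]
    exact mul_le_mul_of_nonneg_left htr (by positivity)
  have h2 : P / k * ∑ i, S i i ≤ |∑ i, ∑ j, NN q L y (b i) (b j) * S i j| + 1 := by
    have h3 := (abs_le.1 hcomp).1
    have h4 := le_abs_self (∑ i, ∑ j, NN q L y (b i) (b j) * S i j)
    linarith
  have h3 : W / β = W * (k : ℝ) ^ a := by rw [hβ, div_inv_eq_mul]
  rw [h3] at hint
  have h4 : CN * (W * (k : ℝ) ^ a + β ^ N * (Real.sqrt (∫ g, ‖nrm L g ^ (q - 1) • nu y g‖ ^ 2
      ∂(stdGaussian E)) * Real.sqrt (∫ g, ‖f g‖ ^ 2 ∂(stdGaussian E)))) ≤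
      CN * (W * (k : ℝ) ^ a + C') := by gcongr
  linarith

section scale

variable {E : Type} [NormedAddCommGroup E] [InnerProductSpace ℝ E] [FiniteDimensional ℝ E]
  [MeasurableSpace E] [BorelSpace E]

lemma Phi_scale (q : ℕ) (L : AddSubgroup E) {D : ℝ} (hD : 0 < D) :
    Phi q L = ENNReal.ofReal D ^ q * Phi q (scale D L) := by
  unfold Phi
  rw [← lintegral_const_mul' _ _ (ENNReal.pow_ne_top ENNReal.ofReal_ne_top)]
  refine lintegral_congr fun x => ?_
  rw [← mul_pow, ← ENNReal.ofReal_mul hD.le, nrm_scale L hD]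
  congr 2
  field_simp

end scale

/-- the bound -/
noncomputable def Bd (C a : ℝ) (q : ℕ) (k : ℕ) : ℝ := k * (C * (k : ℝ) ^ a) ^ q

lemma Bd_nonneg {C a : ℝ} (hC : 0 ≤ C) (q k : ℕ) : 0 ≤ Bd C a q k := by
  unfold Bd
  positivity

lemma Bd_add {C a : ℝ} (hC : 0 ≤ C) (ha : 0 < a) (q : ℕ) {r k : ℕ} (hr : r ≤ k) :
    Bd C a q r + Bd C a q (k - r) ≤ Bd C a q k := by
  have key : ∀ j, j ≤ k → Bd C a q j ≤ j * (C * (k : ℝ) ^ a) ^ q := by
    intro j hj
    unfold Bd
    have h1 : (j : ℝ) ^ a ≤ (k : ℝ) ^ a :=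
      Real.rpow_le_rpow (by positivity) (by exact_mod_cast hj) ha.le
    gcongr
  have h1 := key r hr
  have h2 := key (k - r) (Nat.sub_le _ _)
  have h3 : ((k - r : ℕ) : ℝ) = k - r := by rw [Nat.cast_sub hr]
  calc Bd C a q r + Bd C a q (k - r) ≤ r * (C * (k : ℝ) ^ a) ^ q +
        (k - r : ℕ) * (C * (k : ℝ) ^ a) ^ q := add_le_add h1 h2
    _ = Bd C a q k := by rw [h3]; unfold Bd; ring

lemma Full.ne_bot {E : Type} [NormedAddCommGroup E] [InnerProductSpace ℝ E]
    [FiniteDimensional ℝ E] {L : AddSubgroup E} (h : Full L) (hk : 1 ≤ finrank ℝ E) : L ≠ ⊥ := by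
  rintro rfl
  unfold Full at h
  have h1 : Submodule.span ℝ ((⊥ : AddSubgroup E) : Set E) = ⊥ := by
    rw [AddSubgroup.coe_bot]
    simp
  rw [h1] at h
  have h2 : finrank ℝ (⊤ : Submodule ℝ E) = 0 := by rw [← h]; simp
  rw [finrank_top] at h2
  omega

lemma step {Cm : ℕ → ℝ} (hM : MomB Cm) (hSplit : Stmt_SPLIT) (hQuot : Stmt_QUOT)
    (hSel : Stmt_SEL) (hNear : Stmt_NEAR) (hW : Stmt_WID) (hV : Stmt_VOL) {N : ℕ} {CN : ℝ}
    (hCN : 1 ≤ CN) (hI : InterpB N CN) {q : ℕ} (hq : 2 ≤ q) {a : ℝ} (ha : 0 < a)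
    (hNa : (2 * q : ℝ) ≤ N * a) {C : ℝ}
    (hC : C = 16 * CN + 16 * (CN * (2 ^ q * Real.sqrt (Cm (2 * q - 2)) * (2 ^ q * Cm q)) + 1))
    (k : ℕ) (hk : 1 ≤ k)
    (IH : ∀ j < k, ∀ (E : Type) [NormedAddCommGroup E] [InnerProductSpace ℝ E]
      [FiniteDimensional ℝ E] [MeasurableSpace E] [BorelSpace E], finrank ℝ E = j →
      ∀ L : AddSubgroup E, Sp L → Full L → Phi q L ≤ ENNReal.ofReal (Bd C a q j))
    (E : Type) [NormedAddCommGroup E] [InnerProductSpace ℝ E]
    [FiniteDimensional ℝ E] [MeasurableSpace E] [BorelSpace E] (hE : finrank ℝ E = k)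
    (L0 : AddSubgroup E) (hL0 : Sp L0) (hF0 : Full L0) :
    Phi q L0 ≤ ENNReal.ofReal (Bd C a q k) := by
  by_contra hcon
  push Not at hcon
  have hq1 : 1 ≤ q := by omega
  have hk1 : (1 : ℝ) ≤ k := by exact_mod_cast hk
  have hCm : ∀ p, 0 < Cm p := fun p => zero_lt_one.trans_le (hM p).1
  set C' : ℝ := 2 ^ q * Real.sqrt (Cm (2 * q - 2)) * (2 ^ q * Cm q) with hC'
  have hC'0 : 0 ≤ C' := by
    have := hCm q
    rw [hC']; positivity
  have hC1 : 1 ≤ C := by
    have : 0 ≤ CN * C' := by positivity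
    rw [hC]; linarith
  have hC0 : 0 ≤ C := by linarith
  set Bk : ℝ := Bd C a q k with hBk
  have hBk0 : 0 ≤ Bk := Bd_nonneg hC0 q k
  set 𝒮 : Set ℝ := {t | ∃ L : AddSubgroup E, Sp L ∧ Full L ∧
    t = ∫ g, nrm L g ^ q ∂(stdGaussian E)} with h𝒮
  have hbdd : BddAbove 𝒮 := by
    refine ⟨2 ^ q * (Cm q * (finrank ℝ E : ℝ) ^ q), ?_⟩
    rintro _ ⟨L, hL, -, rfl⟩
    exact (nrm_pow_int hM hL.sep q).2
  set S : ℝ := sSup 𝒮 with hS
  have hSge : ∀ L : AddSubgroup E, Sp L → Full L → ∫ g, nrm L g ^ q ∂(stdGaussian E) ≤ S :=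
    fun L hL hF => le_csSup hbdd ⟨L, hL, hF, rfl⟩
  have hBS : Bk < S := by
    rw [Phi_eq hM hL0.sep] at hcon
    have h1 : Bk < ∫ g, nrm L0 g ^ q ∂(stdGaussian E) :=
      (ENNReal.ofReal_lt_ofReal_iff_of_nonneg hBk0).1 hcon
    exact h1.trans_le (hSge L0 hL0 hF0)
  -- choice of δ
  obtain ⟨δ, hδlt, hδ⟩ : ∃ δ : ℝ, (1 + δ) ^ q * Bk < S ∧ 0 < δ := by
    have h1 : Filter.Tendsto (fun δ : ℝ => (1 + δ) ^ q * Bk) (nhdsWithin 0 (Set.Ioi 0))
        (nhds ((1 + 0) ^ q * Bk)) := by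
      refine Filter.Tendsto.mono_left ?_ nhdsWithin_le_nhds
      have : Continuous (fun δ : ℝ => (1 + δ) ^ q * Bk) := by fun_prop
      exact this.tendsto 0
    have h2 : (1 + (0 : ℝ)) ^ q * Bk < S := by simpa using hBS
    have h3 := (h1.eventually_lt_const h2).and self_mem_nhdsWithin
    obtain ⟨δ, h4, h5⟩ := h3.exists
    exact ⟨δ, h4, h5⟩
  obtain ⟨ε, hε, hcore⟩ := core hM hW hV hCN hI hq ha hNa E (by omega)
  obtain ⟨η, hη, hnear⟩ := hNear E (by omega) q hq1 S (fun L hL hF => by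
    rw [Phi_eq hM hL.sep]
    exact ENNReal.ofReal_le_ofReal (hSge L hL hF)) δ hδ ε hε
  -- near maximiser
  have hne : 𝒮.Nonempty := ⟨_, L0, hL0, hF0, rfl⟩
  obtain ⟨P, ⟨L, hL, hF, rfl⟩, hPgt⟩ := exists_lt_of_lt_csSup hne
    (max_lt (sub_lt_self S hη) hδlt : max (S - η) ((1 + δ) ^ q * Bk) < sSup 𝒮)
  have hP1 : S - η < ∫ g, nrm L g ^ q ∂(stdGaussian E) := (le_max_left _ _).trans_lt hPgt
  have hP2 : (1 + δ) ^ q * Bk < ∫ g, nrm L g ^ q ∂(stdGaussian E) :=
    (le_max_right _ _).trans_lt hPgt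
  have hprop : ∀ (r : ℕ) (y : Fin r → E), 0 < r → r < finrank ℝ E → (∀ i, y i ∈ L) →
      LinearIndependent ℝ y → 1 + δ ≤ (gramM y).det := by
    intro r y hr0 hr hyL hli
    by_contra hdet
    push Not at hdet
    set D : ℝ := 1 + δ with hD
    have hD1 : 1 ≤ D := by linarith
    have hD0 : 0 < D := by linarith
    set W := Submodule.span ℝ (Set.range y) with hWdef
    obtain ⟨q1, q2, q3, q4⟩ := hQuot E L hL hF r y hyL hli D hD1 (by nlinarith)
    have hWr : finrank ℝ W = r := by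
      rw [hWdef, finrank_span_eq_card hli, Fintype.card_fin]
    have hWc : finrank ℝ (Wᗮ : Submodule ℝ E) = k - r := by
      have := Submodule.finrank_add_finrank_orthogonal W
      rw [hWr, hE] at this
      omega
    have i1 := IH r (by omega) W hWr (restr W L) q1 q2
    have i2 := IH (k - r) (by omega) (Wᗮ : Submodule ℝ E) hWc (scale D (quot W L)) q3 q4
    have hsepQ : Sep (1 / D) (quot W L) := by
      intro z hz hz0
      have h1 := q3.sep (D • z) ⟨z, hz, rfl⟩ (by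
        intro h
        rcases smul_eq_zero.1 h with h | h
        · exact hD0.ne' h
        · exact hz0 h)
      rw [norm_smul, Real.norm_eq_abs, abs_of_pos hD0] at h1
      rw [div_le_iff₀ hD0]
      linarith
    have hsepL : Sep (1 / D) L := hL.sep.mono (by rw [div_le_one hD0]; exact hD1)
    have hsp := hSplit E L (1 / D) (by positivity) hsepL W hsepQ q hq1
    rw [Phi_scale q (quot W L) hD0] at hsp
    have h1 : Phi q L ≤ ENNReal.ofReal (D ^ q * Bk) := by
      calc Phi q L ≤ Phi q (restr W L) + ENNReal.ofReal D ^ q * Phi q (scale D (quot W L)) := hsp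
        _ ≤ ENNReal.ofReal (Bd C a q r) + ENNReal.ofReal D ^ q *
              ENNReal.ofReal (Bd C a q (k - r)) := by gcongr
        _ = ENNReal.ofReal (Bd C a q r + D ^ q * Bd C a q (k - r)) := by
            rw [← ENNReal.ofReal_pow hD0.le, ← ENNReal.ofReal_mul (by positivity),
              ← ENNReal.ofReal_add (Bd_nonneg hC0 q r)
                (mul_nonneg (by positivity) (Bd_nonneg hC0 q _))]
        _ ≤ ENNReal.ofReal (D ^ q * Bk) := by
            refine ENNReal.ofReal_le_ofReal ?_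
            have h2 := Bd_add hC0 ha q (r := r) (k := k) (by omega)
            have h3 := Bd_nonneg (a := a) hC0 q r
            have h4 : 1 ≤ D ^ q := one_le_pow₀ hD1
            nlinarith
    rw [Phi_eq hM hL.sep] at h1
    have h2 := (ENNReal.ofReal_le_ofReal_iff (by positivity)).1 h1
    linarith
  have hnb := Full.ne_bot hF (by omega)
  obtain ⟨y, hy⟩ := hSel E L 1 one_pos hL.sep hnb
  have hNN := hnear L hL hF hprop (by
    rw [Phi_eq hM hL.sep]
    exact ENNReal.ofReal_le_ofReal hP1.le) y hy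
  have hka : 1 ≤ (k : ℝ) ^ a := Real.one_le_rpow hk1 ha.le
  have hCka : 1 ≤ C * (k : ℝ) ^ a := one_le_mul_of_one_le_of_one_le hC1 hka
  have hpow1 : 1 ≤ (C * (k : ℝ) ^ a) ^ q := one_le_pow₀ hCka
  have hBkP : Bk < ∫ g, nrm L g ^ q ∂(stdGaussian E) := by
    have h4 : 1 ≤ (1 + δ) ^ q := one_le_pow₀ (by linarith)
    nlinarith
  have hkP : (finrank ℝ E : ℝ) ≤ ∫ g, nrm L g ^ q ∂(stdGaussian E) := by
    rw [hE]
    have : (k : ℝ) ≤ Bk := by
      rw [hBk]; unfold Bd
      nlinarith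
    linarith
  have hfin := hcore L hL hF y hy hNN hkP
  rw [hE] at hfin
  have h5 : (16 * CN * (k : ℝ) ^ a) ^ q + 16 * (CN * C' + 1) ≤ (C * (k : ℝ) ^ a) ^ q := by
    set X : ℝ := 16 * CN * (k : ℝ) ^ a with hX
    set Y : ℝ := 16 * (CN * C' + 1) with hY
    have hY1 : 1 ≤ Y := by
      have : 0 ≤ CN * C' := by positivity
      rw [hY]; linarith
    have hX0 : 0 ≤ X := by positivity
    have h6 : C * (k : ℝ) ^ a = X + Y * (k : ℝ) ^ a := by rw [hC]; ring
    have h7 : Y ≤ Y * (k : ℝ) ^ a := le_mul_of_one_le_right (by linarith) hka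
    calc X ^ q + Y ≤ X ^ q + Y ^ q := by
          have : Y ≤ Y ^ q := le_self_pow₀ hY1 (by omega)
          linarith
      _ ≤ (X + Y) ^ q := pow_add_pow_le hX0 (by linarith) (by omega)
      _ ≤ (C * (k : ℝ) ^ a) ^ q := by
          rw [h6]
          exact pow_le_pow_left₀ (by linarith) (by linarith) q
  have h6 : (C * (k : ℝ) ^ a) ^ q ≤ Bk := by
    rw [hBk]; unfold Bd
    nlinarith
  linarith

end MainAux

open MainAux in
/-- the main induction. -/
theorem stmt_MAIN_of (hMom : Stmt_MOM) (hSplit : Stmt_SPLIT) (hQuot : Stmt_QUOT)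
    (hSel : Stmt_SEL) (hNear : Stmt_NEAR) (hInt : Stmt_INTERP) (hW : Stmt_WID) (hV : Stmt_VOL) :
    Stmt_MAIN := by
  intro a ha q hq
  obtain ⟨Cm, hM⟩ := exists_momB hMom
  set N : ℕ := ⌈(2 * q : ℝ) / a⌉₊ with hN
  have hN1 : 1 ≤ N := by
    rw [hN]
    refine Nat.one_le_ceil_iff.2 ?_
    have : (0 : ℝ) < q := by
      have : 0 < q := by omega
      exact_mod_cast this
    positivity
  have hNa : (2 * q : ℝ) ≤ N * a := by
    have := Nat.le_ceil ((2 * q : ℝ) / a)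
    rw [div_le_iff₀ ha] at this
    exact this
  obtain ⟨CN, hCN, hI⟩ := hInt N hN1
  have hCm : ∀ p, 0 < Cm p := fun p => zero_lt_one.trans_le (hM p).1
  refine ⟨16 * CN + 16 * (CN * (2 ^ q * Real.sqrt (Cm (2 * q - 2)) * (2 ^ q * Cm q)) + 1), ?_, ?_⟩
  · have h1 := hCm q
    have : 0 ≤ CN * (2 ^ q * Real.sqrt (Cm (2 * q - 2)) * (2 ^ q * Cm q)) := by positivity
    linarith
  · have key : ∀ k : ℕ, ∀ (E : Type) [NormedAddCommGroup E] [InnerProductSpace ℝ E]
        [FiniteDimensional ℝ E] [MeasurableSpace E] [BorelSpace E], finrank ℝ E = k →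
        ∀ L : AddSubgroup E, Sp L → Full L → Phi q L ≤ ENNReal.ofReal (Bd (16 * CN + 16 * (CN *
          (2 ^ q * Real.sqrt (Cm (2 * q - 2)) * (2 ^ q * Cm q)) + 1)) a q k) := by
      intro k
      induction k using Nat.strong_induction_on with
      | _ k IH =>
        rcases Nat.eq_zero_or_pos k with rfl | hk
        · intro E _ _ _ _ _ hE L hL hF
          have hsub : Subsingleton E := finrank_zero_iff.1 hE
          have h0 : Phi q L = 0 := by
            unfold Phi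
            have h1 : ∀ x : E, ENNReal.ofReal (nrm L x) ^ q = 0 := by
              intro x
              rw [Subsingleton.elim x 0, nrm_zero]
              simp; omega
            simp only [h1, lintegral_zero]
          rw [h0]
          exact zero_le
        · intro E _ _ _ _ _ hE L hL hF
          exact step hM hSplit hQuot hSel hNear hW hV hCN hI hq ha hNa rfl k hk
            (fun j hj E' _ _ _ _ _ hE' L' hL' hF' => IH j hj E' hE' L' hL' hF') E hE L hL hF
    intro E _ _ _ _ _ L hL hF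
    exact key (finrank ℝ E) E rfl L hL hF

end Pool.Agent.RMLite
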