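import Pool.Agent.RMLite.Basic

/-!
# RM-lite, module REFL (helper17): the reflection identity

For a lattice `L` with shortest nonzero vector of length `≥ 1`, a measurable selection `y(g)` of the
maximiser of `2⟨g,y⟩/|y|²`, and all `u, v`:
`2 E[ρ^{q-1} ⟨ν,u⟩⟨g,v⟩] = E[ρ^q ⟨ν,u⟩⟨y,v⟩]`.
-/

set_option autoImplicit false
set_option linter.unusedSectionVars false
set_option linter.unusedSimpArgs false

open MeasureTheory ProbabilityTheory Module
open scoped RealInnerProductSpace ENNReal NNReal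

namespace Pool.Agent.RMLite

namespace REFLAux

variable {E : Type} [NormedAddCommGroup E] [InnerProductSpace ℝ E]

/-! ### the reflection -/

/-- the reflection in the line spanned by `y0`. -/
noncomputable def rfl' (y0 : E) : E ≃ₗᵢ[ℝ] E := (ℝ ∙ y0).reflection

lemma rfl'_apply (y0 g : E) : rfl' y0 g = (2 * ⟪g, y0⟫ / ‖y0‖ ^ 2) • y0 - g := by
  unfold rfl'
  rw [Submodule.reflection_singleton_apply]
  congr 1
  rw [two_smul, ← add_smul, real_inner_comm]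
  congr 1
  simp only [RCLike.ofReal_real_eq_id, id_eq]
  ring

/-- the cone of `g` for which `y0` is a maximiser. -/
def cone (L : AddSubgroup E) (y0 : E) : Set E := {g | 2 * ⟪g, y0⟫ / ‖y0‖ ^ 2 = nrm L g}

lemma rfl'_of_cone {L : AddSubgroup E} {y0 g : E} (hg : g ∈ cone L y0) :
    rfl' y0 g = nrm L g • y0 - g := by
  rw [rfl'_apply]
  rw [show 2 * ⟪g, y0⟫ / ‖y0‖ ^ 2 = nrm L g from hg]

lemma ratio_rfl' {y0 : E} (hy0 : y0 ≠ 0) (g : E) :
    2 * ⟪rfl' y0 g, y0⟫ / ‖y0‖ ^ 2 = 2 * ⟪g, y0⟫ / ‖y0‖ ^ 2 := by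
  rw [rfl'_apply, inner_sub_left, real_inner_smul_left, real_inner_self_eq_norm_sq]
  have : ‖y0‖ ≠ 0 := norm_ne_zero_iff.2 hy0
  field_simp
  ring

lemma nrm_rfl' {L : AddSubgroup E} (h : Sep 1 L) {y0 : E} (hy0L : y0 ∈ L) (hy0 : y0 ≠ 0) {g : E}
    (hg : g ∈ cone L y0) : nrm L (rfl' y0 g) = nrm L g := by
  have hy' : 0 < ‖y0‖ := norm_pos_iff.2 hy0
  apply le_antisymm
  · refine ciSup_le fun y => ?_
    by_cases hy : (y : E) = 0
    · simp [hy, nrm_nonneg]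
    · have hyp : 0 < ‖(y : E)‖ := norm_pos_iff.2 hy
      rw [rfl'_of_cone hg]
      rw [div_le_iff₀ (by positivity)]
      -- use z = y0 - y
      have hz : 2 * ⟪g, y0 - y⟫ ≤ nrm L g * ‖y0 - (y : E)‖ ^ 2 := by
        by_cases hzz : y0 - (y : E) = 0
        · simp [hzz]
        · have h1 := le_nrm one_pos h g (L.sub_mem hy0L y.2)
          rwa [div_le_iff₀ (by have := norm_pos_iff.2 hzz; positivity)] at h1
      have h0 : 2 * ⟪g, y0⟫ = nrm L g * ‖y0‖ ^ 2 := by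
        have h2 : 2 * ⟪g, y0⟫ / ‖y0‖ ^ 2 = nrm L g := hg
        rwa [div_eq_iff (by positivity)] at h2
      rw [inner_sub_right, norm_sub_sq_real] at hz
      rw [inner_sub_left, real_inner_smul_left]
      nlinarith
  · have h1 := le_nrm one_pos h (rfl' y0 g) hy0L
    rw [ratio_rfl' hy0] at h1
    rwa [show 2 * ⟪g, y0⟫ / ‖y0‖ ^ 2 = nrm L g from hg] at h1

lemma rfl'_mem_cone {L : AddSubgroup E} (h : Sep 1 L) {y0 : E} (hy0L : y0 ∈ L) (hy0 : y0 ≠ 0)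
    {g : E} (hg : g ∈ cone L y0) : rfl' y0 g ∈ cone L y0 := by
  change 2 * ⟪rfl' y0 g, y0⟫ / ‖y0‖ ^ 2 = nrm L (rfl' y0 g)
  rw [nrm_rfl' h hy0L hy0 hg, ratio_rfl' hy0]
  exact hg

lemma rfl'_rfl' (y0 g : E) : rfl' y0 (rfl' y0 g) = g := by
  unfold rfl'
  exact Submodule.reflection_reflection _ g

lemma rfl'_preimage_cone {L : AddSubgroup E} (h : Sep 1 L) {y0 : E} (hy0L : y0 ∈ L)
    (hy0 : y0 ≠ 0) : (rfl' y0) ⁻¹' (cone L y0) = cone L y0 := by
  ext g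
  constructor
  · intro hg
    have := rfl'_mem_cone h hy0L hy0 (show rfl' y0 g ∈ cone L y0 from hg)
    rwa [rfl'_rfl'] at this
  · intro hg
    exact rfl'_mem_cone h hy0L hy0 hg

variable [FiniteDimensional ℝ E] [MeasurableSpace E] [BorelSpace E]

lemma measurableSet_cone {L : AddSubgroup E} (h : Sep 1 L) (y0 : E) :
    MeasurableSet (cone L y0) := by
  apply measurableSet_eq_fun
  · fun_prop
  · exact nrm_measurable one_pos h

/-! ### hyperplanes are null -/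

lemma hyperplane_null {w : E} (hw : w ≠ 0) : stdGaussian E {g : E | ⟪w, g⟫ = 0} = 0 := by
  have h1 : (stdGaussian E).map (innerSL ℝ w) = gaussianReal _ _ :=
    IsGaussian.map_eq_gaussianReal (μ := stdGaussian E) (innerSL ℝ w)
  have h2 : {g : E | ⟪w, g⟫ = 0} = (innerSL ℝ w) ⁻¹' {0} := by
    ext g; simp
  rw [h2, ← Measure.map_apply (by fun_prop) (measurableSet_singleton 0), h1]
  rw [variance_dual_stdGaussian]
  have h3 : (‖innerSL ℝ w‖ ^ 2).toNNReal ≠ 0 := by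
    rw [innerSL_apply_norm]
    have : 0 < ‖w‖ := norm_pos_iff.2 hw
    simp only [ne_eq, Real.toNNReal_eq_zero, not_le]
    positivity
  have := nullSingletonClass_gaussianReal (μ := (stdGaussian E)[innerSL ℝ w]) h3
  exact measure_singleton 0

lemma inv_inj {y0 y1 : E} (h0 : y0 ≠ 0) (h1 : y1 ≠ 0)
    (h : (‖y0‖ ^ 2)⁻¹ • y0 = (‖y1‖ ^ 2)⁻¹ • y1) : y0 = y1 := by
  have hn0 : 0 < ‖y0‖ := norm_pos_iff.2 h0
  have hn1 : 0 < ‖y1‖ := norm_pos_iff.2 h1
  have e := congrArg norm h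
  rw [norm_smul, norm_smul, norm_inv, norm_inv, norm_pow, norm_pow, norm_norm, norm_norm] at e
  have e2 : ‖y0‖ = ‖y1‖ := by
    field_simp at e
    exact e.symm
  rw [e2] at h
  have h3 : (‖y1‖ ^ 2)⁻¹ ≠ 0 := by positivity
  exact smul_right_injective E h3 h

lemma tie_null {y0 y1 : E} (h0 : y0 ≠ 0) (h1 : y1 ≠ 0) (h : y0 ≠ y1) :
    stdGaussian E {g : E | 2 * ⟪g, y0⟫ / ‖y0‖ ^ 2 = 2 * ⟪g, y1⟫ / ‖y1‖ ^ 2} = 0 := by
  have hw : (‖y0‖ ^ 2)⁻¹ • y0 - (‖y1‖ ^ 2)⁻¹ • y1 ≠ 0 := by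
    intro h2
    exact h (inv_inj h0 h1 (sub_eq_zero.1 h2))
  refine measure_mono_null ?_ (hyperplane_null hw)
  intro g hg
  have hg' : 2 * ⟪g, y0⟫ / ‖y0‖ ^ 2 = 2 * ⟪g, y1⟫ / ‖y1‖ ^ 2 := hg
  change ⟪(‖y0‖ ^ 2)⁻¹ • y0 - (‖y1‖ ^ 2)⁻¹ • y1, g⟫ = 0
  rw [inner_sub_left, real_inner_smul_left, real_inner_smul_left, real_inner_comm g y0,
    real_inner_comm g y1]
  have : ∀ a b : ℝ, 2 * a / b = 2 * (b⁻¹ * a) := by intro a b; ring
  rw [this, this] at hg'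
  linarith

lemma sel_ae {L : AddSubgroup E} (h : Sep 1 L) {y : E → E} (hy : IsSel L y) {y0 : E}
    (hy0 : y0 ≠ 0) : (y ⁻¹' {y0} : Set E) =ᵐ[stdGaussian E] cone L y0 := by
  have hcount := h.countable one_pos
  have hsub : (y ⁻¹' {y0} : Set E) ⊆ cone L y0 := by
    intro g hg
    have hg' : y g = y0 := hg
    have := (hy.2 g).2.2
    rw [hg'] at this
    exact this
  refine Filter.EventuallyLE.antisymm hsub.eventuallyLE ?_
  rw [ae_le_set]
  have hnull : stdGaussian E (⋃ y1 : L, ⋃ (_ : (y1 : E) ≠ 0 ∧ y0 ≠ (y1 : E)),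
      {g : E | 2 * ⟪g, y0⟫ / ‖y0‖ ^ 2 = 2 * ⟪g, (y1 : E)⟫ / ‖(y1 : E)‖ ^ 2}) = 0 := by
    rw [measure_iUnion_null_iff]
    intro y1
    rw [measure_iUnion_null_iff]
    intro hy1
    exact tie_null hy0 hy1.1 hy1.2
  refine measure_mono_null ?_ hnull
  rintro g ⟨hg1, hg2⟩
  have hg2' : y g ≠ y0 := hg2
  refine Set.mem_iUnion.2 ⟨⟨y g, (hy.2 g).1⟩, Set.mem_iUnion.2 ⟨⟨(hy.2 g).2.1, fun h => hg2' h.symm⟩, ?_⟩⟩
  have hg1' : 2 * ⟪g, y0⟫ / ‖y0‖ ^ 2 = nrm L g := hg1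
  change 2 * ⟪g, y0⟫ / ‖y0‖ ^ 2 = 2 * ⟪g, y g⟫ / ‖y g‖ ^ 2
  rw [hg1', (hy.2 g).2.2]

/-! ### integrability -/

lemma integrable_norm_pow (p : ℕ) : Integrable (fun x : E => ‖x‖ ^ p) (stdGaussian E) := by
  have h : MemLp id (p : ℝ≥0∞) (stdGaussian E) :=
    IsGaussian.memLp_id (stdGaussian E) p (by simp)
  exact h.integrable_norm_pow'

lemma norm_nu {L : AddSubgroup E} {y : E → E} (hy : IsSel L y) (g : E) :
    ‖nu y g‖ = 2 / ‖y g‖ := by
  unfold nu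
  have : 0 < ‖y g‖ := norm_pos_iff.2 (hy.2 g).2.1
  rw [norm_smul, norm_div, norm_pow, norm_norm]
  simp only [Real.norm_ofNat]
  field_simp

lemma norm_nu_le {L : AddSubgroup E} (h : Sep 1 L) {y : E → E} (hy : IsSel L y) (g : E) :
    ‖nu y g‖ ≤ 2 := by
  rw [norm_nu hy]
  have := h (y g) (hy.2 g).1 (hy.2 g).2.1
  rw [div_le_iff₀ (by linarith)]
  linarith

lemma norm_nu_mul {L : AddSubgroup E} {y : E → E} (hy : IsSel L y) (g : E) :
    ‖nu y g‖ * ‖y g‖ = 2 := by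
  rw [norm_nu hy]
  have : 0 < ‖y g‖ := norm_pos_iff.2 (hy.2 g).2.1
  field_simp

lemma measurable_nu {L : AddSubgroup E} {y : E → E} (hy : IsSel L y) : Measurable (nu y) := by
  unfold nu
  have := hy.1
  fun_prop

lemma integrable_F {L : AddSubgroup E} (h : Sep 1 L) {y : E → E} (hy : IsSel L y) {q : ℕ}
    (hq : 1 ≤ q) (u v : E) :
    Integrable (fun g => nrm L g ^ (q - 1) * ⟪nu y g, u⟫ * ⟪g, v⟫) (stdGaussian E) := by
  have hm : Measurable (nrm L) := nrm_measurable one_pos h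
  have hn := measurable_nu hy
  have hmeas : Measurable (fun g => nrm L g ^ (q - 1) * ⟪nu y g, u⟫ * ⟪g, v⟫) := by fun_prop
  refine Integrable.mono' ((integrable_norm_pow (E := E) q).const_mul
    (2 ^ (q - 1) * (2 * ‖u‖) * ‖v‖)) hmeas.aestronglyMeasurable (Filter.Eventually.of_forall ?_)
  intro g
  rw [norm_mul, norm_mul, norm_pow]
  have h1 : ‖nrm L g‖ ≤ 2 * ‖g‖ := by
    rw [Real.norm_eq_abs, abs_of_nonneg (nrm_nonneg L g)]; exact nrm_le_two h g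
  have h2 : ‖⟪nu y g, u⟫‖ ≤ 2 * ‖u‖ :=
    (norm_inner_le_norm _ _).trans (mul_le_mul_of_nonneg_right (norm_nu_le h hy g) (norm_nonneg _))
  have h3 : ‖⟪g, v⟫‖ ≤ ‖g‖ * ‖v‖ := norm_inner_le_norm _ _
  calc ‖nrm L g‖ ^ (q - 1) * ‖⟪nu y g, u⟫‖ * ‖⟪g, v⟫‖
      ≤ (2 * ‖g‖) ^ (q - 1) * (2 * ‖u‖) * (‖g‖ * ‖v‖) := by gcongr
    _ = 2 ^ (q - 1) * (2 * ‖u‖) * ‖v‖ * (‖g‖ ^ (q - 1) * ‖g‖) := by rw [mul_pow]; ring
    _ = 2 ^ (q - 1) * (2 * ‖u‖) * ‖v‖ * ‖g‖ ^ q := by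
        rw [← pow_succ, Nat.sub_add_cancel hq]

lemma integrable_G {L : AddSubgroup E} (h : Sep 1 L) {y : E → E} (hy : IsSel L y) (q : ℕ)
    (u v : E) :
    Integrable (fun g => nrm L g ^ q * ⟪nu y g, u⟫ * ⟪y g, v⟫) (stdGaussian E) := by
  have hm : Measurable (nrm L) := nrm_measurable one_pos h
  have hn := measurable_nu hy
  have hy1 := hy.1
  have hmeas : Measurable (fun g => nrm L g ^ q * ⟪nu y g, u⟫ * ⟪y g, v⟫) := by fun_prop
  refine Integrable.mono' ((integrable_norm_pow (E := E) q).const_mul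
    (2 ^ q * (2 * ‖u‖ * ‖v‖))) hmeas.aestronglyMeasurable (Filter.Eventually.of_forall ?_)
  intro g
  rw [norm_mul, norm_mul, norm_pow]
  have h1 : ‖nrm L g‖ ≤ 2 * ‖g‖ := by
    rw [Real.norm_eq_abs, abs_of_nonneg (nrm_nonneg L g)]; exact nrm_le_two h g
  have h2 : ‖⟪nu y g, u⟫‖ ≤ ‖nu y g‖ * ‖u‖ := norm_inner_le_norm _ _
  have h3 : ‖⟪y g, v⟫‖ ≤ ‖y g‖ * ‖v‖ := norm_inner_le_norm _ _
  calc ‖nrm L g‖ ^ q * ‖⟪nu y g, u⟫‖ * ‖⟪y g, v⟫‖
      ≤ (2 * ‖g‖) ^ q * (‖nu y g‖ * ‖u‖) * (‖y g‖ * ‖v‖) := by gcongr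
    _ = 2 ^ q * ‖g‖ ^ q * (‖nu y g‖ * ‖y g‖) * (‖u‖ * ‖v‖) := by rw [mul_pow]; ring
    _ = 2 ^ q * (2 * ‖u‖ * ‖v‖) * ‖g‖ ^ q := by rw [norm_nu_mul hy]; ring

/-! ### the identity on one cone -/

lemma measurePreserving_rfl' (y0 : E) :
    MeasurePreserving (rfl' y0) (stdGaussian E) (stdGaussian E) :=
  ⟨(rfl' y0).continuous.measurable, stdGaussian_map (rfl' y0)⟩

lemma cone_identity {L : AddSubgroup E} (h : Sep 1 L) {y0 : E} (hy0L : y0 ∈ L) (hy0 : y0 ≠ 0)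
    {q : ℕ} (hq : 1 ≤ q) (v : E) :
    2 * ∫ g in cone L y0, nrm L g ^ (q - 1) * ⟪g, v⟫ ∂(stdGaussian E) =
      ∫ g in cone L y0, nrm L g ^ q * ⟪y0, v⟫ ∂(stdGaussian E) := by
  have hm : Measurable (nrm L) := nrm_measurable one_pos h
  have hint1 : Integrable (fun g => nrm L g ^ (q - 1) * ⟪g, v⟫) (stdGaussian E) := by
    have hmeas : Measurable (fun g => nrm L g ^ (q - 1) * ⟪g, v⟫) := by fun_prop
    refine Integrable.mono' ((integrable_norm_pow (E := E) q).const_mul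
      (2 ^ (q - 1) * ‖v‖)) hmeas.aestronglyMeasurable (Filter.Eventually.of_forall ?_)
    intro g
    rw [norm_mul, norm_pow]
    have h1 : ‖nrm L g‖ ≤ 2 * ‖g‖ := by
      rw [Real.norm_eq_abs, abs_of_nonneg (nrm_nonneg L g)]; exact nrm_le_two h g
    have h3 : ‖⟪g, v⟫‖ ≤ ‖g‖ * ‖v‖ := norm_inner_le_norm _ _
    calc ‖nrm L g‖ ^ (q - 1) * ‖⟪g, v⟫‖
        ≤ (2 * ‖g‖) ^ (q - 1) * (‖g‖ * ‖v‖) := by gcongr
      _ = 2 ^ (q - 1) * ‖v‖ * (‖g‖ ^ (q - 1) * ‖g‖) := by rw [mul_pow]; ring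
      _ = 2 ^ (q - 1) * ‖v‖ * ‖g‖ ^ q := by rw [← pow_succ, Nat.sub_add_cancel hq]
  have hint2 : Integrable (fun g => nrm L g ^ q * ⟪y0, v⟫) (stdGaussian E) := by
    apply Integrable.mul_const
    refine Integrable.mono' ((integrable_norm_pow (E := E) q).const_mul
      (2 ^ q)) (hm.pow_const q).aestronglyMeasurable (Filter.Eventually.of_forall ?_)
    intro g
    rw [norm_pow, ← mul_pow]
    have h1 : ‖nrm L g‖ ≤ 2 * ‖g‖ := by
      rw [Real.norm_eq_abs, abs_of_nonneg (nrm_nonneg L g)]; exact nrm_le_two h g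
    gcongr
  have hmp := measurePreserving_rfl' y0
  have hme : MeasurableEmbedding (rfl' y0) := (rfl' y0).toHomeomorph.measurableEmbedding
  have key := hmp.setIntegral_preimage_emb hme (fun g => nrm L g ^ (q - 1) * ⟪g, v⟫) (cone L y0)
  rw [rfl'_preimage_cone h hy0L hy0] at key
  have e1 : ∫ g in cone L y0, nrm L (rfl' y0 g) ^ (q - 1) * ⟪rfl' y0 g, v⟫ ∂(stdGaussian E) =
      ∫ g in cone L y0, (nrm L g ^ q * ⟪y0, v⟫ - nrm L g ^ (q - 1) * ⟪g, v⟫) ∂(stdGaussian E) := by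
    refine setIntegral_congr_fun (measurableSet_cone h y0) ?_
    intro g hg
    simp only
    rw [nrm_rfl' h hy0L hy0 hg, rfl'_of_cone hg, inner_sub_left, real_inner_smul_left]
    have : nrm L g ^ q = nrm L g ^ (q - 1) * nrm L g := by
      rw [← pow_succ, Nat.sub_add_cancel hq]
    rw [this]
    ring
  rw [e1, integral_sub hint2.integrableOn hint1.integrableOn] at key
  linarith

end REFLAux

open REFLAux in
theorem stmt_REFL : Stmt_REFL := by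
  intro E _ _ _ _ _ L h y hy q hq u v
  have hcount := h.countable one_pos
  set F : E → ℝ := fun g => nrm L g ^ (q - 1) * ⟪nu y g, u⟫ * ⟪g, v⟫ with hF
  set G : E → ℝ := fun g => nrm L g ^ q * ⟪nu y g, u⟫ * ⟪y g, v⟫ with hG
  have hFi : Integrable F (stdGaussian E) := integrable_F h hy hq u v
  have hGi : Integrable G (stdGaussian E) := integrable_G h hy q u v
  set A : L → Set E := fun y0 => y ⁻¹' {(y0 : E)} with hA
  have hAm : ∀ i, MeasurableSet (A i) := fun i => hy.1 (measurableSet_singleton _)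
  have hAd : Pairwise (Function.onFun Disjoint A) := by
    intro i j hij
    refine Set.disjoint_left.2 fun g hgi hgj => hij ?_
    have h1 : y g = (i : E) := hgi
    have h2 : y g = (j : E) := hgj
    exact Subtype.ext (h1.symm.trans h2)
  have hAU : (⋃ i, A i) = Set.univ := by
    ext g
    simp only [Set.mem_iUnion, Set.mem_univ, iff_true]
    exact ⟨⟨y g, (hy.2 g).1⟩, rfl⟩
  have s1 := integral_iUnion (μ := stdGaussian E) hAm hAd hFi.integrableOn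
  have s2 := integral_iUnion (μ := stdGaussian E) hAm hAd hGi.integrableOn
  rw [hAU, setIntegral_univ] at s1 s2
  change 2 * ∫ g, F g ∂(stdGaussian E) = ∫ g, G g ∂(stdGaussian E)
  rw [s1, s2, ← tsum_mul_left]
  refine tsum_congr fun y0 => ?_
  by_cases hy0 : (y0 : E) = 0
  · have hempty : A y0 = ∅ := by
      ext g
      simp only [Set.mem_empty_iff_false, iff_false]
      intro hg
      have : y g = (y0 : E) := hg
      exact (hy.2 g).2.1 (this.trans hy0)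
    simp [hempty]
  · have hae := sel_ae h hy hy0
    have e1 : ∫ g in A y0, F g ∂(stdGaussian E) =
        ⟪(2 / ‖(y0 : E)‖ ^ 2) • (y0 : E), u⟫ *
          ∫ g in cone L y0, nrm L g ^ (q - 1) * ⟪g, v⟫ ∂(stdGaussian E) := by
      rw [← integral_const_mul, ← setIntegral_congr_set hae]
      refine setIntegral_congr_fun (hAm y0) ?_
      intro g hg
      have hg' : y g = (y0 : E) := hg
      simp only [hF, nu, hg']
      ring
    have e2 : ∫ g in A y0, G g ∂(stdGaussian E) =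
        ⟪(2 / ‖(y0 : E)‖ ^ 2) • (y0 : E), u⟫ *
          ∫ g in cone L y0, nrm L g ^ q * ⟪(y0 : E), v⟫ ∂(stdGaussian E) := by
      rw [← integral_const_mul, ← setIntegral_congr_set hae]
      refine setIntegral_congr_fun (hAm y0) ?_
      intro g hg
      have hg' : y g = (y0 : E) := hg
      simp only [hG, nu, hg']
      ring
    rw [e1, e2, ← cone_identity h y0.2 hy0 hq v]
    ring

end Pool.Agent.RMLite
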