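import Pool.Agent.RMLite.Basic
import Pool.Agent.RMLite.REFL

/-!
# RM-lite, module NEAR (helper17): a near-maximiser of `Phi q` is nearly isotropic
-/

set_option autoImplicit false
set_option linter.unusedSectionVars false
set_option linter.unusedSimpArgs false

open MeasureTheory ProbabilityTheory Module
open scoped RealInnerProductSpace ENNReal NNReal

namespace Pool.Agent.RMLite

namespace NEARAux

open REFLAux

variable {E : Type} [NormedAddCommGroup E] [InnerProductSpace ℝ E]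
variable [FiniteDimensional ℝ E] [MeasurableSpace E] [BorelSpace E]

lemma integrable_nrm_pow {L : AddSubgroup E} (h : Sep 1 L) (q : ℕ) :
    Integrable (fun g => nrm L g ^ q) (stdGaussian E) := by
  have hm : Measurable (nrm L) := nrm_measurable one_pos h
  refine Integrable.mono' ((integrable_norm_pow (E := E) q).const_mul
    (2 ^ q)) (hm.pow_const q).aestronglyMeasurable (Filter.Eventually.of_forall ?_)
  intro g
  rw [norm_pow, ← mul_pow]
  have h1 : ‖nrm L g‖ ≤ 2 * ‖g‖ := by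
    rw [Real.norm_eq_abs, abs_of_nonneg (nrm_nonneg L g)]; exact nrm_le_two h g
  gcongr

lemma Phi_eq {L : AddSubgroup E} (h : Sep 1 L) (q : ℕ) :
    Phi q L = ENNReal.ofReal (∫ g, nrm L g ^ q ∂(stdGaussian E)) := by
  rw [ofReal_integral_eq_lintegral_ofReal (integrable_nrm_pow h q)
    (Filter.Eventually.of_forall fun g => pow_nonneg (nrm_nonneg L g) q)]
  unfold Phi
  refine lintegral_congr fun g => ?_
  rw [ENNReal.ofReal_pow (nrm_nonneg L g)]

lemma integrable_J {L : AddSubgroup E} (h : Sep 1 L) {q : ℕ} (hq : 1 ≤ q) :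
    Integrable (fun g => nrm L g ^ (q - 1) * ‖g‖) (stdGaussian E) := by
  have hm : Measurable (nrm L) := nrm_measurable one_pos h
  have hmeas : Measurable (fun g => nrm L g ^ (q - 1) * ‖g‖) := by fun_prop
  refine Integrable.mono' ((integrable_norm_pow (E := E) q).const_mul
    (2 ^ (q - 1))) hmeas.aestronglyMeasurable (Filter.Eventually.of_forall ?_)
  intro g
  rw [norm_mul, norm_pow, norm_norm]
  have h1 : ‖nrm L g‖ ≤ 2 * ‖g‖ := by
    rw [Real.norm_eq_abs, abs_of_nonneg (nrm_nonneg L g)]; exact nrm_le_two h g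
  calc ‖nrm L g‖ ^ (q - 1) * ‖g‖
      ≤ (2 * ‖g‖) ^ (q - 1) * ‖g‖ := by gcongr
    _ = 2 ^ (q - 1) * (‖g‖ ^ (q - 1) * ‖g‖) := by rw [mul_pow]; ring
    _ = 2 ^ (q - 1) * ‖g‖ ^ q := by rw [← pow_succ, Nat.sub_add_cancel hq]

lemma J_le {L : AddSubgroup E} (h : Sep 1 L) {q : ℕ} (hq : 1 ≤ q) :
    ∫ g, nrm L g ^ (q - 1) * ‖g‖ ∂(stdGaussian E) ≤
      2 ^ (q - 1) * ∫ g, ‖g‖ ^ q ∂(stdGaussian E) := by
  rw [← integral_const_mul]
  refine integral_mono (integrable_J h hq) ((integrable_norm_pow (E := E) q).const_mul _) ?_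
  intro g
  have h1 : nrm L g ≤ 2 * ‖g‖ := nrm_le_two h g
  have h0 := nrm_nonneg L g
  calc nrm L g ^ (q - 1) * ‖g‖
      ≤ (2 * ‖g‖) ^ (q - 1) * ‖g‖ := by gcongr
    _ = 2 ^ (q - 1) * (‖g‖ ^ (q - 1) * ‖g‖) := by rw [mul_pow]; ring
    _ = 2 ^ (q - 1) * ‖g‖ ^ q := by rw [← pow_succ, Nat.sub_add_cancel hq]

lemma one_side (hP : Stmt_PERT) (hR : Stmt_REFL) {L : AddSubgroup E} (h : Sep 1 L)
    {y : E → E} (hy : IsSel L y) {q : ℕ} (hq : 1 ≤ q) {u v : E} (hu : ‖u‖ = 1) (hv : ‖v‖ = 1)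
    (huv : ⟪u, v⟫ = 0) {s : ℝ} (hs0 : 0 ≤ s) (hs : s ≤ 1 / 4)
    (h' : Sep 1 (lmap (trv s u v) L)) :
    ∫ g, nrm L g ^ q ∂(stdGaussian E) - q * s * NN q L y u v -
        8 * q * s ^ 2 * (2 ^ (q - 1) * ∫ g : E, ‖g‖ ^ q ∂(stdGaussian E))
      ≤ ∫ g, nrm (lmap (trv s u v) L) g ^ q ∂(stdGaussian E) := by
  have hI := integrable_nrm_pow h q
  have hI' := integrable_nrm_pow h' q
  have hF := integrable_F h hy hq u v
  have hG := integrable_G h hy q u v
  have hJ := integrable_J h hq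
  have hrefl := hR E L h y hy q hq u v
  have hpt := hP E L h y hy q hq u v hu hv huv s hs0 hs
  have hstep : ∫ g, (nrm L g ^ q + q * s * (nrm L g ^ (q - 1) * ⟪nu y g, u⟫ * ⟪g, v⟫)
      - q * s * (nrm L g ^ q * ⟪nu y g, u⟫ * ⟪y g, v⟫)
      - 8 * q * s ^ 2 * (nrm L g ^ (q - 1) * ‖g‖)) ∂(stdGaussian E)
      ≤ ∫ g, nrm (lmap (trv s u v) L) g ^ q ∂(stdGaussian E) := by
    refine integral_mono ?_ hI' ?_
    · exact ((hI.add (hF.const_mul _)).sub (hG.const_mul _)).sub (hJ.const_mul _)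
    · intro g
      have hpow : nrm L g ^ q = nrm L g ^ (q - 1) * nrm L g := by
        rw [← pow_succ, Nat.sub_add_cancel hq]
      refine le_trans (le_of_eq ?_) (hpt g)
      simp only
      rw [hpow]
      ring
  have a1 : Integrable (fun g => nrm L g ^ q + q * s * (nrm L g ^ (q - 1) * ⟪nu y g, u⟫ * ⟪g, v⟫))
      (stdGaussian E) := hI.add (hF.const_mul _)
  have a2 : Integrable (fun g => nrm L g ^ q + q * s * (nrm L g ^ (q - 1) * ⟪nu y g, u⟫ * ⟪g, v⟫)
      - q * s * (nrm L g ^ q * ⟪nu y g, u⟫ * ⟪y g, v⟫))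
      (stdGaussian E) := a1.sub (hG.const_mul _)
  rw [integral_sub a2 (hJ.const_mul _), integral_sub a1 (hG.const_mul _),
    integral_add hI (hF.const_mul _), integral_const_mul, integral_const_mul,
    integral_const_mul, ← hrefl] at hstep
  have hNN : NN q L y u v = ∫ g, nrm L g ^ (q - 1) * ⟪nu y g, u⟫ * ⟪g, v⟫ ∂(stdGaussian E) := rfl
  rw [← hNN] at hstep
  have hJle := J_le h hq
  have h8 : 0 ≤ 8 * (q : ℝ) * s ^ 2 := by positivity
  have := mul_le_mul_of_nonneg_left hJle h8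
  linarith

end NEARAux

open NEARAux REFLAux in
theorem stmt_NEAR (hP : Stmt_PERT) (hD : Stmt_DETP) : Stmt_NEAR := by
  intro E _ _ _ _ _ hk q hq S hS δ hδ ε hε
  set M0 : ℝ := 2 ^ (q - 1) * ∫ g : E, ‖g‖ ^ q ∂(stdGaussian E) with hM0
  have hM0n : 0 ≤ M0 := by
    have : 0 ≤ ∫ g : E, ‖g‖ ^ q ∂(stdGaussian E) := integral_nonneg fun g => by positivity
    positivity
  have hq' : (0 : ℝ) < q := by exact_mod_cast hq
  -- choice of s
  obtain ⟨s, hs0, hs1, hs2, hs3⟩ : ∃ s : ℝ, 0 < s ∧ s ≤ 1 / 4 ∧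
      1 ≤ (1 - s) ^ (2 * finrank ℝ E) * (1 + δ) ∧ 8 * s * M0 ≤ ε / 2 := by
    have e1 : ∀ᶠ s : ℝ in nhdsWithin 0 (Set.Ioi 0), 1 ≤ (1 - s) ^ (2 * finrank ℝ E) * (1 + δ) := by
      have ht : Filter.Tendsto (fun s : ℝ => (1 - s) ^ (2 * finrank ℝ E) * (1 + δ))
          (nhdsWithin 0 (Set.Ioi 0)) (nhds ((1 - 0) ^ (2 * finrank ℝ E) * (1 + δ))) := by
        apply Filter.Tendsto.mono_left _ nhdsWithin_le_nhds
        apply Continuous.tendsto
        fun_prop
      have hlt : (1 : ℝ) < (1 - 0) ^ (2 * finrank ℝ E) * (1 + δ) := by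
        rw [sub_zero, one_pow]; linarith
      exact (ht.eventually (lt_mem_nhds hlt)).mono fun s hs => hs.le
    have e2 : ∀ᶠ s : ℝ in nhdsWithin 0 (Set.Ioi 0), 8 * s * M0 ≤ ε / 2 := by
      have ht : Filter.Tendsto (fun s : ℝ => 8 * s * M0)
          (nhdsWithin 0 (Set.Ioi 0)) (nhds (8 * 0 * M0)) := by
        apply Filter.Tendsto.mono_left _ nhdsWithin_le_nhds
        apply Continuous.tendsto
        fun_prop
      have hlt : (8 : ℝ) * 0 * M0 < ε / 2 := by
        rw [mul_zero, zero_mul]; linarith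
      exact (ht.eventually (gt_mem_nhds hlt)).mono fun s hs => hs.le
    have e3 : ∀ᶠ s : ℝ in nhdsWithin 0 (Set.Ioi 0), s ≤ 1 / 4 := by
      apply Filter.Eventually.filter_mono nhdsWithin_le_nhds
      exact (gt_mem_nhds (show (0 : ℝ) < 1 / 4 by norm_num)).mono fun s hs => le_of_lt hs
    have e4 : ∀ᶠ s : ℝ in nhdsWithin 0 (Set.Ioi 0), 0 < s := self_mem_nhdsWithin
    obtain ⟨s, h1, h2, h3, h4⟩ := (e1.and (e2.and (e3.and e4))).exists
    exact ⟨s, h4, h3, h1, h2⟩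
  refine ⟨q * s * (ε / 2), by positivity, ?_⟩
  intro L hL hF hprop hPhi y hy
  -- the one-sided estimate
  have key : ∀ u v : E, ‖u‖ = 1 → ‖v‖ = 1 → ⟪u, v⟫ = 0 → -ε ≤ NN q L y u v := by
    intro u v hu hv huv
    obtain ⟨hSp', hFull'⟩ := hD E L hL hF δ hδ hprop u v hu hv huv s hs0.le (by linarith) hs2
    have h1 := one_side hP stmt_REFL hL.sep hy hq hu hv huv hs0.le hs1 hSp'.sep
    have hb' := hS _ hSp' hFull'
    rw [Phi_eq hSp'.sep, ENNReal.ofReal_le_ofReal_iff'] at hb'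
    have hb := hPhi
    rw [Phi_eq hL.sep, ENNReal.ofReal_le_ofReal_iff'] at hb
    have hIn : 0 ≤ ∫ g, nrm L g ^ q ∂(stdGaussian E) :=
      integral_nonneg fun g => pow_nonneg (nrm_nonneg L g) q
    have hη : 0 < q * s * (ε / 2) := by positivity
    have hdiff : ∫ g, nrm (lmap (trv s u v) L) g ^ q ∂(stdGaussian E) ≤
        ∫ g, nrm L g ^ q ∂(stdGaussian E) + q * s * (ε / 2) := by
      have hb2 : S - q * s * (ε / 2) ≤ ∫ g, nrm L g ^ q ∂(stdGaussian E) := by
        rcases hb with hb | hb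
        · exact hb
        · exact hb.trans hIn
      rcases hb' with hb' | hb'
      · linarith
      · linarith
    rw [← hM0] at h1
    -- -(q s NN) ≤ q s ε/2 + 8 q s² M0 ≤ q s ε
    have h2 : -(q * s * NN q L y u v) ≤ q * s * (ε / 2) + 8 * q * s ^ 2 * M0 := by linarith
    have h3 : 8 * q * s ^ 2 * M0 ≤ q * s * (ε / 2) := by
      calc 8 * q * s ^ 2 * M0 = q * s * (8 * s * M0) := by ring
        _ ≤ q * s * (ε / 2) := by
            apply mul_le_mul_of_nonneg_left hs3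
            positivity
    have h4 : (q * s) * (-ε) ≤ (q * s) * NN q L y u v := by nlinarith
    exact le_of_mul_le_mul_left h4 (by positivity)
  intro u v hu hv huv
  rw [abs_le]
  refine ⟨key u v hu hv huv, ?_⟩
  have h1 := key u (-v) hu (by rw [norm_neg]; exact hv) (by rw [inner_neg_right, huv, neg_zero])
  have h2 : NN q L y u (-v) = - NN q L y u v := by
    unfold NN
    rw [← integral_neg]
    refine integral_congr_ae (Filter.Eventually.of_forall fun g => ?_)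
    simp only [inner_neg_right]
    ring
  rw [h2] at h1
  linarith

end Pool.Agent.RMLite
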