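import Pool.Agent.RMLite.Defs

/-!
# RM-lite, module PROD: the standard Gaussian splits along an orthogonal decomposition
-/

set_option autoImplicit false

open MeasureTheory ProbabilityTheory Module Complex
open scoped RealInnerProductSpace ENNReal NNReal

namespace Pool.Agent.RMLite

theorem stmt_PROD : Stmt_PROD := by
  intro E _ _ _ _ _ W
  have hmeas : Measurable (fun x : E =>
      (W.orthogonalProjectionOnto x, Wᗮ.orthogonalProjectionOnto x)) := by
    have h1 : Continuous (fun x : E => W.orthogonalProjectionOnto x) :=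
      (W.orthogonalProjectionOnto : E →L[ℝ] W).continuous
    have h2 : Continuous (fun x : E => Wᗮ.orthogonalProjectionOnto x) :=
      (Wᗮ.orthogonalProjectionOnto : E →L[ℝ] (Wᗮ : Submodule ℝ E)).continuous
    exact (h1.prodMk h2).measurable
  have : IsProbabilityMeasure ((stdGaussian E).map (fun x : E =>
      (W.orthogonalProjectionOnto x, Wᗮ.orthogonalProjectionOnto x))) :=
    Measure.isProbabilityMeasure_map hmeas.aemeasurable
  refine charFun_eq_prod_iff.1 ?_
  intro t
  rw [Measure.map_map (by fun_prop) hmeas, charFun_apply,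
    integral_map (by
      have : Measurable ((WithLp.toLp 2 : W × (Wᗮ : Submodule ℝ E) → _) ∘ (fun x : E =>
        (W.orthogonalProjectionOnto x, Wᗮ.orthogonalProjectionOnto x))) :=
        (by fun_prop : Measurable (WithLp.toLp 2 : W × (Wᗮ : Submodule ℝ E) → _)).comp hmeas
      exact this.aemeasurable) (by fun_prop)]
  have key : ∀ x : E, ⟪(WithLp.toLp 2 (W.orthogonalProjectionOnto x,
      Wᗮ.orthogonalProjectionOnto x) : WithLp 2 (W × (Wᗮ : Submodule ℝ E))), t⟫ =
      ⟪x, ((t.fst : W) : E) + ((t.snd : (Wᗮ : Submodule ℝ E)) : E)⟫ := by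
    intro x
    rw [WithLp.prod_inner_apply, inner_add_right]
    congr 1
    · exact Submodule.inner_orthogonalProjectionOnto_eq_of_mem_right (t.fst : W) x
    · exact Submodule.inner_orthogonalProjectionOnto_eq_of_mem_right
        (t.snd : (Wᗮ : Submodule ℝ E)) x
  simp only [Function.comp_apply]
  simp_rw [key]
  rw [← charFun_apply, charFun_stdGaussian, charFun_stdGaussian, charFun_stdGaussian,
    ← Complex.exp_add]
  congr 1
  have horth : ⟪((t.fst : W) : E), ((t.snd : (Wᗮ : Submodule ℝ E)) : E)⟫ = 0 :=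
    Submodule.inner_right_of_mem_orthogonal (t.fst : W).2 (t.snd : (Wᗮ : Submodule ℝ E)).2
  have hn : ‖((t.fst : W) : E) + ((t.snd : (Wᗮ : Submodule ℝ E)) : E)‖ ^ 2 =
      ‖((t.fst : W) : E)‖ ^ 2 + ‖((t.snd : (Wᗮ : Submodule ℝ E)) : E)‖ ^ 2 := by
    rw [@norm_add_sq_real, horth]; ring
  have hn' : ((‖((t.fst : W) : E) + ((t.snd : (Wᗮ : Submodule ℝ E)) : E)‖ : ℂ)) ^ 2 =
      (‖((t.fst : W) : E)‖ : ℂ) ^ 2 + (‖((t.snd : (Wᗮ : Submodule ℝ E)) : E)‖ : ℂ) ^ 2 := by
    exact_mod_cast congrArg (fun r : ℝ => (r : ℂ)) hn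
  rw [hn']
  simp only [Submodule.coe_norm]
  ring_nf
  rfl

end Pool.Agent.RMLite
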