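import Pool.Agent.RMLite.Defs

/-!
# RM-lite, module PERT: pointwise lower bound for the gauge of a transvected lattice.
-/

set_option autoImplicit false

open MeasureTheory ProbabilityTheory Module
open scoped RealInnerProductSpace ENNReal NNReal

namespace Pool.Agent.RMLite

namespace PERTAux

/-- tangent line inequality for powers. -/
theorem pow_tangent (q : ℕ) (hq : 1 ≤ q) (z r : ℝ) (hz : 0 ≤ z) (hr : 0 ≤ r) :
    r ^ q + q * r ^ (q - 1) * (z - r) ≤ z ^ q := by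
  obtain ⟨n, rfl⟩ : ∃ n, q = n + 1 := ⟨q - 1, by omega⟩
  simp only [Nat.add_sub_cancel]
  clear hq
  induction n with
  | zero => simp
  | succ n ih =>
    have h1 := mul_le_mul_of_nonneg_left ih hz
    have h2 : 0 ≤ r ^ n * (z - r) ^ 2 := by positivity
    push_cast at h1 ⊢
    have h3 : z ^ (n + 1 + 1) = z * z ^ (n + 1) := by ring
    rw [h3]
    have h4 : r ^ (n + 1 + 1) + ((n : ℝ) + 1 + 1) * r ^ (n + 1) * (z - r)
        = z * (r ^ (n + 1) + ((n : ℝ) + 1) * r ^ n * (z - r))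
          - ((n : ℝ) + 1) * (r ^ n * (z - r) ^ 2) := by
      ring
    rw [h4]
    have h5 : 0 ≤ ((n : ℝ) + 1) * (r ^ n * (z - r) ^ 2) := by positivity
    linarith

variable {E : Type} [NormedAddCommGroup E] [InnerProductSpace ℝ E]

theorem trv_apply (s : ℝ) (u v x : E) : trv s u v x = x + s • (⟪u, x⟫ • v) := by
  simp [trv]

/-- lower bound for the norm of the image. -/
theorem norm_trv_ge (s : ℝ) (hs : 0 ≤ s) (u v : E) (hu : ‖u‖ = 1) (hv : ‖v‖ = 1) (x : E) :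
    (1 - s) * ‖x‖ ≤ ‖trv s u v x‖ := by
  rw [trv_apply]
  have h1 : ‖s • (⟪u, x⟫ • v)‖ ≤ s * ‖x‖ := by
    rw [norm_smul, norm_smul, hv, mul_one, Real.norm_of_nonneg hs]
    refine mul_le_mul_of_nonneg_left ?_ hs
    have := abs_real_inner_le_norm u x
    rw [hu, one_mul] at this
    exact this
  have h2 : ‖x‖ ≤ ‖x + s • (⟪u, x⟫ • v)‖ + ‖s • (⟪u, x⟫ • v)‖ := by
    have := norm_sub_le (x + s • (⟪u, x⟫ • v)) (s • (⟪u, x⟫ • v))
    simpa using this
  nlinarith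

/-- the supremum defining the gauge is bounded for a separated lattice. -/
theorem bdd (M : AddSubgroup E) (c : ℝ) (hc : 0 < c) (hM : Sep c M) (g : E) :
    BddAbove (Set.range fun y : M => 2 * ⟪g, (y : E)⟫ / ‖(y : E)‖ ^ 2) := by
  refine ⟨2 * ‖g‖ / c, ?_⟩
  rintro _ ⟨y, rfl⟩
  by_cases hy : (y : E) = 0
  · simp only [hy, inner_zero_right, mul_zero, norm_zero, zero_div]
    positivity
  · have h1 : c ≤ ‖(y : E)‖ := hM _ y.2 hy
    have hpos : 0 < ‖(y : E)‖ := lt_of_lt_of_le hc h1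
    have h2 : ⟪g, (y : E)⟫ ≤ ‖g‖ * ‖(y : E)‖ := real_inner_le_norm _ _
    have h3 : 2 * ⟪g, (y : E)⟫ / ‖(y : E)‖ ^ 2 ≤ 2 * ‖g‖ / ‖(y : E)‖ := by
      rw [div_le_div_iff₀ (by positivity) hpos]
      nlinarith [norm_nonneg g]
    refine h3.trans ?_
    exact div_le_div_of_nonneg_left (by positivity) hc h1

theorem le_nrm (M : AddSubgroup E) (c : ℝ) (hc : 0 < c) (hM : Sep c M) (g : E) (y : E)
    (hy : y ∈ M) : 2 * ⟪g, y⟫ / ‖y‖ ^ 2 ≤ nrm M g := by
  have := le_ciSup (bdd M c hc hM g) ⟨y, hy⟩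
  exact this

theorem nrm_nonneg (M : AddSubgroup E) (c : ℝ) (hc : 0 < c) (hM : Sep c M) (g : E) :
    0 ≤ nrm M g := by
  have := le_nrm M c hc hM g 0 M.zero_mem
  simpa using this

theorem sep_lmap (L : AddSubgroup E) (hL : Sep 1 L) (s : ℝ) (hs : 0 ≤ s) (hs' : s ≤ 1 / 4)
    (u v : E) (hu : ‖u‖ = 1) (hv : ‖v‖ = 1) : Sep (3 / 4) (lmap (trv s u v) L) := by
  rintro z ⟨x, hx, rfl⟩ hz
  have hx0 : x ≠ 0 := by
    rintro rfl
    exact hz (map_zero _)
  have h1 := hL x hx hx0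
  have h2 := norm_trv_ge s hs u v hu hv x
  change 3 / 4 ≤ ‖trv s u v x‖
  nlinarith

end PERTAux

open PERTAux in
theorem stmt_PERT : Stmt_PERT := by
  intro E _ _ _ _ _ L hL y hy q hq u v hu hv huv s hs hs' g
  obtain ⟨-, hy⟩ := hy
  obtain ⟨hyL, hy0, hyg⟩ := hy g
  set Y := y g with hY
  set ρ := nrm L g with hρ
  have hρ0 : 0 ≤ ρ := nrm_nonneg L 1 one_pos hL g
  have hsep := sep_lmap L hL s hs hs' u v hu hv
  set Z := nrm (lmap (trv s u v) L) g with hZ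
  have hZ0 : 0 ≤ Z := nrm_nonneg _ (3 / 4) (by norm_num) hsep g
  have hmem : trv s u v Y ∈ lmap (trv s u v) L := ⟨Y, hyL, rfl⟩
  have hZ1 : 2 * ⟪g, trv s u v Y⟫ / ‖trv s u v Y‖ ^ 2 ≤ Z :=
    le_nrm _ (3 / 4) (by norm_num) hsep g _ hmem
  have hYn : 1 ≤ ‖Y‖ := hL Y hyL hy0
  set n := ‖Y‖ with hn
  have hn0 : 0 < n := lt_of_lt_of_le one_pos hYn
  -- basic scalars
  set α := ⟪u, Y⟫ with hα
  set β := ⟪v, Y⟫ with hβ
  set γ := ⟪g, v⟫ with hγ
  have hnu : ⟪nu y g, u⟫ = 2 / n ^ 2 * α := by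
    simp only [nu, ← hY, real_inner_smul_left]
    rw [real_inner_comm]
  have hYv : ⟪y g, v⟫ = β := by rw [← hY, real_inner_comm]
  have hbessel : α ^ 2 + β ^ 2 ≤ n ^ 2 := by
    have h1 : 0 ≤ ‖Y - α • u - β • v‖ ^ 2 := by positivity
    rw [← real_inner_self_eq_norm_sq] at h1
    simp only [inner_sub_left, inner_sub_right, real_inner_smul_left, real_inner_smul_right,
      real_inner_self_eq_norm_sq, norm_smul, Real.norm_eq_abs, mul_pow, sq_abs, hu, hv, huv] at h1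
    rw [real_inner_comm u Y, real_inner_comm v Y, real_inner_comm u v, huv] at h1
    rw [← hα, ← hβ, ← hn] at h1
    nlinarith
  have hγg : |γ| ≤ ‖g‖ := by
    have := abs_real_inner_le_norm g v
    rwa [hv, mul_one] at this
  have hG : trv s u v Y = Y + s • (α • v) := trv_apply s u v Y
  have hGn : ‖trv s u v Y‖ ^ 2 = n ^ 2 + 2 * s * α * β + s ^ 2 * α ^ 2 := by
    rw [hG, ← real_inner_self_eq_norm_sq]
    simp only [inner_add_left, inner_add_right, real_inner_smul_left, real_inner_smul_right,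
      real_inner_self_eq_norm_sq, norm_smul, Real.norm_eq_abs, mul_pow, sq_abs, hv]
    rw [real_inner_comm v Y, ← hβ, ← hn]
    ring
  have hGg : 2 * ⟪g, trv s u v Y⟫ = n ^ 2 * ρ + 2 * s * α * γ := by
    rw [hG]
    simp only [inner_add_right, real_inner_smul_right]
    have : 2 * ⟪g, Y⟫ = n ^ 2 * ρ := by
      rw [← hyg]
      field_simp
    rw [← hγ]
    linarith
  -- normalised scalars
  set a := 2 / n ^ 2 * α * γ with ha
  set b := 2 / n ^ 2 * α * β with hb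
  set e := α ^ 2 / n ^ 2 with he
  have hn2 : 0 < n ^ 2 := by positivity
  have he0 : 0 ≤ e := by positivity
  have he1 : e ≤ 1 := by
    rw [he, div_le_one hn2]
    nlinarith [sq_nonneg β]
  have hb1 : |b| ≤ 1 := by
    rw [hb, abs_le]
    have h1 : 2 / n ^ 2 * α * β = (2 * α * β) / n ^ 2 := by ring
    rw [h1]
    constructor
    · rw [le_div_iff₀ hn2]
      nlinarith [sq_nonneg (α + β)]
    · rw [div_le_one hn2]
      nlinarith [sq_nonneg (α - β)]
  have hαn : |α| ≤ n := by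
    have := abs_real_inner_le_norm u Y
    rwa [hu, one_mul] at this
  have ha1 : |a| ≤ 2 * ‖g‖ := by
    rw [ha, abs_mul, abs_mul, abs_of_pos (by positivity : (0 : ℝ) < 2 / n ^ 2)]
    have h1 : 2 / n ^ 2 * |α| ≤ 2 := by
      have : 2 / n ^ 2 * |α| ≤ 2 / n ^ 2 * n := mul_le_mul_of_nonneg_left hαn (by positivity)
      refine this.trans ?_
      have h2 : 2 / n ^ 2 * n = 2 / n := by
        field_simp
      rw [h2, div_le_iff₀ hn0]
      linarith
    have := mul_le_mul h1 hγg (abs_nonneg _) (by norm_num)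
    exact this
  have hρ1 : ρ ≤ 2 * ‖g‖ := by
    rw [← hyg, div_le_iff₀ hn2]
    have h1 : ⟪g, Y⟫ ≤ ‖g‖ * n := real_inner_le_norm _ _
    have h2 : ‖g‖ * n ≤ ‖g‖ * n ^ 2 := by
      refine mul_le_mul_of_nonneg_left ?_ (norm_nonneg _)
      nlinarith
    nlinarith
  have hb2 := abs_le.1 hb1
  have ha2 := abs_le.1 ha1
  have hs2 : s ^ 2 ≤ 1 / 16 := by nlinarith
  -- the denominators
  have hden : 0 < 1 + s * b + s ^ 2 * e := by nlinarith [mul_nonneg (sq_nonneg s) he0]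
  have hquot : 2 * ⟪g, trv s u v Y⟫ / ‖trv s u v Y‖ ^ 2
      = (ρ + s * a) / (1 + s * b + s ^ 2 * e) := by
    rw [hGg, hGn]
    have h1 : n ^ 2 * ρ + 2 * s * α * γ = n ^ 2 * (ρ + s * a) := by
      rw [ha]; field_simp
    have h2 : n ^ 2 + 2 * s * α * β + s ^ 2 * α ^ 2 = n ^ 2 * (1 + s * b + s ^ 2 * e) := by
      rw [hb, he]; field_simp
    rw [h1, h2, mul_div_mul_left _ _ hn2.ne']
  rw [hquot] at hZ1
  -- X ≤ Z
  have hX : (ρ + s * a) * (1 - s * b - s ^ 2 * e) ≤ Z := by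
    have hc : 0 ≤ 1 - s * b - s ^ 2 * e := by
      nlinarith [mul_nonneg (sq_nonneg s) he0, mul_le_mul_of_nonneg_left he1 (sq_nonneg s)]
    rcases le_or_gt 0 (ρ + s * a) with h | h
    · refine le_trans ?_ hZ1
      rw [le_div_iff₀ hden]
      nlinarith [mul_nonneg h (sq_nonneg (s * b + s ^ 2 * e))]
    · have : (ρ + s * a) * (1 - s * b - s ^ 2 * e) ≤ 0 :=
        mul_nonpos_of_nonpos_of_nonneg h.le hc
      linarith
  have hXρ : s * (a - ρ * b) - 8 * s ^ 2 * ‖g‖ ≤ Z - ρ := by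
    have h1 : (ρ + s * a) * (1 - s * b - s ^ 2 * e) - ρ
        = s * (a - ρ * b) - s ^ 2 * (ρ * e + a * b + s * a * e) := by ring
    have h2 : ρ * e ≤ 2 * ‖g‖ := by
      calc ρ * e ≤ ρ * 1 := mul_le_mul_of_nonneg_left he1 hρ0
        _ ≤ 2 * ‖g‖ := by linarith
    have h3 : a * b ≤ 2 * ‖g‖ := by
      calc a * b ≤ |a * b| := le_abs_self _
        _ = |a| * |b| := abs_mul _ _
        _ ≤ (2 * ‖g‖) * 1 := mul_le_mul ha1 hb1 (abs_nonneg _) (by positivity)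
        _ = 2 * ‖g‖ := by ring
    have h4 : s * a * e ≤ 2 * ‖g‖ := by
      calc s * a * e ≤ |s * a * e| := le_abs_self _
        _ = s * |a| * e := by
          rw [abs_mul, abs_mul, abs_of_nonneg hs, abs_of_nonneg he0]
        _ ≤ 1 * (2 * ‖g‖) * 1 := by
          refine mul_le_mul (mul_le_mul (by linarith) ha1 (abs_nonneg _) (by norm_num)) he1 he0
            (by positivity)
        _ = 2 * ‖g‖ := by ring
    have h5 : s ^ 2 * (ρ * e + a * b + s * a * e) ≤ s ^ 2 * (8 * ‖g‖) := by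
      refine mul_le_mul_of_nonneg_left ?_ (sq_nonneg s)
      linarith [norm_nonneg g]
    linarith
  have hT := pow_tangent q hq Z ρ hZ0 hρ0
  rw [hnu, hYv]
  have h6 : 2 / n ^ 2 * α * γ - ρ * (2 / n ^ 2 * α * β) = a - ρ * b := by rw [ha, hb]
  rw [h6]
  have h7 : 0 ≤ (q : ℝ) * ρ ^ (q - 1) := by positivity
  have h8 := mul_le_mul_of_nonneg_left hXρ h7
  have h9 : ρ ^ q + q * s * ρ ^ (q - 1) * (a - ρ * b) - 8 * q * s ^ 2 * ρ ^ (q - 1) * ‖g‖
      = ρ ^ q + q * ρ ^ (q - 1) * (s * (a - ρ * b) - 8 * s ^ 2 * ‖g‖) := by ring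
  rw [h9]
  linarith

end Pool.Agent.RMLite
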