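import Pool.Agent.RMLite.Defs

/-!
# RM-lite, module QUOT (helper36): restriction and projection of a lattice with all
sublattice determinants at least one.
-/

set_option autoImplicit false

open Module Matrix
open scoped RealInnerProductSpace

namespace Pool.Agent.RMLite

namespace QUOTAux

variable {E : Type} [NormedAddCommGroup E] [InnerProductSpace ℝ E]

lemma gramM_eq {r : ℕ} (y : Fin r → E) : gramM y = Matrix.gram ℝ y := rfl

/-- Gram matrix of linear combinations. -/
lemma gram_comb {ι κ : Type*} [Fintype ι] (v : ι → E) (N : Matrix ι κ ℝ) :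
    Matrix.gram ℝ (fun j => ∑ i, N i j • v i) = Nᵀ * Matrix.gram ℝ v * N := by
  ext a b
  simp only [Matrix.gram_apply, sum_inner, inner_sum, inner_smul_left, inner_smul_right,
    Matrix.mul_apply, Matrix.transpose_apply, conj_trivial]
  refine Finset.sum_congr rfl fun i _ => ?_
  rw [Finset.sum_mul, Finset.mul_sum]
  refine Finset.sum_congr rfl fun j _ => ?_
  ring

/-- Gram determinant of a family `(y, x)` in terms of the projection of `x` to `span(y)ᗮ`. -/
lemma det_gram_sum {ι κ : Type*} [Fintype ι] [Fintype κ] [DecidableEq ι] [DecidableEq κ]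
    (y : ι → E) (x p : κ → E)
    (h1 : ∀ j, x j - p j ∈ Submodule.span ℝ (Set.range y)) (h2 : ∀ i j, ⟪y i, p j⟫ = 0) :
    (Matrix.gram ℝ (Sum.elim y x)).det = (Matrix.gram ℝ y).det * (Matrix.gram ℝ p).det := by
  have h1' : ∀ j, ∃ c : ι → ℝ, ∑ i, c i • y i = x j - p j := fun j =>
    (Submodule.mem_span_range_iff_exists_fun ℝ).1 (h1 j)
  choose c hc using h1'
  have e1 : Sum.elim y x = fun j => ∑ i, (Matrix.fromBlocks (1 : Matrix ι ι ℝ)
      (Matrix.of fun i j => c j i) 0 (1 : Matrix κ κ ℝ)) i j • (Sum.elim y p) i := by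
    ext j
    rw [Fintype.sum_sum_type]
    cases j with
    | inl j => simp [Matrix.one_apply, ite_smul]
    | inr j =>
      simp [Matrix.one_apply, ite_smul, hc]
  rw [e1, gram_comb, Matrix.det_mul, Matrix.det_mul, Matrix.det_transpose,
    Matrix.det_fromBlocks_zero₂₁, Matrix.det_one, Matrix.det_one, one_mul, one_mul, mul_one]
  have e2 : Matrix.gram ℝ (Sum.elim y p) =
      Matrix.fromBlocks (Matrix.gram ℝ y) 0 0 (Matrix.gram ℝ p) := by
    ext a b
    cases a with
    | inl a =>
      cases b with
      | inl b => simp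
      | inr b => simp [h2]
    | inr a =>
      cases b with
      | inl b => simp [real_inner_comm, h2]
      | inr b => simp
  rw [e2, Matrix.det_fromBlocks_zero₂₁]

end QUOTAux

open QUOTAux

theorem stmt_QUOT : Stmt_QUOT := by
  intro E _ _ _ L hSp hFull r y hy hli D hD hdet
  set W : Submodule ℝ E := Submodule.span ℝ (Set.range y) with hW
  have hyW : ∀ i, y i ∈ W := fun i => Submodule.subset_span ⟨i, rfl⟩
  have hD0 : 0 < D := lt_of_lt_of_le one_pos hD
  refine ⟨?_, ?_, ?_, ?_⟩
  · intro m z hz hzli
    have h := hSp m (fun i => (z i : E)) (fun i => hz i)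
      (hzli.map' W.subtype (Submodule.ker_subtype W))
    exact h
  · rw [Full, eq_top_iff]
    have h1 : Submodule.span ℝ (Set.range fun i => (⟨y i, hyW i⟩ : W)) = ⊤ := by
      have := Submodule.span_range_subtype_eq_top_iff W (s := y) hyW
      exact this.2 rfl
    rw [← h1]
    apply Submodule.span_mono
    rintro _ ⟨i, rfl⟩
    exact hy i
  · intro m z hz hzli
    have hex : ∀ i, ∃ x : E, x ∈ L ∧ D • (Wᗮ.orthogonalProjectionOnto x) = z i := by
      intro i
      obtain ⟨w, hw, hwz⟩ := hz i
      obtain ⟨x, hx, hxw⟩ := hw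
      refine ⟨x, hx, ?_⟩
      rw [← hwz, ← hxw]
      rfl
    choose x hxL hxz using hex
    rcases Nat.eq_zero_or_pos m with rfl | hm
    · simp [gramM]
    set p : Fin m → E := fun j => ((Wᗮ.orthogonalProjectionOnto (x j) : Wᗮ) : E) with hp
    have hz' : (fun i => (z i : E)) = fun i => D • p i := by
      ext i
      rw [← hxz i]
      rfl
    have hgz : gramM z = D ^ 2 • Matrix.gram ℝ p := by
      ext a b
      have h1 : gramM z a b = ⟪(z a : E), (z b : E)⟫ := rfl
      rw [h1, show (z a : E) = D • p a from congrFun hz' a,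
        show (z b : E) = D • p b from congrFun hz' b]
      simp [inner_smul_left, inner_smul_right]
      ring
    have hsum : (Matrix.gram ℝ (Sum.elim y x)).det
        = (Matrix.gram ℝ y).det * (Matrix.gram ℝ p).det := by
      apply det_gram_sum
      · intro j
        have h1 := Submodule.sub_starProjection_mem_orthogonal (K := Wᗮ) (x j)
        rw [Submodule.orthogonal_orthogonal] at h1
        exact h1
      · intro i j
        exact (Submodule.mem_orthogonal _ _).1 (Wᗮ.orthogonalProjectionOnto (x j)).2 _ (hyW i)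
    have hygt : 0 < (Matrix.gram ℝ y).det :=
      (Matrix.posDef_gram_of_linearIndependent hli).det_pos
    have hpli : LinearIndependent ℝ p := by
      have h1 : LinearIndependent ℝ (fun i => (z i : E)) :=
        hzli.map' (Wᗮ).subtype (Submodule.ker_subtype _)
      rw [hz'] at h1
      have h2 := h1.units_smul (fun _ => (Units.mk0 D hD0.ne')⁻¹)
      convert h2 using 1
      ext i
      simp [Units.smul_def, smul_smul, hD0.ne']
    have hpgt : 0 < (Matrix.gram ℝ p).det :=
      (Matrix.posDef_gram_of_linearIndependent hpli).det_pos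
    have hslip : LinearIndependent ℝ (Sum.elim y x) := by
      apply Matrix.linearIndependent_of_det_gram_ne_zero (𝕜 := ℝ)
      rw [hsum]
      positivity
    have hone : 1 ≤ (Matrix.gram ℝ (Sum.elim y x)).det := by
      have h1 := hSp (r + m) (Sum.elim y x ∘ finSumFinEquiv.symm) (by
        intro i
        rcases h : finSumFinEquiv.symm i with a | a
        · simp [h, hy]
        · simp [h, hxL]) (hslip.comp _ finSumFinEquiv.symm.injective)
      have h2 : gramM (Sum.elim y x ∘ finSumFinEquiv.symm) =
          (Matrix.gram ℝ (Sum.elim y x)).submatrix finSumFinEquiv.symm finSumFinEquiv.symm := rfl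
      rw [h2, Matrix.det_submatrix_equiv_self] at h1
      exact h1
    rw [hgz, Matrix.det_smul, Fintype.card_fin, ← pow_mul]
    have h3 : D ^ 2 ≤ D ^ (2 * m) := pow_le_pow_right₀ hD (by omega)
    have h4 : (Matrix.gram ℝ y).det ≤ D ^ 2 := hdet
    calc (1 : ℝ) ≤ (Matrix.gram ℝ y).det * (Matrix.gram ℝ p).det := by rw [← hsum]; exact hone
      _ ≤ D ^ 2 * (Matrix.gram ℝ p).det := by gcongr
      _ ≤ D ^ (2 * m) * (Matrix.gram ℝ p).det := by gcongr
  · rw [Full, eq_top_iff]
    intro w _
    have hw : (w : E) ∈ Submodule.span ℝ (L : Set E) := by rw [hFull]; trivial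
    have hmem : ∀ e ∈ Submodule.span ℝ (L : Set E), Wᗮ.orthogonalProjectionOnto e ∈
        Submodule.span ℝ ((scale D (quot W L) : AddSubgroup Wᗮ) : Set Wᗮ) := by
      intro e he
      induction he using Submodule.span_induction with
      | mem x hx =>
        have h1 : D • (Wᗮ.orthogonalProjectionOnto x) ∈
            ((scale D (quot W L) : AddSubgroup Wᗮ) : Set Wᗮ) :=
          ⟨Wᗮ.orthogonalProjectionOnto x, ⟨x, hx, rfl⟩, rfl⟩
        have h2 := Submodule.smul_mem _ D⁻¹ (Submodule.subset_span (R := ℝ) h1)
        rwa [smul_smul, inv_mul_cancel₀ hD0.ne', one_smul] at h2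
      | zero => simp
      | add x y _ _ hx hy => rw [map_add]; exact Submodule.add_mem _ hx hy
      | smul a x _ hx => rw [map_smul]; exact Submodule.smul_mem _ a hx
    have h2 := hmem _ hw
    rwa [Submodule.orthogonalProjectionOnto_mem_subspace_eq_self] at h2

end Pool.Agent.RMLite
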