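import Pool.Agent.RMLite.Defs

/-!
# RM-lite, module SEL: measurable selection of the maximiser
-/

set_option autoImplicit false
set_option linter.unusedSectionVars false

open MeasureTheory ProbabilityTheory Module
open scoped RealInnerProductSpace ENNReal NNReal

namespace Pool.Agent.RMLite

namespace SELAux

variable {E : Type} [NormedAddCommGroup E] [InnerProductSpace ℝ E] [FiniteDimensional ℝ E]

lemma discrete {L : AddSubgroup E} {c : ℝ} (hc : 0 < c) (hL : Sep c L) :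
    DiscreteTopology L := by
  refine DiscreteTopology.of_forall_le_dist (r := c) hc ?_
  intro a b hab
  have : c ≤ ‖((a : E) - b)‖ :=
    hL _ (L.sub_mem a.2 b.2) (sub_ne_zero.2 fun h => hab (Subtype.ext h))
  rwa [Subtype.dist_eq, dist_eq_norm]

lemma finite_ball {L : AddSubgroup E} {c : ℝ} (hc : 0 < c) (hL : Sep c L) (R : ℝ) :
    {y : E | y ∈ L ∧ ‖y‖ ≤ R}.Finite := by
  have := discrete hc hL
  have hcl : IsClosed (L : Set E) := AddSubgroup.isClosed_of_discrete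
  have hd : IsDiscrete (L : Set E) := ⟨inferInstanceAs (DiscreteTopology L)⟩
  have h := Metric.finite_isBounded_inter_isClosed (K := Metric.closedBall (0 : E) R)
    (s := (L : Set E)) hd Metric.isBounded_closedBall hcl
  refine h.subset fun y hy => ⟨?_, hy.1⟩
  simpa [Metric.mem_closedBall, dist_zero_right] using hy.2

lemma countable {L : AddSubgroup E} {c : ℝ} (hc : 0 < c) (hL : Sep c L) :
    (L : Set E).Countable := by
  have : (L : Set E) ⊆ ⋃ n : ℕ, {y : E | y ∈ L ∧ ‖y‖ ≤ n} := by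
    intro y hy
    obtain ⟨n, hn⟩ := exists_nat_ge ‖y‖
    exact Set.mem_iUnion.2 ⟨n, hy, hn⟩
  exact (Set.countable_iUnion fun n : ℕ => (finite_ball hc hL (n : ℝ)).countable).mono this

lemma term_le {L : AddSubgroup E} {c : ℝ} (hc : 0 < c) (hL : Sep c L) (x : E) (y : E)
    (hy : y ∈ L) : 2 * ⟪x, y⟫ / ‖y‖ ^ 2 ≤ 2 * ‖x‖ / c := by
  by_cases h0 : y = 0
  · subst h0; simp; positivity
  have h1 : c ≤ ‖y‖ := hL y hy h0
  have h2 : 0 < ‖y‖ := lt_of_lt_of_le hc h1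
  have h3 : ⟪x, y⟫ ≤ ‖x‖ * ‖y‖ := real_inner_le_norm x y
  rw [div_le_div_iff₀ (by positivity) hc]
  have h4 : 2 * ⟪x, y⟫ * c ≤ 2 * (‖x‖ * ‖y‖) * c := by nlinarith
  have h5 : 2 * (‖x‖ * ‖y‖) * c ≤ 2 * (‖x‖ * ‖y‖) * ‖y‖ := by
    have : 0 ≤ 2 * (‖x‖ * ‖y‖) := by positivity
    nlinarith
  nlinarith

lemma bdd {L : AddSubgroup E} {c : ℝ} (hc : 0 < c) (hL : Sep c L) (x : E) :
    BddAbove (Set.range fun y : L => 2 * ⟪x, (y : E)⟫ / ‖(y : E)‖ ^ 2) := by
  refine ⟨2 * ‖x‖ / c, ?_⟩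
  rintro _ ⟨y, rfl⟩
  exact term_le hc hL x y y.2

lemma exists_max {L : AddSubgroup E} {c : ℝ} (hc : 0 < c) (hL : Sep c L) (hne : L ≠ ⊥) (x : E) :
    ∃ y ∈ L, y ≠ 0 ∧ 2 * ⟪x, y⟫ / ‖y‖ ^ 2 = nrm L x := by
  obtain ⟨y0, hy0, hy0ne⟩ : ∃ y ∈ L, y ≠ (0 : E) := by
    obtain ⟨a, ha⟩ := AddSubgroup.ne_bot_iff_exists_ne_zero.1 hne
    exact ⟨a, a.2, fun h => ha (Subtype.ext h)⟩
  have hle : ∀ y ∈ L, 2 * ⟪x, y⟫ / ‖y‖ ^ 2 ≤ nrm L x := fun y hy =>
    le_ciSup (bdd hc hL x) ⟨y, hy⟩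
  have h0 : 0 ≤ nrm L x := by
    have := hle 0 L.zero_mem
    simpa using this
  rcases h0.eq_or_lt with h | h
  · refine ⟨y0, hy0, hy0ne, ?_⟩
    have h1 := hle y0 hy0
    have h2 := hle (-y0) (L.neg_mem hy0)
    rw [inner_neg_right, norm_neg] at h2
    have h3 : 2 * -⟪x, y0⟫ / ‖y0‖ ^ 2 = -(2 * ⟪x, y0⟫ / ‖y0‖ ^ 2) := by ring
    rw [h3] at h2
    linarith
  · -- the supremum is positive: only finitely many candidates
    set s := nrm L x with hs
    set F : Set E := {y : E | y ∈ L ∧ ‖y‖ ≤ 4 * ‖x‖ / s} with hF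
    have hfin : F.Finite := finite_ball hc hL _
    have hcand : ∀ y ∈ L, s / 2 < 2 * ⟪x, y⟫ / ‖y‖ ^ 2 → y ∈ F := by
      intro y hy hval
      refine ⟨hy, ?_⟩
      by_cases hy0' : y = 0
      · subst hy0'; simp; positivity
      have hyp : 0 < ‖y‖ := norm_pos_iff.2 hy0'
      have h3 : ⟪x, y⟫ ≤ ‖x‖ * ‖y‖ := real_inner_le_norm x y
      rw [lt_div_iff₀ (by positivity)] at hval
      rw [le_div_iff₀ h]
      by_contra hcon
      push Not at hcon
      nlinarith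
    obtain ⟨z, hz⟩ : ∃ z : L, s / 2 < 2 * ⟪x, (z : E)⟫ / ‖(z : E)‖ ^ 2 :=
      exists_lt_of_lt_ciSup (by change s / 2 < s; linarith)
    have hFne : F.Nonempty := ⟨z, hcand z z.2 hz⟩
    obtain ⟨y, hyF, hymax⟩ := hfin.exists_maximalFor (fun y => 2 * ⟪x, y⟫ / ‖y‖ ^ 2) F hFne
    have hymax' : ∀ w ∈ F, 2 * ⟪x, w⟫ / ‖w‖ ^ 2 ≤ 2 * ⟪x, y⟫ / ‖y‖ ^ 2 := by
      intro w hw
      by_contra hcon
      push Not at hcon
      exact absurd (hymax hw hcon.le) (not_le.2 hcon)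
    have hyz := hymax' z (hcand z z.2 hz)
    have hval : s ≤ 2 * ⟪x, y⟫ / ‖y‖ ^ 2 := by
      refine ciSup_le fun w => ?_
      by_cases hw : s / 2 < 2 * ⟪x, (w : E)⟫ / ‖(w : E)‖ ^ 2
      · exact hymax' w (hcand w w.2 hw)
      · push Not at hw
        linarith
    refine ⟨y, hyF.1, ?_, le_antisymm (hle y hyF.1) hval⟩
    rintro rfl
    simp at hval
    linarith

end SELAux

open SELAux in
theorem stmt_SEL : Stmt_SEL := by
  intro E _ _ _ _ _ L c hc hL hne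
  have hcount : ({y : E | y ∈ L ∧ y ≠ 0}).Countable :=
    (countable hc hL).mono fun y hy => hy.1
  obtain ⟨y0, hy0L, hy0ne, -⟩ := exists_max hc hL hne 0
  obtain ⟨e, he⟩ := hcount.exists_eq_range ⟨y0, hy0L, hy0ne⟩
  have : Countable L := (countable hc hL).to_subtype
  have hnrm : Measurable (nrm L) := by
    refine Measurable.iSup fun y => ?_
    exact (Continuous.measurable (by fun_prop))
  have hex : ∀ x : E, ∃ n : ℕ, 2 * ⟪x, e n⟫ / ‖e n‖ ^ 2 = nrm L x := by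
    intro x
    obtain ⟨y, hyL, hy0, hy⟩ := exists_max hc hL hne x
    have : y ∈ Set.range e := he ▸ ⟨hyL, hy0⟩
    obtain ⟨n, rfl⟩ := this
    exact ⟨n, hy⟩
  classical
  refine ⟨fun x => e (Nat.find (hex x)), ?_, fun x => ?_⟩
  · have h1 : Measurable fun x => Nat.find (hex x) := by
      refine measurable_find hex fun k => ?_
      exact measurableSet_eq_fun (Continuous.measurable (by fun_prop)) hnrm
    exact (measurable_from_top (f := e)).comp h1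
  · have hm : e (Nat.find (hex x)) ∈ {y : E | y ∈ L ∧ y ≠ 0} := by
      rw [he]; exact ⟨_, rfl⟩
    exact ⟨hm.1, hm.2, Nat.find_spec (hex x)⟩

end Pool.Agent.RMLite
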