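import Pool.Agent.RMLite.Basic

/-!
# RM-lite, module SPLIT: `Phi q L ≤ Phi q (L ∩ W) + Phi q (L / W)`.
-/

set_option autoImplicit false

open MeasureTheory ProbabilityTheory Module
open scoped RealInnerProductSpace ENNReal NNReal

namespace Pool.Agent.RMLite

namespace SPLITAux

variable {E : Type} [NormedAddCommGroup E] [InnerProductSpace ℝ E] [FiniteDimensional ℝ E]
  [MeasurableSpace E] [BorelSpace E]

/-- the density of the Gaussian. -/
noncomputable def dens (x : E) : ℝ≥0∞ :=
  ENNReal.ofReal ((Real.sqrt (2 * Real.pi))⁻¹ ^ (finrank ℝ E) * Real.exp (-‖x‖ ^ 2 / 2))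

omit [FiniteDimensional ℝ E] in
lemma dens_meas : Measurable (dens : E → ℝ≥0∞) := by
  unfold dens
  apply Measurable.ennreal_ofReal
  apply Measurable.const_mul
  apply Real.measurable_exp.comp
  fun_prop

omit [FiniteDimensional ℝ E] [MeasurableSpace E] [BorelSpace E] in
lemma dens_anti {x z : E} (h : ‖x‖ ≤ ‖z‖) : dens z ≤ dens x := by
  unfold dens
  apply ENNReal.ofReal_le_ofReal
  apply mul_le_mul_of_nonneg_left _ (by positivity)
  apply Real.exp_le_exp.2
  have : ‖x‖ ^ 2 ≤ ‖z‖ ^ 2 := by gcongr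
  linarith

lemma gauss_apply (hD : Stmt_DENS) {A : Set E} (hA : MeasurableSet A) :
    stdGaussian E A = ∫⁻ x, A.indicator dens x := by
  rw [hD E, withDensity_apply _ hA, lintegral_indicator hA]
  rfl

/-- the set `D`. -/
def DD (W : Submodule ℝ E) (L : AddSubgroup E) (t : ℝ) : Set E :=
  {x | nrm (restr W L) (W.orthogonalProjectionOnto x) < t ∧
    nrm (quot W L) (Wᗮ.orthogonalProjectionOnto x) < t}

lemma proj_meas (W : Submodule ℝ E) :
    Measurable (fun x : E => W.orthogonalProjectionOnto x) :=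
  (W.orthogonalProjectionOnto).continuous.measurable

lemma DD_meas {L : AddSubgroup E} {c : ℝ} (hc : 0 < c) (h : Sep c L) {W : Submodule ℝ E}
    (hW : Sep c (quot W L)) (t : ℝ) : MeasurableSet (DD W L t) := by
  apply MeasurableSet.inter
  · exact measurableSet_lt ((nrm_measurable hc (h.restr W)).comp (proj_meas W)) measurable_const
  · exact measurableSet_lt ((nrm_measurable hc hW).comp (proj_meas Wᗮ)) measurable_const

omit [MeasurableSpace E] [BorelSpace E] in
lemma DD_disj {L : AddSubgroup E} {c : ℝ} (hc : 0 < c) (h : Sep c L) {W : Submodule ℝ E}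
    (hW : Sep c (quot W L)) {t : ℝ} (ht : 0 < t) {x y : E} (hy : y ∈ L) (hx : x ∈ DD W L t)
    (hxy : x + t • y ∈ DD W L t) : y = 0 := by
  obtain ⟨h1, h2⟩ := hx
  obtain ⟨h3, h4⟩ := hxy
  rw [map_add, map_smul] at h3 h4
  have hq : Wᗮ.orthogonalProjectionOnto y = 0 :=
    strict_disjoint hc hW ht (y := Wᗮ.orthogonalProjectionOnto y) ⟨y, hy, rfl⟩ h2 h4
  have hyW : y ∈ W := by
    rw [Submodule.orthogonalProjectionOnto_eq_zero_iff] at hq
    rwa [Submodule.orthogonal_orthogonal] at hq
  have hpy : ((W.orthogonalProjectionOnto y : W) : E) = y :=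
    Submodule.starProjection_eq_self_iff.2 hyW
  have hp : W.orthogonalProjectionOnto y = 0 := by
    refine strict_disjoint hc (h.restr W) ht (y := W.orthogonalProjectionOnto y) ?_ h1 h3
    rw [mem_restr, hpy]
    exact hy
  rw [← hpy, hp]
  rfl

/-- the key inequality. -/
lemma key (hD : Stmt_DENS) {L : AddSubgroup E} {c : ℝ} (hc : 0 < c) (h : Sep c L)
    {W : Submodule ℝ E} (hW : Sep c (quot W L)) {t : ℝ} (ht : 0 < t) :
    stdGaussian E (DD W L t) ≤ stdGaussian E {x | nrm L x ≤ t} := by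
  classical
  have : Countable L := h.countable hc
  have hDm := DD_meas hc h hW t
  have hVm : MeasurableSet {x : E | nrm L x ≤ t} :=
    measurableSet_le (nrm_measurable hc h) measurable_const
  -- pieces
  let A : L → Set E := fun y => {x | x ∈ DD W L t ∧ nrm L (x - t • (y : E)) ≤ t}
  let B : L → Set E := fun y => {x | x + t • (y : E) ∈ DD W L t ∧ nrm L x ≤ t}
  have hAm : ∀ y, MeasurableSet (A y) := by
    intro y
    apply hDm.inter
    exact hVm.preimage (by fun_prop : Measurable fun x : E => x - t • (y : E))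
  have hBm : ∀ y, MeasurableSet (B y) := by
    intro y
    apply MeasurableSet.inter _ hVm
    exact hDm.preimage (by fun_prop : Measurable fun x : E => x + t • (y : E))
  have h1 : DD W L t ⊆ ⋃ y, A y := by
    intro x hx
    obtain ⟨y, hy, hy2⟩ := exists_near hc h ht x
    exact Set.mem_iUnion.2 ⟨⟨y, hy⟩, hx, hy2⟩
  have h2 : ∀ y : L, stdGaussian E (A y) ≤ stdGaussian E (B y) := by
    intro y
    rw [gauss_apply hD (hAm y), gauss_apply hD (hBm y)]
    rw [← lintegral_add_right_eq_self (fun x => (A y).indicator dens x) (t • (y : E))]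
    apply lintegral_mono
    intro x
    by_cases hx : x + t • (y : E) ∈ A y
    · have hx' : x ∈ B y := by
        refine ⟨hx.1, ?_⟩
        have := hx.2
        rwa [add_sub_cancel_right] at this
      simp only [Set.indicator_of_mem hx, Set.indicator_of_mem hx']
      apply dens_anti
      have h3 := (nrm_le_iff hc h ht x).1 hx'.2 (-(y : E)) (L.neg_mem y.2)
      rwa [smul_neg, sub_neg_eq_add] at h3
    · simp only [Set.indicator_of_notMem hx]
      exact zero_le
  have h3 : Pairwise (Function.onFun Disjoint B) := by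
    intro y z hyz
    rw [Function.onFun, Set.disjoint_left]
    intro x hx hx'
    apply hyz
    have h4 : ((z : E) - y) = 0 := by
      refine DD_disj hc h hW ht (x := x + t • (y : E)) (L.sub_mem z.2 y.2) hx.1 ?_
      have : x + t • (y : E) + t • ((z : E) - y) = x + t • (z : E) := by
        rw [smul_sub]; abel
      rw [this]
      exact hx'.1
    exact Subtype.ext (sub_eq_zero.1 h4).symm
  calc stdGaussian E (DD W L t) ≤ stdGaussian E (⋃ y, A y) := measure_mono h1
    _ ≤ ∑' y, stdGaussian E (A y) := measure_iUnion_le _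
    _ ≤ ∑' y, stdGaussian E (B y) := ENNReal.tsum_le_tsum h2
    _ = stdGaussian E (⋃ y, B y) := (measure_iUnion h3 hBm).symm
    _ ≤ stdGaussian E {x | nrm L x ≤ t} := by
        apply measure_mono
        intro x hx
        obtain ⟨y, hy⟩ := Set.mem_iUnion.1 hx
        exact hy.2

/-- marginals. -/
lemma marg1 (hP : Stmt_PROD) (W : Submodule ℝ E) {F : W → ℝ≥0∞} (hF : Measurable F) :
    ∫⁻ x, F (W.orthogonalProjectionOnto x) ∂(stdGaussian E) = ∫⁻ z, F z ∂(stdGaussian W) := by
  have m : Measurable (fun z : W × (Wᗮ : Submodule ℝ E) => F z.1) := hF.comp measurable_fst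
  have h1 : ∫⁻ x, F (W.orthogonalProjectionOnto x) ∂(stdGaussian E) =
      ∫⁻ z, F z.1 ∂((stdGaussian E).map (fun x : E =>
        (W.orthogonalProjectionOnto x, Wᗮ.orthogonalProjectionOnto x))) := by
    rw [lintegral_map m ((proj_meas W).prodMk (proj_meas Wᗮ))]
  rw [h1, hP E W, lintegral_prod _ m.aemeasurable]
  simp

lemma marg2 (hP : Stmt_PROD) (W : Submodule ℝ E) {F : (Wᗮ : Submodule ℝ E) → ℝ≥0∞}
    (hF : Measurable F) :
    ∫⁻ x, F (Wᗮ.orthogonalProjectionOnto x) ∂(stdGaussian E) =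
      ∫⁻ z, F z ∂(stdGaussian (Wᗮ : Submodule ℝ E)) := by
  have m : Measurable (fun z : W × (Wᗮ : Submodule ℝ E) => F z.2) := hF.comp measurable_snd
  have h1 : ∫⁻ x, F (Wᗮ.orthogonalProjectionOnto x) ∂(stdGaussian E) =
      ∫⁻ z, F z.2 ∂((stdGaussian E).map (fun x : E =>
        (W.orthogonalProjectionOnto x, Wᗮ.orthogonalProjectionOnto x))) := by
    rw [lintegral_map m ((proj_meas W).prodMk (proj_meas Wᗮ))]
  rw [h1, hP E W, lintegral_prod _ m.aemeasurable]
  simp

/-- stochastic domination. -/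
lemma dom {α : Type} [MeasurableSpace α] {μ : Measure α} [IsProbabilityMeasure μ]
    {f g : α → ℝ} (hf : Measurable f) (hg : Measurable g)
    (hf0 : ∀ x, 0 ≤ f x) (hg0 : ∀ x, 0 ≤ g x) (h : ∀ t : ℝ, 0 < t → μ {x | t < f x} ≤ μ {x | t ≤ g x})
    {q : ℕ} (hq : 1 ≤ q) :
    ∫⁻ x, ENNReal.ofReal (f x) ^ q ∂μ ≤ ∫⁻ x, ENNReal.ofReal (g x) ^ q ∂μ := by
  have e1 : ∀ x, ENNReal.ofReal (f x) ^ q = ENNReal.ofReal (f x ^ q) := fun x =>
    (ENNReal.ofReal_pow (hf0 x) q).symm
  have e2 : ∀ x, ENNReal.ofReal (g x) ^ q = ENNReal.ofReal (g x ^ q) := fun x =>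
    (ENNReal.ofReal_pow (hg0 x) q).symm
  simp_rw [e1, e2]
  rw [lintegral_eq_lintegral_meas_lt μ (Filter.Eventually.of_forall fun x => pow_nonneg (hf0 x) q)
      (hf.pow_const q).aemeasurable,
    lintegral_eq_lintegral_meas_le μ (Filter.Eventually.of_forall fun x => pow_nonneg (hg0 x) q)
      (hg.pow_const q).aemeasurable]
  apply setLIntegral_mono' measurableSet_Ioi
  intro t ht
  have ht0 : 0 < t := ht
  set s : ℝ := t ^ ((q : ℝ)⁻¹) with hs
  have hs0 : 0 < s := Real.rpow_pos_of_pos ht0 _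
  have hsq : s ^ q = t := Real.rpow_inv_natCast_pow ht0.le (by omega)
  have h1 : {a | t < f a ^ q} = {a | s < f a} := by
    ext a
    simp only [Set.mem_ofPred_eq]
    rw [← hsq]
    exact pow_lt_pow_iff_left₀ hs0.le (hf0 a) (by omega)
  have h2 : {a | t ≤ g a ^ q} = {a | s ≤ g a} := by
    ext a
    simp only [Set.mem_ofPred_eq]
    rw [← hsq]
    exact pow_le_pow_iff_left₀ hs0.le (hg0 a) (by omega)
  rw [h1, h2]
  exact h s hs0

end SPLITAux

open SPLITAux in
theorem stmt_SPLIT (hD : Stmt_DENS) (hP : Stmt_PROD) : Stmt_SPLIT := by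
  intro E _ _ _ _ _ L c hc h W hW q hq
  have m0 : Measurable (nrm L) := nrm_measurable hc h
  have m1 : Measurable (nrm (restr W L)) := nrm_measurable hc (h.restr W)
  have m2 : Measurable (nrm (quot W L)) := nrm_measurable hc hW
  set F1 : E → ℝ := fun x => nrm (restr W L) (W.orthogonalProjectionOnto x) with hF1
  set F2 : E → ℝ := fun x => nrm (quot W L) (Wᗮ.orthogonalProjectionOnto x) with hF2
  have m1' : Measurable F1 := m1.comp (proj_meas W)
  have m2' : Measurable F2 := m2.comp (proj_meas (Wᗮ : Submodule ℝ E))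
  have hdom : ∫⁻ x, ENNReal.ofReal (nrm L x) ^ q ∂(stdGaussian E) ≤
      ∫⁻ x, ENNReal.ofReal (max (F1 x) (F2 x)) ^ q ∂(stdGaussian E) := by
    refine dom m0 (m1'.max m2') (nrm_nonneg L) (fun x => le_max_of_le_left (nrm_nonneg _ _)) ?_ hq
    intro t ht
    have hk := key hD hc h hW ht
    have hDm := DD_meas hc h hW t
    have hVm : MeasurableSet {x : E | nrm L x ≤ t} := measurableSet_le m0 measurable_const
    have c1 : {x : E | t < nrm L x} = {x : E | nrm L x ≤ t}ᶜ := by
      ext x; simp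
    have c2 : {x : E | t ≤ max (F1 x) (F2 x)} = (DD W L t)ᶜ := by
      ext x
      simp only [Set.mem_ofPred_eq, Set.mem_compl_iff, DD, hF1, hF2]
      rw [← not_lt, max_lt_iff]
    rw [c1, c2, prob_compl_eq_one_sub hVm, prob_compl_eq_one_sub hDm]
    exact tsub_le_tsub_left hk 1
  refine hdom.trans ?_
  have hle : ∀ x, ENNReal.ofReal (max (F1 x) (F2 x)) ^ q ≤
      ENNReal.ofReal (F1 x) ^ q + ENNReal.ofReal (F2 x) ^ q := by
    intro x
    rcases le_total (F1 x) (F2 x) with h1 | h1
    · rw [max_eq_right h1]; exact le_add_self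
    · rw [max_eq_left h1]; exact le_self_add
  refine (lintegral_mono hle).trans ?_
  rw [lintegral_add_left (m1'.ennreal_ofReal.pow_const q)]
  unfold Phi
  rw [← marg1 hP W (m1.ennreal_ofReal.pow_const q), ← marg2 hP W (m2.ennreal_ofReal.pow_const q)]

end Pool.Agent.RMLite
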