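import Pool.Agent.RMLite.Basic
import Pool.Agent.RMLite.Dens

/-!
# RM-lite, module TAIL: Gaussian sums over the lattice from the mean of the gauge.
-/

set_option autoImplicit false

open MeasureTheory ProbabilityTheory Module
open scoped RealInnerProductSpace ENNReal NNReal

namespace Pool.Agent.RMLite

namespace TAILAux

open DENSAux

variable {E : Type} [NormedAddCommGroup E] [InnerProductSpace ℝ E] [FiniteDimensional ℝ E]
  [MeasurableSpace E] [BorelSpace E]

theorem gauss_apply {A : Set E} (hA : MeasurableSet A) :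
    stdGaussian E A = ∫⁻ x, A.indicator (fun x => ENNReal.ofReal (rho x)) x := by
  rw [DENSAux.main, withDensity_apply _ hA, lintegral_indicator hA]

/-- translates of a symmetric set. -/
theorem shift (z : E) {D : Set E} (hD : MeasurableSet D) (hsym : ∀ x, x ∈ D ↔ -x ∈ D) :
    ENNReal.ofReal (Real.exp (-‖z‖ ^ 2 / 2)) * stdGaussian E D
      ≤ stdGaussian E ((fun x => x - z) ⁻¹' D) := by
  have hmeas : MeasurableSet ((fun x : E => x - z) ⁻¹' D) := (measurable_id.sub_const z) hD
  have e1 : stdGaussian E ((fun x => x - z) ⁻¹' D)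
      = ∫⁻ x, D.indicator (fun x => ENNReal.ofReal (rho (x + z))) x := by
    rw [gauss_apply hmeas, ← lintegral_add_right_eq_self (μ := (volume : Measure E)) _ z]
    refine lintegral_congr fun y => ?_
    by_cases hy : y ∈ D
    · rw [Set.indicator_of_mem (by simpa using hy), Set.indicator_of_mem hy]
    · rw [Set.indicator_of_notMem (by simpa using hy), Set.indicator_of_notMem hy]
  have e2 : stdGaussian E ((fun x => x - z) ⁻¹' D)
      = ∫⁻ x, D.indicator (fun x => ENNReal.ofReal (rho (x - z))) x := by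
    rw [e1, ← lintegral_neg_eq_self (μ := (volume : Measure E))]
    refine lintegral_congr fun y => ?_
    have hr : rho (-y + z) = rho (y - z) := by
      unfold rho
      rw [← norm_neg (-y + z)]
      congr 4
      abel_nf
    by_cases hy : y ∈ D
    · rw [Set.indicator_of_mem ((hsym y).1 hy), Set.indicator_of_mem hy, hr]
    · rw [Set.indicator_of_notMem (fun h => hy ((hsym y).2 h)), Set.indicator_of_notMem hy]
  have hm : ∀ w : E, Measurable (D.indicator (fun x => ENNReal.ofReal (rho (x + w)))) := by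
    intro w
    refine Measurable.indicator ?_ hD
    exact ((continuous_rho.comp (continuous_id.add continuous_const)).measurable).ennreal_ofReal
  have h2 : 2 * (ENNReal.ofReal (Real.exp (-‖z‖ ^ 2 / 2)) * stdGaussian E D)
      ≤ 2 * stdGaussian E ((fun x => x - z) ⁻¹' D) := by
    have e3 : 2 * stdGaussian E ((fun x => x - z) ⁻¹' D)
        = ∫⁻ x, (D.indicator (fun x => ENNReal.ofReal (rho (x + z))) x
          + D.indicator (fun x => ENNReal.ofReal (rho (x + -z))) x) := by
      rw [lintegral_add_left (hm z), two_mul]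
      congr 1
      rw [e2]
      simp only [sub_eq_add_neg]
    rw [e3, gauss_apply hD, ← mul_assoc,
      ← lintegral_const_mul' _ _ (ENNReal.mul_ne_top (by norm_num) ENNReal.ofReal_ne_top)]
    refine lintegral_mono fun x => ?_
    by_cases hx : x ∈ D
    · simp only [Set.indicator_of_mem hx]
      rw [← ENNReal.ofReal_add (rho_pos _).le (rho_pos _).le]
      have h20 : (2 : ℝ≥0∞) = ENNReal.ofReal 2 := by simp
      rw [h20, ← ENNReal.ofReal_mul (by norm_num), ← ENNReal.ofReal_mul (by positivity)]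
      refine ENNReal.ofReal_le_ofReal ?_
      unfold rho
      have h3 : ∀ w : E, Real.exp (-‖x + w‖ ^ 2 / 2)
          = Real.exp (-‖x‖ ^ 2 / 2) * Real.exp (-‖w‖ ^ 2 / 2) * Real.exp (-⟪x, w⟫) := by
        intro w
        rw [← Real.exp_add, ← Real.exp_add, norm_add_sq_real]
        congr 1
        ring
      rw [h3 z, h3 (-z), norm_neg, inner_neg_right]
      have h4 : 2 ≤ Real.exp (-⟪x, z⟫) + Real.exp (- -⟪x, z⟫) := by
        have h5 := Real.add_one_le_exp (-⟪x, z⟫)
        have h6 := Real.add_one_le_exp (- -⟪x, z⟫)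
        linarith
      have h7 : 0 ≤ (Real.sqrt (2 * Real.pi))⁻¹ ^ (finrank ℝ E) * Real.exp (-‖x‖ ^ 2 / 2)
          * Real.exp (-‖z‖ ^ 2 / 2) := by positivity
      nlinarith [mul_le_mul_of_nonneg_left h4 h7]
    · simp [Set.indicator_of_notMem hx]
  exact (ENNReal.mul_le_mul_iff_right (by norm_num) (by norm_num)).1 h2

/-- Gaussian measure of a shrunken set. -/
theorem shrink {D D' : Set E} (hD : MeasurableSet D) (hD' : MeasurableSet D') (r : ℝ) (hr : 0 < r)
    (hr1 : r ≤ 1) (h : ∀ x, x ∈ D → r • x ∈ D') :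
    ENNReal.ofReal (r ^ finrank ℝ E) * stdGaussian E D ≤ stdGaussian E D' := by
  rw [gauss_apply hD, gauss_apply hD']
  have hmap := Measure.map_addHaar_smul (volume : Measure E) hr.ne'
  have hm : Measurable (D'.indicator (fun x => ENNReal.ofReal (rho x))) :=
    Measurable.indicator (continuous_rho.measurable.ennreal_ofReal) hD'
  have e1 : ∫⁻ x, D'.indicator (fun x => ENNReal.ofReal (rho x)) (r • x)
      = ENNReal.ofReal |(r ^ finrank ℝ E)⁻¹| *
        ∫⁻ x, D'.indicator (fun x => ENNReal.ofReal (rho x)) x := by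
    rw [← lintegral_map hm (measurable_const_smul r), hmap, lintegral_smul_measure, smul_eq_mul]
  have e2 : ∫⁻ x, D.indicator (fun x => ENNReal.ofReal (rho x)) x
      ≤ ∫⁻ x, D'.indicator (fun x => ENNReal.ofReal (rho x)) (r • x) := by
    refine lintegral_mono fun x => ?_
    by_cases hx : x ∈ D
    · rw [Set.indicator_of_mem hx, Set.indicator_of_mem (h x hx)]
      refine ENNReal.ofReal_le_ofReal ?_
      unfold rho
      refine mul_le_mul_of_nonneg_left ?_ (by positivity)
      rw [Real.exp_le_exp, norm_smul, Real.norm_of_nonneg hr.le]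
      have h1 : r * ‖x‖ ≤ ‖x‖ := by nlinarith [norm_nonneg x]
      have h2 : 0 ≤ r * ‖x‖ := by positivity
      nlinarith
    · rw [Set.indicator_of_notMem hx]
      exact zero_le
  have hrk : 0 < r ^ finrank ℝ E := by positivity
  calc ENNReal.ofReal (r ^ finrank ℝ E) *
        ∫⁻ x, D.indicator (fun x => ENNReal.ofReal (rho x)) x
      ≤ ENNReal.ofReal (r ^ finrank ℝ E) * (ENNReal.ofReal |(r ^ finrank ℝ E)⁻¹| *
        ∫⁻ x, D'.indicator (fun x => ENNReal.ofReal (rho x)) x) := by
        rw [← e1]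
        exact mul_le_mul_right e2 _
    _ = ∫⁻ x, D'.indicator (fun x => ENNReal.ofReal (rho x)) x := by
        rw [← mul_assoc, ← ENNReal.ofReal_mul hrk.le, abs_of_pos (by positivity),
          mul_inv_cancel₀ hrk.ne', ENNReal.ofReal_one, one_mul]

end TAILAux

open TAILAux in
theorem stmt_TAIL : Stmt_TAIL := by
  intro E _ _ _ _ _ L hL T hT hmean σ hσ S hS
  have hσ0 : 0 < σ := lt_of_lt_of_le (by positivity) hσ
  have hmeas : ∀ t : ℝ, MeasurableSet {x : E | nrm L x < t} := fun t =>
    (nrm_measurable one_pos hL) measurableSet_Iio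
  -- Markov
  have hint : Integrable (nrm L) (stdGaussian E) := by
    have h1 : Integrable (fun x : E => 2 * ‖x‖) (stdGaussian E) :=
      ((IsGaussian.memLp_id (stdGaussian E) 1 (by simp)).integrable le_rfl).norm.const_mul 2
    refine h1.mono' (nrm_measurable one_pos hL).aestronglyMeasurable ?_
    refine Filter.Eventually.of_forall fun x => ?_
    rw [Real.norm_of_nonneg (nrm_nonneg L x)]
    exact nrm_le_two hL x
  have hmark : (2 : ℝ≥0∞)⁻¹ ≤ stdGaussian E {x : E | nrm L x < 2 * T} := by
    have h1 := mul_meas_ge_le_integral_of_nonneg (μ := stdGaussian E)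
      (f := nrm L) (Filter.Eventually.of_forall fun x => nrm_nonneg L x) hint (2 * T)
    have h2 : (stdGaussian E).real {x : E | 2 * T ≤ nrm L x} ≤ 1 / 2 := by
      have h3 : 2 * T * (stdGaussian E).real {x : E | 2 * T ≤ nrm L x} ≤ T := h1.trans hmean
      by_contra hc
      push Not at hc
      nlinarith
    have h4 : {x : E | nrm L x < 2 * T} = {x : E | 2 * T ≤ nrm L x}ᶜ := by
      ext x
      simp
    have h5 : MeasurableSet {x : E | 2 * T ≤ nrm L x} :=
      (nrm_measurable one_pos hL) measurableSet_Ici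
    have h6 : 1 / 2 ≤ (stdGaussian E).real {x : E | nrm L x < 2 * T} := by
      rw [h4, probReal_compl_eq_one_sub h5]
      linarith
    have h7 := ENNReal.ofReal_le_ofReal h6
    rw [ofReal_measureReal] at h7
    refine le_trans (le_of_eq ?_) h7
    rw [one_div, ENNReal.ofReal_inv_of_pos (by norm_num)]
    simp
  -- shrinking
  have hr : 0 < 1 / (2 * T * σ) := by positivity
  have hr1 : 1 / (2 * T * σ) ≤ 1 := by
    rw [div_le_one (by positivity)]
    have := mul_le_mul_of_nonneg_left hσ (by positivity : (0 : ℝ) ≤ 2 * T)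
    rwa [mul_one_div_cancel (by positivity)] at this
  have hshr := shrink (hmeas (2 * T)) (hmeas (1 / σ)) (1 / (2 * T * σ)) hr hr1 (by
    intro x hx
    simp only [Set.mem_ofPred_eq] at hx ⊢
    rw [nrm_smul L hr.le]
    have : 1 / (2 * T * σ) * nrm L x < 1 / (2 * T * σ) * (2 * T) :=
      mul_lt_mul_of_pos_left hx hr
    refine this.trans_le (le_of_eq ?_)
    field_simp)
  -- disjoint translates
  have hsym : ∀ x : E, x ∈ {x : E | nrm L x < 1 / σ} ↔ -x ∈ {x : E | nrm L x < 1 / σ} := by
    intro x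
    simp only [Set.mem_ofPred_eq, nrm_neg]
  set D : Set E := {x : E | nrm L x < 1 / σ} with hDdef
  have hdisj : (S : Set E).PairwiseDisjoint
      (fun y : E => (fun x : E => x - (1 / σ) • y) ⁻¹' D) := by
    intro y hy y' hy' hne
    rw [Function.onFun, Set.disjoint_left]
    intro x hx hx'
    apply hne
    have h1 := strict_disjoint one_pos hL (by positivity : (0 : ℝ) < 1 / σ)
      (x := x - (1 / σ) • y) (y := y - y') (L.sub_mem (hS y hy) (hS y' hy')) hx (by
        have : x - (1 / σ) • y + (1 / σ) • (y - y') = x - (1 / σ) • y' := by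
          rw [smul_sub]; abel
        rw [this]
        exact hx')
    exact sub_eq_zero.1 h1
  have hsum : ∑ y ∈ S, stdGaussian E ((fun x : E => x - (1 / σ) • y) ⁻¹' D) ≤ 1 := by
    rw [← measure_biUnion_finset hdisj
      (fun y _ => (measurable_id.sub_const _) (hmeas (1 / σ)))]
    exact prob_le_one
  have hlow : (∑ y ∈ S, ENNReal.ofReal (Real.exp (-‖y‖ ^ 2 / (2 * σ ^ 2)))) *
      stdGaussian E D ≤ 1 := by
    rw [Finset.sum_mul]
    refine le_trans (Finset.sum_le_sum fun y _ => ?_) hsum
    have h1 := shift ((1 / σ) • y) (hmeas (1 / σ)) hsym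
    refine le_trans (le_of_eq ?_) h1
    congr 3
    rw [norm_smul, Real.norm_of_nonneg (by positivity)]
    field_simp
  -- conclusion
  have hD0 : ENNReal.ofReal ((1 / (2 * T * σ)) ^ finrank ℝ E * 2⁻¹) ≤ stdGaussian E D := by
    refine le_trans ?_ hshr
    rw [ENNReal.ofReal_mul (by positivity)]
    refine mul_le_mul_right ?_ _
    rw [ENNReal.ofReal_inv_of_pos (by norm_num)]
    simpa using hmark
  have h1 : (∑ y ∈ S, ENNReal.ofReal (Real.exp (-‖y‖ ^ 2 / (2 * σ ^ 2)))) *
      ENNReal.ofReal ((1 / (2 * T * σ)) ^ finrank ℝ E * 2⁻¹) ≤ 1 :=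
    le_trans (mul_le_mul_right hD0 _) hlow
  rw [← ENNReal.ofReal_sum_of_nonneg (fun y _ => (Real.exp_pos _).le),
    ← ENNReal.ofReal_mul (Finset.sum_nonneg fun y _ => (Real.exp_pos _).le),
    ← ENNReal.ofReal_one] at h1
  have h2 := (ENNReal.ofReal_le_ofReal_iff (by norm_num)).1 h1
  have h3 : (0 : ℝ) < (1 / (2 * T * σ)) ^ finrank ℝ E * 2⁻¹ := by positivity
  have h4 : ∑ y ∈ S, Real.exp (-‖y‖ ^ 2 / (2 * σ ^ 2))
      ≤ 1 / ((1 / (2 * T * σ)) ^ finrank ℝ E * 2⁻¹) := by
    rw [le_div_iff₀ h3]
    exact h2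
  refine h4.trans (le_of_eq ?_)
  rw [one_div, mul_inv, inv_inv, one_div, inv_pow, inv_inv]
  ring

end Pool.Agent.RMLite
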