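import Pool.Agent.RMLite.Defs

/-!
# URY1: the functional form of a weak Urysohn inequality (helper54)
-/

set_option autoImplicit false

open MeasureTheory ProbabilityTheory Set
open scoped RealInnerProductSpace ENNReal

namespace Pool.Agent.RMLite.URY1Aux

/-- the standard one dimensional Gaussian -/
noncomputable abbrev g1 : Measure ℝ := gaussianReal 0 1

instance : NullSingletonClass g1 := nullSingletonClass_gaussianReal one_ne_zero

theorem integrable_id_g1 : Integrable (fun x : ℝ => x) g1 := by
  have := (memLp_id_gaussianReal (μ := 0) (v := 1) 1).integrable le_rfl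
  exact this

/-- the mean of `|g|`, written as twice the integral over the positive half line -/
noncomputable def mm : ℝ := 2 * ∫ g in Ioi (0:ℝ), g ∂g1

theorem g1_Ioi : g1.real (Ioi 0) = 1 / 2 ∧ g1.real (Iio 0) = 1 / 2 := by
  have hsym : g1.map (fun x => -x) = g1 := by
    have := gaussianReal_map_neg (μ := 0) (v := 1)
    simpa using this
  have h1 : g1.real (Iio 0) = g1.real (Ioi 0) := by
    have h2 : (g1.map (fun x => -x)) (Iio 0) = g1 (Ioi 0) := by
      rw [Measure.map_apply measurable_neg measurableSet_Iio]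
      congr 1
      ext x; simp
    rw [hsym] at h2
    rw [measureReal_def, measureReal_def, h2]
  have h3 : g1.real (Iio 0) + g1.real (Ioi 0) = 1 := by
    have h4 : g1.real (Iio 0) + g1.real (Ici 0) = 1 := by
      have := measureReal_add_measureReal_compl (μ := g1) (s := Iio (0:ℝ)) measurableSet_Iio
      rw [compl_Iio] at this
      rw [this]
      simp
    have h5 : g1.real (Ici 0) = g1.real (Ioi 0) := by
      rw [measureReal_def, measureReal_def, measure_congr Ioi_ae_eq_Ici]
    linarith
  constructor <;> linarith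

theorem split_g1 {f : ℝ → ℝ} (hf : Integrable f g1) :
    ∫ x, f x ∂g1 = ∫ x in Ioi 0, f x ∂g1 + ∫ x in Iio 0, f x ∂g1 := by
  rw [← integral_add_compl (measurableSet_Ioi (a := (0:ℝ))) hf, compl_Ioi,
    integral_Iic_eq_integral_Iio]

theorem mm_pos : 0 < mm := by
  unfold mm
  have h1 : 0 < ∫ g in Ioi (0:ℝ), g ∂g1 := by
    rw [setIntegral_pos_iff_support_of_nonneg_ae]
    · have h2 : (Function.support fun i : ℝ => i) ∩ Ioi 0 = Ioi 0 := by
        ext x
        simp only [mem_inter_iff, Function.mem_support, mem_Ioi, and_iff_right_iff_imp]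
        intro h; exact h.ne'
      rw [h2]
      have h3 := g1_Ioi.1
      rw [measureReal_def] at h3
      by_contra hcon
      have h4 : g1 (Ioi 0) = 0 := by
        simpa using hcon
      rw [h4] at h3
      norm_num at h3
    · filter_upwards [ae_restrict_mem measurableSet_Ioi] with x hx
      exact (mem_Ioi.1 hx).le
    · exact integrable_id_g1.integrableOn
  linarith

theorem mm_neg : 2 * ∫ g in Iio (0:ℝ), g ∂g1 = -mm := by
  have h1 := split_g1 integrable_id_g1
  have h2 : ∫ x, x ∂g1 = 0 := integral_id_gaussianReal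
  rw [h2] at h1
  unfold mm
  linarith

/-- the one dimensional case -/
theorem one (Λ : ℝ → ℝ) (hΛ : Integrable Λ g1) (u : ℝ → ℝ≥0∞)
    (hu : ∀ x g, u x ≤ ENNReal.ofReal (Real.exp (Λ g - g * x))) :
    ∫⁻ x, u x ≤ ENNReal.ofReal (2 / mm * Real.exp (∫ g, Λ g ∂g1)) := by
  set A := 2 * ∫ g in Ioi (0:ℝ), Λ g ∂g1 with hA
  set B := 2 * ∫ g in Iio (0:ℝ), Λ g ∂g1 with hB
  have hAB : A + B = 2 * ∫ g, Λ g ∂g1 := by
    rw [hA, hB, split_g1 hΛ]; ring
  have hm := mm_pos
  -- the two bounds
  have hfin : ∀ x, u x ≠ ⊤ := fun x => ne_top_of_le_ne_top ENNReal.ofReal_ne_top (hu x 0)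
  have key : ∀ x, u x ≤ ENNReal.ofReal (Real.exp (A - mm * x)) ∧
      u x ≤ ENNReal.ofReal (Real.exp (B + mm * x)) := by
    intro x
    by_cases h0 : u x = 0
    · rw [h0]; exact ⟨zero_le, zero_le⟩
    have hpos : 0 < (u x).toReal := ENNReal.toReal_pos h0 (hfin x)
    have hlog : ∀ g, Real.log (u x).toReal + x * g ≤ Λ g := by
      intro g
      have h1 : (u x).toReal ≤ Real.exp (Λ g - g * x) :=
        ENNReal.toReal_le_of_le_ofReal (Real.exp_pos _).le (hu x g)
      have h2 := Real.log_le_log hpos h1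
      rw [Real.log_exp] at h2
      linarith
    have hi : Integrable (fun g : ℝ => Real.log (u x).toReal + x * g) g1 :=
      (integrable_const _).add (integrable_id_g1.const_mul x)
    have hint : ∀ S : Set ℝ, g1.real S = 1 / 2 →
        ∫ g in S, (Real.log (u x).toReal + x * g) ∂g1
          = 1 / 2 * Real.log (u x).toReal + x * ∫ g in S, g ∂g1 := by
      intro S hS
      rw [integral_add (integrable_const _) (integrable_id_g1.integrableOn.const_mul x),
        integral_const_mul, setIntegral_const, hS, smul_eq_mul]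
    constructor
    · have h1 : ∫ g in Ioi 0, (Real.log (u x).toReal + x * g) ∂g1 ≤ ∫ g in Ioi 0, Λ g ∂g1 :=
        setIntegral_mono hi.integrableOn hΛ.integrableOn hlog
      rw [hint _ g1_Ioi.1] at h1
      have h2 : Real.log (u x).toReal ≤ A - mm * x := by
        rw [hA, mm]; linarith
      rw [← ENNReal.ofReal_toReal (hfin x)]
      refine ENNReal.ofReal_le_ofReal ?_
      rw [← Real.exp_log hpos]
      exact Real.exp_le_exp.2 h2
    · have h1 : ∫ g in Iio 0, (Real.log (u x).toReal + x * g) ∂g1 ≤ ∫ g in Iio 0, Λ g ∂g1 :=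
        setIntegral_mono hi.integrableOn hΛ.integrableOn hlog
      rw [hint _ g1_Ioi.2] at h1
      have h2 : Real.log (u x).toReal ≤ B + mm * x := by
        have h3 := mm_neg
        have h4 : x * (2 * ∫ g in Iio (0:ℝ), g ∂g1) = -(mm * x) := by rw [h3]; ring
        rw [hB]; linarith
      rw [← ENNReal.ofReal_toReal (hfin x)]
      refine ENNReal.ofReal_le_ofReal ?_
      rw [← Real.exp_log hpos]
      exact Real.exp_le_exp.2 h2
  -- integration
  set x0 := (A - B) / (2 * mm) with hx0
  have hA0 : A - mm * x0 = ∫ g, Λ g ∂g1 := by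
    rw [hx0]; field_simp; linarith
  have hB0 : B + mm * x0 = ∫ g, Λ g ∂g1 := by
    rw [hx0]; field_simp; linarith
  have h1 : ∫⁻ x in Ioi x0, u x ≤ ENNReal.ofReal (1 / mm * Real.exp (∫ g, Λ g ∂g1)) := by
    have h2 : ∫⁻ x in Ioi x0, u x ≤ ∫⁻ x in Ioi x0, ENNReal.ofReal (Real.exp (A - mm * x)) :=
      lintegral_mono fun x => (key x).1
    refine h2.trans (le_of_eq ?_)
    have h3 : ∀ x : ℝ, Real.exp (A - mm * x) = Real.exp A * Real.exp (-mm * x) := by
      intro x; rw [← Real.exp_add]; ring_nf
    rw [← ofReal_integral_eq_lintegral_ofReal]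
    · congr 1
      simp_rw [h3]
      rw [integral_const_mul, integral_exp_mul_Ioi (by linarith)]
      rw [← hA0, h3]
      field_simp
    · simp_rw [h3]
      exact (integrableOn_exp_mul_Ioi (by linarith) x0).const_mul _
    · exact Filter.Eventually.of_forall fun x => (Real.exp_pos _).le
  have h1' : ∫⁻ x in Iic x0, u x ≤ ENNReal.ofReal (1 / mm * Real.exp (∫ g, Λ g ∂g1)) := by
    have h2 : ∫⁻ x in Iic x0, u x ≤ ∫⁻ x in Iic x0, ENNReal.ofReal (Real.exp (B + mm * x)) :=
      lintegral_mono fun x => (key x).2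
    refine h2.trans (le_of_eq ?_)
    have h3 : ∀ x : ℝ, Real.exp (B + mm * x) = Real.exp B * Real.exp (mm * x) := by
      intro x; rw [← Real.exp_add]
    rw [← ofReal_integral_eq_lintegral_ofReal]
    · congr 1
      simp_rw [h3]
      rw [integral_const_mul, integral_exp_mul_Iic hm]
      rw [← hB0, h3]
      field_simp
    · simp_rw [h3]
      exact (integrableOn_exp_mul_Iic hm x0).const_mul _
    · exact Filter.Eventually.of_forall fun x => (Real.exp_pos _).le
  have h4 : ∫⁻ x, u x = (∫⁻ x in Iic x0, u x) + ∫⁻ x in Ioi x0, u x := by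
    rw [← compl_Iic, lintegral_add_compl _ measurableSet_Iic]
  rw [h4]
  refine (add_le_add h1' h1).trans (le_of_eq ?_)
  rw [← ENNReal.ofReal_add (by positivity) (by positivity)]
  congr 1
  ring

/-- the product Gaussian measure -/
noncomputable abbrev gk (k : ℕ) : Measure (Fin k → ℝ) := Measure.pi fun _ => g1

theorem integrable_norm_gk (k : ℕ) : Integrable (fun g : Fin k → ℝ => ‖g‖) (gk k) := by
  have h1 : Integrable (fun g : Fin k → ℝ => ∑ i, |g i|) (gk k) := by
    refine integrable_finsetSum _ fun i _ => ?_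
    have := (measurePreserving_eval (fun _ : Fin k => g1) i).integrable_comp_of_integrable
      (integrable_id_g1.abs)
    exact this
  refine h1.mono (by fun_prop) (Filter.Eventually.of_forall fun g => ?_)
  rw [norm_norm, Real.norm_of_nonneg (Finset.sum_nonneg fun i _ => abs_nonneg _)]
  rw [pi_norm_le_iff_of_nonneg (Finset.sum_nonneg fun i _ => abs_nonneg _)]
  intro i
  rw [Real.norm_eq_abs]
  exact Finset.single_le_sum (f := fun i => |g i|) (fun i _ => abs_nonneg _) (Finset.mem_univ i)

theorem growth_integrable {k : ℕ} {Λ : (Fin k → ℝ) → ℝ} (hm : Measurable Λ) {C : ℝ}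
    (hC : ∀ g, |Λ g| ≤ C * (1 + ‖g‖)) : Integrable Λ (gk k) := by
  have h1 : Integrable (fun g : Fin k → ℝ => C * (1 + ‖g‖)) (gk k) :=
    ((integrable_const _).add (integrable_norm_gk k)).const_mul C
  refine h1.mono' hm.aestronglyMeasurable (Filter.Eventually.of_forall fun g => ?_)
  rw [Real.norm_eq_abs]
  exact hC g

theorem main (k : ℕ) : ∀ (Λ : (Fin k → ℝ) → ℝ) (C : ℝ), Measurable Λ →
    (∀ g, |Λ g| ≤ C * (1 + ‖g‖)) → ∀ u : (Fin k → ℝ) → ℝ≥0∞, Measurable u →
    (∀ x g, u x ≤ ENNReal.ofReal (Real.exp (Λ g - ∑ i, g i * x i))) →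
    ∫⁻ x, u x ≤ ENNReal.ofReal ((2 / mm) ^ k * Real.exp (∫ g, Λ g ∂(gk k))) := by
  have hm := mm_pos
  induction k with
  | zero =>
    intro Λ C hΛ hC u hu h
    have h1 : ∫⁻ x, u x = u 0 := by
      rw [lintegral_unique]
      have : (volume : Measure (Fin 0 → ℝ)) univ = 1 := by simp [volume_pi]
      rw [this, mul_one]
      exact congrArg u (Subsingleton.elim _ _)
    have h2 : ∫ g, Λ g ∂(gk 0) = Λ 0 := by
      rw [integral_unique, probReal_univ, one_smul]
      exact congrArg Λ (Subsingleton.elim _ _)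
    rw [h1, h2]
    have := h 0 0
    simpa using this
  | succ k ih =>
    intro Λ C hΛ hC u hu h
    have hC0 : 0 ≤ C := by
      have := (abs_nonneg _).trans (hC 0)
      simpa using this
    set c : ℝ := (2 / mm) ^ k with hc
    have hcpos : 0 < c := by positivity
    set e := (MeasurableEquiv.piFinSuccAbove (fun _ : Fin (k + 1) => ℝ) 0).symm with he
    have he' : ∀ p : ℝ × (Fin k → ℝ), e p = Fin.cons p.1 p.2 := by
      intro p
      rw [he]
      simp [MeasurableEquiv.piFinSuccAbove, Fin.insertNthEquiv]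
    have hmeas : ∀ {β : Type} [MeasurableSpace β] {f : (Fin (k + 1) → ℝ) → β}, Measurable f →
        ∀ a : ℝ, Measurable fun y : Fin k → ℝ => f (Fin.cons a y) := by
      intro β _ f hf a
      have : (fun y : Fin k → ℝ => f (Fin.cons a y)) = fun y => f (e (a, y)) := by
        funext y; rw [he']
      rw [this]
      exact hf.comp (e.measurable.comp (by fun_prop))
    have hnorm : ∀ (a : ℝ) (y : Fin k → ℝ), ‖(Fin.cons a y : Fin (k + 1) → ℝ)‖ ≤ |a| + ‖y‖ := by
      intro a y
      rw [pi_norm_le_iff_of_nonneg (by positivity)]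
      intro i
      refine Fin.cases ?_ (fun j => ?_) i
      · simp
      · simp only [Fin.cons_succ]
        exact (norm_le_pi_norm y j).trans (by linarith [abs_nonneg a])
    -- growth and measurability of the integrated function
    set Λ1 : ℝ → ℝ := fun a => ∫ y, Λ (Fin.cons a y) ∂(gk k) with hΛ1
    have hgrow : ∀ a y, |Λ (Fin.cons a y)| ≤ (C * (1 + |a|)) * (1 + ‖y‖) := by
      intro a y
      refine (hC _).trans ?_
      have := hnorm a y
      have h3 : C * (1 + ‖(Fin.cons a y : Fin (k + 1) → ℝ)‖) ≤ C * (1 + (|a| + ‖y‖)) := by gcongr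
      refine h3.trans ?_
      have : 0 ≤ C * (|a| * ‖y‖) := by positivity
      nlinarith
    have hint : ∀ a, Integrable (fun y => Λ (Fin.cons a y)) (gk k) := fun a =>
      growth_integrable (hmeas hΛ a) (hgrow a)
    -- Fubini for Λ
    have hint' : Integrable Λ (gk (k + 1)) := growth_integrable hΛ hC
    have hpres : MeasurePreserving e (g1.prod (gk k)) (gk (k + 1)) :=
      (measurePreserving_piFinSuccAbove (fun _ : Fin (k + 1) => g1) 0).symm _
    have hint2 : Integrable (fun p : ℝ × (Fin k → ℝ) => Λ (Fin.cons p.1 p.2)) (g1.prod (gk k)) := by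
      have := hpres.integrable_comp_of_integrable hint'
      refine this.congr (Filter.Eventually.of_forall fun p => ?_)
      simp [he']
    have hfub : ∫ g, Λ g ∂(gk (k + 1)) = ∫ a, Λ1 a ∂g1 := by
      rw [← hpres.integral_comp' (f := e)]
      have h3 : ∀ p : ℝ × (Fin k → ℝ), Λ (e p) = Λ (Fin.cons p.1 p.2) := fun p => by rw [he']
      simp_rw [h3]
      rw [integral_prod _ hint2]
    have hΛ1i : Integrable Λ1 g1 := hint2.integral_prod_left
    -- Fubini for u
    have hvol : MeasurePreserving e (volume.prod volume) (volume : Measure (Fin (k + 1) → ℝ)) :=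
      (volume_preserving_piFinSuccAbove (fun _ : Fin (k + 1) => ℝ) 0).symm _
    have hfubu : ∫⁻ x, u x = ∫⁻ a, ∫⁻ y, u (Fin.cons a y) := by
      rw [← hvol.lintegral_comp hu, lintegral_prod (fun a => u (e a))
        (hu.comp e.measurable).aemeasurable]
      simp_rw [he']
    set u1 : ℝ → ℝ≥0∞ := fun a => ∫⁻ y, u (Fin.cons a y) with hu1
    have hb : ∀ x g, u1 x ≤ ENNReal.ofReal (Real.exp ((Λ1 g + Real.log c) - g * x)) := by
      intro x g
      have h4 := ih (fun y => Λ (Fin.cons g y) - g * x) (C * (1 + |g|) + |g * x|)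
        ((hmeas hΛ g).sub_const _) (by
          intro y
          have h5 : |Λ (Fin.cons g y) - g * x| ≤ |Λ (Fin.cons g y)| + |g * x| := abs_sub _ _
          have h6 := hgrow g y
          have h7 : 0 ≤ |g * x| * ‖y‖ := by positivity
          nlinarith) (fun y => u (Fin.cons x y)) (hmeas hu x) (by
          intro x' g'
          have h5 := h (Fin.cons x x') (Fin.cons g g')
          rw [Fin.sum_univ_succ] at h5
          simp only [Fin.cons_zero, Fin.cons_succ] at h5
          refine h5.trans (le_of_eq ?_)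
          congr 2
          ring)
      refine h4.trans (le_of_eq ?_)
      congr 1
      rw [integral_sub (hint g) (integrable_const _)]
      simp only [integral_const, probReal_univ, smul_eq_mul, one_mul]
      rw [show Λ1 g + Real.log c - g * x = Real.log c + (Λ1 g - g * x) by ring, Real.exp_add,
        Real.exp_log hcpos]
    have h6 := one (fun g => Λ1 g + Real.log c) (hΛ1i.add (integrable_const _)) u1 hb
    rw [hfubu, hfub]
    refine h6.trans (le_of_eq ?_)
    congr 1
    rw [integral_add hΛ1i (integrable_const _)]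
    simp only [integral_const, probReal_univ, smul_eq_mul, one_mul]
    rw [Real.exp_add, Real.exp_log hcpos, pow_succ]
    ring


theorem mm_eq : mm = 2 / Real.sqrt (2 * Real.pi) := by
  unfold mm
  have h1 : ∫ g in Ioi (0:ℝ), g ∂g1 = (Real.sqrt (2 * Real.pi))⁻¹ := by
    rw [← integral_indicator measurableSet_Ioi, integral_gaussianReal_eq_integral_smul one_ne_zero]
    have h2 : (fun x : ℝ => gaussianPDFReal 0 1 x • (Ioi (0:ℝ)).indicator (fun g => g) x)
        = (Ioi (0:ℝ)).indicator (fun x => gaussianPDFReal 0 1 x * x) := by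
      funext x
      by_cases hx : x ∈ Ioi (0:ℝ)
      · simp [indicator_of_mem hx]
      · simp [indicator_of_notMem hx]
    rw [h2, integral_indicator measurableSet_Ioi]
    have h3 : ∀ x ∈ Ioi (0:ℝ), gaussianPDFReal 0 1 x * x
        = (Real.sqrt (2 * Real.pi))⁻¹ * (x ^ (1:ℝ) * Real.exp (-(1/2) * x ^ (2:ℝ))) := by
      intro x hx
      rw [gaussianPDFReal_def, Real.rpow_one, Real.rpow_two]
      simp only [NNReal.coe_one, mul_one, sub_zero]
      rw [show -x ^ 2 / 2 = -(1/2) * x ^ 2 by ring]
      ring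
    rw [setIntegral_congr_fun measurableSet_Ioi h3, integral_const_mul,
      integral_rpow_mul_exp_neg_mul_rpow (by norm_num) (by norm_num) (by norm_num)]
    have h4 : ((1:ℝ)/2) ^ (-((1:ℝ)+1)/2) = 2 := by
      rw [show (-((1:ℝ)+1)/2) = -1 by norm_num, Real.rpow_neg_one]
      norm_num
    rw [h4, show ((1:ℝ)+1)/2 = 1 by norm_num, Real.Gamma_one]
    ring
  rw [h1]
  ring

theorem two_div_mm : 2 / mm = Real.sqrt (2 * Real.pi) := by
  rw [mm_eq, div_div_eq_mul_div, mul_div_cancel_left₀ _ (two_ne_zero)]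

end Pool.Agent.RMLite.URY1Aux

namespace Pool.Agent.RMLite

open URY1Aux

theorem stmt_URY1 : Stmt_URY1 := by
  intro k u Λ hu hΛ _ hC h
  obtain ⟨C, hC⟩ := hC
  have hC0 : 0 ≤ C := by
    have := (abs_nonneg _).trans (hC 0)
    simpa using this
  have hgr : ∀ g, |Λ g| ≤ (C * (k + 1)) * (1 + ‖g‖) := by
    intro g
    refine (hC g).trans ?_
    have h1 : ∑ i, |g i| ≤ k * ‖g‖ := by
      have h2 : ∑ i, |g i| ≤ ∑ _i : Fin k, ‖g‖ := by
        refine Finset.sum_le_sum fun i _ => ?_
        exact norm_le_pi_norm g i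
      simpa using h2
    rw [mul_assoc]
    refine mul_le_mul_of_nonneg_left ?_ hC0
    have h3 : (0:ℝ) ≤ k := Nat.cast_nonneg k
    have h4 := norm_nonneg g
    nlinarith
  have := main k Λ _ hΛ hgr (fun x => ENNReal.ofReal (u x)) hu.ennreal_ofReal
    (fun x g => ENNReal.ofReal_le_ofReal (h x g))
  rw [two_div_mm] at this
  exact this

end Pool.Agent.RMLite
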