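import Pool.Agent.RMLite.Defs

/-!
# RM-lite, module VOL: the Voronoi cell is compact and has volume at least one.
-/

set_option autoImplicit false

open MeasureTheory ProbabilityTheory Module
open scoped RealInnerProductSpace ENNReal NNReal

namespace Pool.Agent.RMLite

namespace VOLAux

section alg

variable {E : Type} [NormedAddCommGroup E] [InnerProductSpace ℝ E]

theorem sep_of_Sp {L : AddSubgroup E} (h : Sp L) : Sep 1 L := by
  intro y hy hy0
  have h1 := h 1 (fun _ => y) (fun _ => hy) (by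
    rw [linearIndependent_unique_iff]
    exact hy0)
  have h2 : (gramM (fun _ : Fin 1 => y)).det = ‖y‖ ^ 2 := by
    rw [Matrix.det_fin_one]
    simp [gramM]
  rw [h2] at h1
  nlinarith [norm_nonneg y]

theorem bdd {L : AddSubgroup E} (h : Sep 1 L) (x : E) :
    BddAbove (Set.range fun y : L => 2 * ⟪x, (y : E)⟫ / ‖(y : E)‖ ^ 2) := by
  refine ⟨2 * ‖x‖, ?_⟩
  rintro _ ⟨y, rfl⟩
  simp only
  by_cases hy : (y : E) = 0
  · simp [hy]
  · have h1 : 1 ≤ ‖(y : E)‖ := h y y.2 hy
    rw [div_le_iff₀ (by positivity)]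
    have h2 : ⟪x, (y : E)⟫ ≤ ‖x‖ * ‖(y : E)‖ := real_inner_le_norm _ _
    have h3 : ‖x‖ * ‖(y : E)‖ ≤ ‖x‖ * ‖(y : E)‖ ^ 2 := by
      apply mul_le_mul_of_nonneg_left _ (norm_nonneg x)
      nlinarith
    nlinarith

theorem nrm_le_iff {L : AddSubgroup E} (h : Sep 1 L) (x : E) :
    nrm L x ≤ 1 ↔ ∀ y ∈ L, 2 * ⟪x, y⟫ ≤ ‖y‖ ^ 2 := by
  constructor
  · intro hx y hy
    have h1 := (le_ciSup (bdd h x) ⟨y, hy⟩).trans hx
    simp only at h1
    by_cases hy0 : y = 0
    · simp [hy0]
    · have h2 : 0 < ‖y‖ ^ 2 := by positivity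
      rwa [div_le_one h2] at h1
  · intro hx
    refine ciSup_le fun y => ?_
    by_cases hy0 : (y : E) = 0
    · simp [hy0]
    · have h2 : 0 < ‖(y : E)‖ ^ 2 := by positivity
      rw [div_le_one h2]
      exact hx y y.2

theorem set_eq {L : AddSubgroup E} (h : Sep 1 L) :
    {x : E | nrm L x ≤ 1} = ⋂ y : L, {x : E | 2 * ⟪x, (y : E)⟫ ≤ ‖(y : E)‖ ^ 2} := by
  ext x
  simp only [Set.mem_ofPred_eq, Set.mem_iInter, nrm_le_iff h]
  exact ⟨fun h1 y => h1 y y.2, fun h1 y hy => h1 ⟨y, hy⟩⟩

theorem isClosed_cell {L : AddSubgroup E} (h : Sep 1 L) : IsClosed {x : E | nrm L x ≤ 1} := by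
  rw [set_eq h]
  exact isClosed_iInter fun y => isClosed_le (by fun_prop) continuous_const

theorem discrete {L : AddSubgroup E} (h : Sep 1 L) :
    DiscreteTopology (AddSubgroup.toIntSubmodule L) := by
  apply DiscreteTopology.of_forall_le_norm (r := 1) one_pos
  intro x hx
  exact h x x.2 (by simpa using hx)

theorem cover [FiniteDimensional ℝ E] {L : AddSubgroup E} (h : Sep 1 L) (x : E) :
    ∃ y ∈ L, nrm L (x - y) ≤ 1 := by
  have := discrete h
  have hcl : IsClosed (L : Set E) := by
    have := AddSubgroup.isClosed_of_discrete (H := (AddSubgroup.toIntSubmodule L).toAddSubgroup)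
    exact this
  obtain ⟨y, hy, hyd⟩ := hcl.exists_infDist_eq_dist ⟨0, L.zero_mem⟩ x
  refine ⟨y, hy, ?_⟩
  rw [nrm_le_iff h]
  intro w hw
  have h1 : dist x y ≤ dist x (y + w) := by
    rw [← hyd]
    exact Metric.infDist_le_dist_of_mem (L.add_mem hy hw)
  rw [dist_eq_norm, dist_eq_norm] at h1
  have h2 : x - (y + w) = (x - y) - w := by abel
  rw [h2] at h1
  have h3 : ‖x - y‖ ^ 2 ≤ ‖(x - y) - w‖ ^ 2 := by gcongr
  rw [norm_sub_sq_real (x - y) w] at h3
  linarith

end alg

section meas

variable {E : Type} [NormedAddCommGroup E] [InnerProductSpace ℝ E] [FiniteDimensional ℝ E]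

theorem isCompact_cell {L : AddSubgroup E} (h : Sep 1 L) (hf : Full L) :
    IsCompact {x : E | nrm L x ≤ 1} := by
  classical
  have := discrete h
  have hz : IsZLattice ℝ (AddSubgroup.toIntSubmodule L) := ⟨hf⟩
  let b := (Free.chooseBasis ℤ (AddSubgroup.toIntSubmodule L)).ofZLatticeBasis ℝ
  have hbL : ∀ i, b i ∈ L := by
    intro i
    have := Basis.ofZLatticeBasis_apply ℝ _ (Free.chooseBasis ℤ (AddSubgroup.toIntSubmodule L)) i
    rw [show b i = _ from this]
    exact (Free.chooseBasis ℤ (AddSubgroup.toIntSubmodule L) i).2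
  -- the linear map `x ↦ ⟪x, b i⟫`
  let T : E →ₗ[ℝ] (Free.ChooseBasisIndex ℤ (AddSubgroup.toIntSubmodule L) → ℝ) :=
    LinearMap.pi fun i => (innerSL ℝ (b i)).toLinearMap
  have hTinj : Function.Injective T := by
    rw [← LinearMap.ker_eq_bot, LinearMap.ker_eq_bot']
    intro x hx
    have h1 : ∀ i, ⟪b i, x⟫ = 0 := by
      intro i
      have := congrFun hx i
      simpa [T] using this
    exact InnerProductSpace.toDual ℝ E |>.injective (by
      rw [map_zero]
      ext y
      rw [InnerProductSpace.toDual_apply_apply]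
      have hy : y ∈ Submodule.span ℝ (Set.range b) := by rw [b.span_eq]; trivial
      induction hy using Submodule.span_induction with
      | mem y hy => obtain ⟨i, rfl⟩ := hy; rw [real_inner_comm]; simpa using h1 i
      | zero => simp
      | add a c _ _ ha hc => rw [inner_add_right, ha, hc]; simp
      | smul r a _ ha => rw [inner_smul_right, ha]; simp)
  obtain ⟨K, hK, hanti⟩ := T.exists_antilipschitzWith (LinearMap.ker_eq_bot.mpr hTinj)
  apply Metric.isCompact_of_isClosed_isBounded (isClosed_cell h)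
  have hb2 : Bornology.IsBounded (T ⁻¹' (Set.pi Set.univ fun i => Set.Icc (-‖b i‖ ^ 2) (‖b i‖ ^ 2))) := by
    apply hanti.isBounded_preimage
    exact Bornology.IsBounded.pi fun i => Metric.isBounded_Icc _ _
  refine hb2.subset ?_
  intro x hx
  rw [Set.mem_ofPred_eq, nrm_le_iff h] at hx
  rw [Set.mem_preimage, Set.mem_pi]
  intro i _
  have h1 := hx (b i) (hbL i)
  have h2 := hx (-b i) (L.neg_mem (hbL i))
  rw [norm_neg, inner_neg_right] at h2
  have h3 : T x i = ⟪x, b i⟫ := by simp [T, real_inner_comm]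
  rw [h3, Set.mem_Icc]
  have h4 : 0 ≤ ‖b i‖ ^ 2 := by positivity
  constructor <;> linarith

variable [MeasurableSpace E] [BorelSpace E]

theorem one_le_volume {L : AddSubgroup E} (h : Sp L) (hf : Full L) :
    1 ≤ volume {x : E | nrm L x ≤ 1} := by
  classical
  have hs := sep_of_Sp h
  have := discrete hs
  have hz : IsZLattice ℝ (AddSubgroup.toIntSubmodule L) := ⟨hf⟩
  let k := finrank ℝ E
  have hk : finrank ℤ (AddSubgroup.toIntSubmodule L) = k := ZLattice.rank ℝ _
  let b0 : Basis (Fin k) ℤ (AddSubgroup.toIntSubmodule L) :=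
    (Module.finBasisOfFinrankEq ℤ _ hk)
  let b : Basis (Fin k) ℝ E := b0.ofZLatticeBasis ℝ
  have hbL : ∀ i, b i ∈ L := by
    intro i
    rw [show b i = _ from Basis.ofZLatticeBasis_apply ℝ _ b0 i]
    exact (b0 i).2
  have hfd : IsAddFundamentalDomain (AddSubgroup.toIntSubmodule L) (ZSpan.fundamentalDomain b)
      (volume : Measure E) := ZLattice.isAddFundamentalDomain b0 volume
  -- the volume of the fundamental domain
  let e : OrthonormalBasis (Fin k) ℝ E := stdOrthonormalBasis ℝ E
  have hvol : volume (ZSpan.fundamentalDomain b) = ENNReal.ofReal |e.toBasis.det b| := by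
    rw [ZSpan.measure_fundamentalDomain b volume e.toBasis]
    have : volume (ZSpan.fundamentalDomain e.toBasis) = 1 := by
      rw [measure_congr (ZSpan.fundamentalDomain_ae_parallelepiped e.toBasis volume)]
      rw [OrthonormalBasis.coe_toBasis]
      exact e.volume_parallelepiped
    rw [this, mul_one]
  have hgram : (gramM b).det = (e.toBasis.det b) ^ 2 := by
    rw [Basis.det_apply, sq]
    have h1 : gramM (fun i => b i) = (e.toBasis.toMatrix b).transpose * (e.toBasis.toMatrix b) := by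
      ext i j
      rw [Matrix.mul_apply]
      simp only [gramM, Matrix.of_apply, Matrix.transpose_apply, Basis.toMatrix_apply,
        OrthonormalBasis.coe_toBasis_repr_apply, OrthonormalBasis.repr_apply_apply]
      rw [← e.sum_inner_mul_inner (b i) (b j)]
      refine Finset.sum_congr rfl fun l _ => ?_
      rw [real_inner_comm (b i) (e l)]
    rw [show (gramM b) = gramM (fun i => b i) from rfl, h1, Matrix.det_mul, Matrix.det_transpose]
  have h1 : 1 ≤ volume (ZSpan.fundamentalDomain b) := by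
    rw [hvol]
    have h2 : 1 ≤ (e.toBasis.det b) ^ 2 := by
      rw [← hgram]
      exact h k b hbL b.linearIndependent
    have h3 : 1 ≤ |e.toBasis.det b| := by
      rw [← sq_abs] at h2
      nlinarith [abs_nonneg (e.toBasis.det b)]
    rw [← ENNReal.ofReal_one]
    exact ENNReal.ofReal_le_ofReal h3
  refine h1.trans ?_
  have : Countable (AddSubgroup.toIntSubmodule L) := inferInstance
  have : VAddInvariantMeasure (AddSubgroup.toIntSubmodule L) E (volume : Measure E) :=
    inferInstanceAs <| VAddInvariantMeasure (AddSubgroup.toIntSubmodule L).toAddSubgroup E volume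
  rw [hfd.measure_eq_tsum {x : E | nrm L x ≤ 1}]
  refine le_trans ?_ (measure_iUnion_le _)
  apply measure_mono
  intro x hx
  obtain ⟨y, hy, hy2⟩ := cover hs x
  rw [Set.mem_iUnion]
  refine ⟨⟨y, hy⟩, ?_, hx⟩
  rw [Set.mem_vadd_set]
  refine ⟨x - y, hy2, ?_⟩
  change y + (x - y) = x
  abel

end meas

end VOLAux

theorem stmt_VOL : Stmt_VOL := by
  intro E _ _ _ _ _ L h hf
  exact ⟨VOLAux.isCompact_cell (VOLAux.sep_of_Sp h) hf, VOLAux.one_le_volume h hf⟩

end Pool.Agent.RMLite
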