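import Pool.Agent.RMLite.Defs

/-!
# RM-lite, module WID (step 5, conclusion)

A compact set of volume at least one has large Gaussian width.
-/

set_option autoImplicit false

open MeasureTheory ProbabilityTheory Module
open scoped RealInnerProductSpace ENNReal NNReal

namespace Pool.Agent.RMLite

namespace WIDAux

variable {E : Type} [NormedAddCommGroup E] [InnerProductSpace ℝ E]

/-- measurable argmax of linear functionals over a finite set. -/
lemma exists_argmax [FiniteDimensional ℝ E] [MeasurableSpace E] [BorelSpace E]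
    (t : Finset E) (ht : t.Nonempty) :
    ∃ f : E → E, Measurable f ∧ (Set.range f).Finite ∧ (∀ g, f g ∈ t) ∧
      ∀ g, ∀ y ∈ t, ⟪g, y⟫ ≤ ⟪g, f g⟫ := by
  classical
  induction ht using Finset.Nonempty.cons_induction with
  | singleton a =>
    refine ⟨fun _ => a, measurable_const, ?_, ?_, ?_⟩
    · exact (Set.finite_singleton a).subset (by rintro _ ⟨_, rfl⟩; rfl)
    · intro g; simp
    · intro g y hy
      rw [Finset.mem_singleton] at hy
      rw [hy]
  | cons a s ha hs ih =>
    obtain ⟨f, hfm, hfr, hft, hmax⟩ := ih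
    refine ⟨fun g => if ⟪g, f g⟫ ≤ ⟪g, a⟫ then a else f g, ?_, ?_, ?_, ?_⟩
    · refine Measurable.ite ?_ measurable_const hfm
      exact measurableSet_le (measurable_id.inner hfm) (measurable_id.inner measurable_const)
    · refine (hfr.union (Set.finite_singleton a)).subset ?_
      rintro _ ⟨g, rfl⟩
      simp only
      split_ifs
      · right; rfl
      · left; exact ⟨g, rfl⟩
    · intro g
      simp only
      split_ifs
      · simp
      · rw [Finset.mem_cons]; right; exact hft g
    · intro g y hy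
      rw [Finset.mem_cons] at hy
      simp only
      split_ifs with h
      · rcases hy with rfl | hy
        · exact le_refl _
        · exact (hmax g y hy).trans h
      · rcases hy with rfl | hy
        · exact (not_le.mp h).le
        · exact hmax g y hy

/-- coordinates. -/
noncomputable def phi {k : ℕ} (b : OrthonormalBasis (Fin k) ℝ E) (x : Fin k → ℝ) : E :=
  ∑ i, x i • b i

lemma inner_phi {k : ℕ} (b : OrthonormalBasis (Fin k) ℝ E) (x y : Fin k → ℝ) :
    ⟪phi b x, phi b y⟫ = ∑ i, x i * y i := by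
  unfold phi
  rw [b.orthonormal.inner_sum]
  simp

lemma norm_phi_le {k : ℕ} (b : OrthonormalBasis (Fin k) ℝ E) (x : Fin k → ℝ) :
    ‖phi b x‖ ≤ ∑ i, |x i| := by
  unfold phi
  refine (norm_sum_le _ _).trans (Finset.sum_le_sum fun i _ => ?_)
  rw [norm_smul, b.norm_eq_one, mul_one, Real.norm_eq_abs]

variable [FiniteDimensional ℝ E] [MeasurableSpace E] [BorelSpace E]

lemma phi_mp {k : ℕ} (b : OrthonormalBasis (Fin k) ℝ E) :
    MeasurePreserving (phi b) (volume : Measure (Fin k → ℝ)) (volume : Measure E) := by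
  have h1 := PiLp.volume_preserving_toLp (Fin k)
  have h2 := b.measurePreserving_repr_symm
  have h := h2.comp h1
  have he : (phi b) = (⇑b.repr.symm ∘ (WithLp.toLp 2 : (Fin k → ℝ) → EuclideanSpace ℝ (Fin k))) := by
    funext x
    simp only [Function.comp_apply]
    unfold phi
    rw [b.sum_repr_symm]
  rw [he]
  exact h

lemma phi_gauss {k : ℕ} (b : OrthonormalBasis (Fin k) ℝ E) :
    stdGaussian E = (Measure.pi fun _ : Fin k ↦ gaussianReal 0 1).map (phi b) :=
  stdGaussian_eq_map_pi_orthonormalBasis b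

lemma integral_abs_gaussian : Integrable (fun x : ℝ => |x|) (gaussianReal 0 1) ∧
    ∫ x, |x| ∂(gaussianReal 0 1) ≤ 1 := by
  have h2 : Integrable (fun x : ℝ => x ^ 2) (gaussianReal 0 1) := by
    have := (IsGaussian.memLp_two_id (μ := gaussianReal 0 1)).integrable_sq
    simpa using this
  have hv : ∫ x, x ^ 2 ∂(gaussianReal 0 1) = 1 := by
    have h := variance_id_gaussianReal (μ := 0) (v := 1)
    rw [variance_of_integral_eq_zero] at h
    · simpa using h
    · fun_prop
    · exact integral_id_gaussianReal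
  have h1 : Integrable (fun x : ℝ => |x|) (gaussianReal 0 1) := by
    have := (IsGaussian.integrable_id (μ := gaussianReal 0 1)).abs
    simpa using this
  refine ⟨h1, ?_⟩
  calc ∫ x, |x| ∂(gaussianReal 0 1) ≤ ∫ x, (1 + x ^ 2) / 2 ∂(gaussianReal 0 1) := by
        refine integral_mono h1 (((integrable_const _).add h2).div_const _) fun x => ?_
        simp only
        nlinarith [sq_abs x, sq_nonneg (|x| - 1)]
    _ = 1 := by
        rw [integral_div, integral_add (integrable_const _) h2, hv]
        simp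

end WIDAux

open WIDAux in
theorem stmt_WID (hU : Stmt_URY1) : Stmt_WID := by
  intro E _ _ _ _ _ hk V hVc hVv
  set k := finrank ℝ E with hkdef
  have hkpos : (0 : ℝ) < k := by
    have : 0 < k := hk
    exact_mod_cast this
  let b : OrthonormalBasis (Fin k) ℝ E := stdOrthonormalBasis ℝ E
  have hVne : V.Nonempty := by
    rcases V.eq_empty_or_nonempty with h | h
    · rw [h, measure_empty] at hVv
      exact absurd hVv (by simp)
    · exact h
  -- a finite net
  obtain ⟨t, htV, htc⟩ : ∃ t : Finset E, (∀ y ∈ t, y ∈ V) ∧ ∀ x ∈ V, ∃ y ∈ t, ‖x - y‖ ≤ 1 / 50 := by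
    obtain ⟨t, ht, hcov⟩ := hVc.elim_nhds_subcover (fun x => Metric.ball x (1 / 50))
      (fun x _ => Metric.ball_mem_nhds x (by norm_num))
    refine ⟨t, ht, fun x hx => ?_⟩
    have := hcov hx
    simp only [Set.mem_iUnion, Metric.mem_ball, exists_prop] at this
    obtain ⟨y, hy, hxy⟩ := this
    exact ⟨y, hy, by rw [← dist_eq_norm]; exact hxy.le⟩
  have htne : t.Nonempty := by
    obtain ⟨x, hx⟩ := hVne
    obtain ⟨y, hy, _⟩ := htc x hx
    exact ⟨y, hy⟩
  obtain ⟨f, hfm, hfr, hft, hmax⟩ := exists_argmax t htne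
  refine ⟨f, hfm, hfr, fun g => htV _ (hft g), ?_⟩
  -- bound for `f`
  obtain ⟨R, hR0, hR⟩ : ∃ R : ℝ, 0 ≤ R ∧ ∀ g, ‖f g‖ ≤ R := by
    obtain ⟨R, hR⟩ := hVc.isBounded.exists_norm_le
    exact ⟨|R|, abs_nonneg _, fun g => (hR _ (htV _ (hft g))).trans (le_abs_self R)⟩
  set μ : Measure (Fin k → ℝ) := Measure.pi fun _ : Fin k ↦ gaussianReal 0 1 with hμ
  set s : ℝ := (Real.exp 1 * Real.sqrt (2 * Real.pi))⁻¹ with hs
  have h2pi : 0 < Real.sqrt (2 * Real.pi) := Real.sqrt_pos.mpr (by positivity)
  have hspos : 0 < s := by positivity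
  have hphim : Measurable (phi b) := (phi_mp b).measurable
  have hslow : 1 / 50 + 1 / 8 ≤ s := by
    have h1 : Real.sqrt (2 * Real.pi) ≤ 2.51 := by
      rw [show (2.51 : ℝ) = Real.sqrt (2.51 ^ 2) by rw [Real.sqrt_sq (by norm_num)]]
      apply Real.sqrt_le_sqrt
      nlinarith [Real.pi_lt_d2]
    have h2 : Real.exp 1 ≤ 2.7182818286 := Real.exp_one_lt_d9.le
    rw [hs]
    rw [le_inv_comm₀ (by norm_num) (by positivity)]
    calc Real.exp 1 * Real.sqrt (2 * Real.pi) ≤ 2.7182818286 * 2.51 := by
          apply mul_le_mul h2 h1 h2pi.le (by norm_num)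
      _ ≤ _ := by norm_num
  set A : (Fin k → ℝ) → ℝ := fun g => ⟪phi b g, f (phi b g)⟫ with hA
  have hAm : Measurable A := hphim.inner (hfm.comp hphim)
  have hAb : ∀ g, |A g| ≤ R * ∑ i, |g i| := by
    intro g
    calc |A g| ≤ ‖phi b g‖ * ‖f (phi b g)‖ := abs_real_inner_le_norm _ _
      _ ≤ (∑ i, |g i|) * R := by
          apply mul_le_mul (norm_phi_le b g) (hR _) (norm_nonneg _)
          exact Finset.sum_nonneg fun i _ => abs_nonneg _
      _ = _ := mul_comm _ _
  have hgi : ∀ i : Fin k, Integrable (fun g : Fin k → ℝ => |g i|) μ ∧ ∫ g, |g i| ∂μ ≤ 1 := by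
    intro i
    have hmp : MeasurePreserving (Function.eval i) μ (gaussianReal 0 1) :=
      measurePreserving_eval (fun _ : Fin k => gaussianReal 0 1) i
    obtain ⟨h1, h2⟩ := integral_abs_gaussian
    constructor
    · exact hmp.integrable_comp_of_integrable h1
    · have : ∫ g, |g i| ∂μ = ∫ x, |x| ∂(gaussianReal 0 1) := by
        rw [← hmp.map_eq, integral_map hmp.measurable.aemeasurable
          (by fun_prop)]
      rw [this]; exact h2
  have hsumint : Integrable (fun g : Fin k → ℝ => ∑ i, |g i|) μ :=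
    integrable_finsetSum _ fun i _ => (hgi i).1
  have hsumle : ∫ g, ∑ i, |g i| ∂μ ≤ k := by
    rw [integral_finsetSum _ fun i _ => (hgi i).1]
    calc ∑ i, ∫ g, |g i| ∂μ ≤ ∑ i : Fin k, (1 : ℝ) := Finset.sum_le_sum fun i _ => (hgi i).2
      _ = k := by simp
  have hAint : Integrable A μ := by
    refine Integrable.mono' (hsumint.const_mul R) hAm.aestronglyMeasurable ?_
    exact Filter.Eventually.of_forall fun g => hAb g
  set u : (Fin k → ℝ) → ℝ := Set.indicator {x | s • phi b x ∈ V} (fun _ => 1) with hu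
  have hVm : MeasurableSet V := hVc.isClosed.measurableSet
  have hSm : MeasurableSet {x | s • phi b x ∈ V} := by
    have : Measurable fun x => s • phi b x := hphim.const_smul s
    exact this hVm
  set Λ : (Fin k → ℝ) → ℝ := fun g => (A g + 1 / 50 * ∑ i, |g i|) / s with hΛ
  have hΛb : ∀ g, |Λ g| ≤ (R + 1 / 50) / s * (1 + ∑ i, |g i|) := by
    intro g
    have h0 : 0 ≤ ∑ i, |g i| := Finset.sum_nonneg fun i _ => abs_nonneg _
    have h1 := hAb g
    simp only [hΛ]
    generalize (∑ i, |g i|) = T at h0 h1 ⊢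
    rw [abs_div, abs_of_pos hspos]
    have h2 : |A g + 1 / 50 * T| ≤ (R + 1 / 50) * (1 + T) := by
      refine (abs_add_le _ _).trans ?_
      rw [abs_of_nonneg (by positivity : 0 ≤ 1 / 50 * T)]
      nlinarith
    calc |A g + 1 / 50 * T| / s ≤ ((R + 1 / 50) * (1 + T)) / s :=
          (div_le_div_iff_of_pos_right hspos).mpr h2
      _ = _ := by ring
  have hkey := hU k u Λ (measurable_const.indicator hSm) (by fun_prop)
    (fun x => Set.indicator_nonneg (fun _ _ => zero_le_one) x)
    ⟨(R + 1 / 50) / s, fun g => hΛb g⟩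
    (fun x g => by
      by_cases hx : s • phi b x ∈ V
      · rw [hu, Set.indicator_of_mem (show x ∈ {x | s • phi b x ∈ V} from hx)]
        apply Real.one_le_exp
        rw [sub_nonneg, ← inner_phi b, hΛ, le_div_iff₀ hspos]
        obtain ⟨y, hy, hxy⟩ := htc _ hx
        have h1 : ⟪phi b g, phi b x⟫ * s = ⟪phi b g, y⟫ + ⟪phi b g, s • phi b x - y⟫ := by
          rw [inner_sub_right, inner_smul_right]; ring
        rw [h1]
        have h2 : ⟪phi b g, s • phi b x - y⟫ ≤ (∑ i, |g i|) * (1 / 50) := by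
          refine (real_inner_le_norm _ _).trans ?_
          apply mul_le_mul (norm_phi_le b g) hxy (norm_nonneg _)
          exact Finset.sum_nonneg fun i _ => abs_nonneg _
        have h3 := hmax (phi b g) y hy
        simp only [hA]
        linarith
      · rw [hu, Set.indicator_of_notMem (show x ∉ {x | s • phi b x ∈ V} from hx)]
        exact (Real.exp_pos _).le)
  -- evaluate both sides
  have hlhs : ENNReal.ofReal ((s⁻¹) ^ k) ≤ ∫⁻ x, ENNReal.ofReal (u x) := by
    have h1 : ∫⁻ x, ENNReal.ofReal (u x) = volume {x | s • phi b x ∈ V} := by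
      rw [← lintegral_indicator_one hSm]
      congr 1
      funext x
      rw [hu]
      by_cases hx : x ∈ {x | s • phi b x ∈ V}
      · rw [Set.indicator_of_mem hx, Set.indicator_of_mem hx]; simp
      · rw [Set.indicator_of_notMem hx, Set.indicator_of_notMem hx]; simp
    have h2 : volume {x | s • phi b x ∈ V} = volume ((s • ·) ⁻¹' V : Set E) := by
      rw [← (phi_mp b).measure_preimage]
      · rfl
      · exact (measurable_const_smul s hVm).nullMeasurableSet
    rw [h1, h2, Measure.addHaar_preimage_smul volume hspos.ne']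
    have h3 : |(s ^ finrank ℝ E)⁻¹| = (s⁻¹) ^ k := by
      rw [abs_of_pos (by positivity), ← hkdef, ← inv_pow]
    rw [h3]
    calc ENNReal.ofReal (s⁻¹ ^ k) = ENNReal.ofReal (s⁻¹ ^ k) * 1 := (mul_one _).symm
      _ ≤ _ := by gcongr
  have hfin := hlhs.trans hkey
  rw [ENNReal.ofReal_le_ofReal_iff (by positivity)] at hfin
  have hΛint : ∫ g, Λ g ∂μ = (∫ g, A g ∂μ + 1 / 50 * ∫ g, ∑ i, |g i| ∂μ) / s := by
    simp only [hΛ]
    rw [integral_div, integral_add hAint (hsumint.const_mul _), integral_const_mul]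
  have hlog : (k : ℝ) ≤ ∫ g, Λ g ∂μ := by
    have h1 : s⁻¹ ^ k = Real.sqrt (2 * Real.pi) ^ k * Real.exp k := by
      rw [hs, inv_inv, mul_pow, mul_comm, ← Real.exp_nat_mul, mul_one]
    rw [h1] at hfin
    have h2 := le_of_mul_le_mul_left hfin (by positivity)
    exact Real.exp_le_exp.mp h2
  rw [hΛint, le_div_iff₀ hspos] at hlog
  have hgoal : ∫ g, ⟪g, f g⟫ ∂(stdGaussian E) = ∫ g, A g ∂μ := by
    rw [phi_gauss b, integral_map hphim.aemeasurable]
    exact (measurable_id.inner hfm).aestronglyMeasurable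
  rw [hgoal]
  nlinarith

end Pool.Agent.RMLite
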