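import Pool.Agent.RMLite.Ury1

/-!
# WID: a compact set of volume at least one has large Gaussian width (helper54)
-/

set_option autoImplicit false
set_option linter.unusedSectionVars false

open MeasureTheory ProbabilityTheory Module Set
open scoped RealInnerProductSpace ENNReal NNReal

namespace Pool.Agent.RMLite

namespace WIDAux

open URY1Aux

variable {E : Type} [NormedAddCommGroup E] [InnerProductSpace ℝ E] [FiniteDimensional ℝ E]
  [MeasurableSpace E] [BorelSpace E]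

theorem exists_argmax (S : Finset E) (hS : S.Nonempty) :
    ∃ f : E → E, Measurable f ∧ (∀ g, f g ∈ S) ∧ ∀ g, ∀ v ∈ S, ⟪g, v⟫ ≤ ⟪g, f g⟫ := by
  classical
  induction hS using Finset.Nonempty.cons_induction with
  | singleton a =>
    exact ⟨fun _ => a, measurable_const, fun g => by simp, fun g v hv => by simp_all⟩
  | cons a s ha hs ih =>
    obtain ⟨f, hf, hmem, hmax⟩ := ih
    refine ⟨fun g => if ⟪g, f g⟫ < ⟪g, a⟫ then a else f g, ?_, ?_, ?_⟩
    · refine Measurable.ite ?_ measurable_const hf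
      exact measurableSet_lt (measurable_id.inner hf) (measurable_id.inner measurable_const)
    · intro g
      by_cases h : ⟪g, f g⟫ < ⟪g, a⟫
      · simp [h]
      · simp only [h, if_false, Finset.mem_cons]
        exact Or.inr (hmem g)
    · intro g v hv
      rw [Finset.mem_cons] at hv
      by_cases h : ⟪g, f g⟫ < ⟪g, a⟫
      · simp only [h, if_true]
        rcases hv with rfl | hv
        · exact le_rfl
        · exact (hmax g v hv).trans h.le
      · simp only [h, if_false]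
        rcases hv with rfl | hv
        · exact not_lt.1 h
        · exact hmax g v hv

theorem exists_net (V : Set E) (hV : IsCompact V) (hne : V.Nonempty) (ε : ℝ) (hε : 0 < ε) :
    ∃ S : Finset E, S.Nonempty ∧ (∀ v ∈ S, v ∈ V) ∧ ∀ x ∈ V, ∃ v ∈ S, ‖x - v‖ ≤ ε := by
  obtain ⟨t, htV, htf, hcov⟩ := hV.finite_cover_balls hε
  refine ⟨htf.toFinset, ?_, fun v hv => htV (by simpa using hv), ?_⟩
  · obtain ⟨x, hx⟩ := hne
    obtain ⟨i, hi, _⟩ := mem_iUnion₂.1 (hcov hx)
    exact ⟨i, by simpa using hi⟩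
  · intro x hx
    obtain ⟨i, hi, hxi⟩ := mem_iUnion₂.1 (hcov hx)
    refine ⟨i, by simpa using hi, ?_⟩
    rw [← dist_eq_norm]
    exact (Metric.mem_ball.1 hxi).le

/-- coordinates -/
noncomputable def LL {k : ℕ} (b : OrthonormalBasis (Fin k) ℝ E) (x : Fin k → ℝ) : E :=
  b.repr.symm (WithLp.toLp 2 x)

theorem LL_eq {k : ℕ} (b : OrthonormalBasis (Fin k) ℝ E) (x : Fin k → ℝ) :
    LL b x = ∑ i, x i • b i := by
  unfold LL
  rw [← OrthonormalBasis.sum_repr_symm]

theorem LL_inner {k : ℕ} (b : OrthonormalBasis (Fin k) ℝ E) (x y : Fin k → ℝ) :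
    ⟪LL b x, LL b y⟫ = ∑ i, x i * y i := by
  unfold LL
  rw [LinearIsometryEquiv.inner_map_map, PiLp.inner_apply]
  refine Finset.sum_congr rfl fun i _ => ?_
  simp [mul_comm]

theorem LL_norm_le {k : ℕ} (b : OrthonormalBasis (Fin k) ℝ E) (x : Fin k → ℝ) :
    ‖LL b x‖ ≤ ∑ i, |x i| := by
  rw [LL_eq]
  refine (norm_sum_le _ _).trans (le_of_eq ?_)
  refine Finset.sum_congr rfl fun i _ => ?_
  rw [norm_smul, b.norm_eq_one, mul_one, Real.norm_eq_abs]

theorem LL_measurable {k : ℕ} (b : OrthonormalBasis (Fin k) ℝ E) : Measurable (LL b) := by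
  unfold LL
  exact b.repr.symm.continuous.measurable.comp (PiLp.continuous_toLp 2 _).measurable

theorem LL_smul {k : ℕ} (b : OrthonormalBasis (Fin k) ℝ E) (s : ℝ) (x : Fin k → ℝ) :
    LL b (s • x) = s • LL b x := by
  rw [LL_eq, LL_eq, Finset.smul_sum]
  refine Finset.sum_congr rfl fun i _ => ?_
  rw [Pi.smul_apply, smul_smul, smul_eq_mul]

theorem LL_volume {k : ℕ} (b : OrthonormalBasis (Fin k) ℝ E) :
    MeasurePreserving (LL b) volume volume :=
  b.measurePreserving_repr_symm.comp (PiLp.volume_preserving_toLp (Fin k))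

theorem LL_gauss {k : ℕ} (b : OrthonormalBasis (Fin k) ℝ E) :
    (gk k).map (LL b) = stdGaussian E := by
  rw [stdGaussian_eq_map_pi_orthonormalBasis b]
  congr 1
  funext x
  exact LL_eq b x

theorem integral_abs_sum (k : ℕ) : Integrable (fun x : Fin k → ℝ => ∑ i, |x i|) (gk k) ∧
    ∫ x, ∑ i, |x i| ∂(gk k) ≤ k := by
  have h0 : ∀ i : Fin k, Integrable (fun x : Fin k → ℝ => |x i|) (gk k) := fun i =>
    (measurePreserving_eval (fun _ : Fin k => g1) i).integrable_comp_of_integrable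
      (integrable_id_g1.abs)
  have h1 : ∀ i : Fin k, ∫ x, |x i| ∂(gk k) ≤ 1 := by
    intro i
    have h2 : ∫ x, |x i| ∂(gk k) = ∫ t, |t| ∂g1 := by
      have h3 := (measurePreserving_eval (fun _ : Fin k => g1) i)
      rw [← h3.map_eq, integral_map h3.measurable.aemeasurable (by fun_prop)]
    rw [h2, split_g1 integrable_id_g1.abs]
    have h3 : ∫ t in Ioi (0:ℝ), |t| ∂g1 = ∫ t in Ioi (0:ℝ), t ∂g1 :=
      setIntegral_congr_fun measurableSet_Ioi fun t ht => abs_of_pos ht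
    have h4 : ∫ t in Iio (0:ℝ), |t| ∂g1 = -∫ t in Iio (0:ℝ), t ∂g1 := by
      rw [← integral_neg]
      exact setIntegral_congr_fun measurableSet_Iio fun t ht => abs_of_neg ht
    rw [h3, h4]
    have h5 := mm_neg
    have h6 : mm ≤ 1 := by
      rw [mm_eq, div_le_one (by positivity)]
      have : Real.sqrt (2 ^ 2) ≤ Real.sqrt (2 * Real.pi) := by
        refine Real.sqrt_le_sqrt ?_
        linarith [Real.pi_gt_three]
      rwa [Real.sqrt_sq (by norm_num)] at this
    have h7 : mm = 2 * ∫ g in Ioi (0:ℝ), g ∂g1 := rfl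
    linarith
  refine ⟨integrable_finsetSum _ fun i _ => h0 i, ?_⟩
  rw [integral_finsetSum _ fun i _ => h0 i]
  calc ∑ i : Fin k, ∫ x, |x i| ∂(gk k) ≤ ∑ _i : Fin k, (1:ℝ) := Finset.sum_le_sum fun i _ => h1 i
    _ = k := by simp

theorem const_bound : (1:ℝ) / 8 + 1 / 50 ≤ 1 / (Real.exp 1 * Real.sqrt (2 * Real.pi)) := by
  have h1 := Real.exp_one_lt_d9
  have h2 : Real.sqrt (2 * Real.pi) ≤ 2.507 := by
    rw [Real.sqrt_le_left (by norm_num)]
    have := Real.pi_lt_d6
    norm_num at this ⊢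
    linarith
  rw [le_div_iff₀ (by positivity)]
  have h3 : Real.exp 1 * Real.sqrt (2 * Real.pi) ≤ 2.7182818286 * 2.507 := by
    gcongr
  norm_num at h3 ⊢
  linarith

end WIDAux

open URY1Aux WIDAux in
theorem stmt_WID : Stmt_WID := by
  intro E _ _ _ _ _ hdim V hV hvol
  set k := finrank ℝ E with hk
  have hkpos : (0:ℝ) < k := by exact_mod_cast hdim
  set b : OrthonormalBasis (Fin k) ℝ E := stdOrthonormalBasis ℝ E with hb
  have hne : V.Nonempty := by
    rw [nonempty_iff_ne_empty]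
    rintro rfl
    simp at hvol
  obtain ⟨S, hSne, hSV, hnet⟩ := exists_net V hV hne (1 / 50) (by norm_num)
  obtain ⟨f, hfm, hfS, hfmax⟩ := exists_argmax S hSne
  refine ⟨f, hfm, (S.finite_toSet).subset (by rintro _ ⟨g, rfl⟩; exact hfS g),
    fun g => hSV _ (hfS g), ?_⟩
  -- bound of the norm on `S`
  obtain ⟨R, hR0, hR⟩ : ∃ R : ℝ, 0 ≤ R ∧ ∀ g, ‖f g‖ ≤ R := by
    refine ⟨∑ v ∈ S, ‖v‖, Finset.sum_nonneg fun v _ => norm_nonneg v, fun g => ?_⟩
    exact Finset.single_le_sum (f := fun v : E => ‖v‖) (fun v _ => norm_nonneg v) (hfS g)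
  set s : ℝ := 1 / (Real.exp 1 * Real.sqrt (2 * Real.pi)) with hs
  have hspos : 0 < s := by positivity
  set Lm := LL b with hLm
  have hLmeas : Measurable Lm := LL_measurable b
  set Λ : (Fin k → ℝ) → ℝ := fun x => (⟪Lm x, f (Lm x)⟫ + 1 / 50 * ‖Lm x‖) / s with hΛ
  have hΛm : Measurable Λ :=
    (((hLmeas.inner (hfm.comp hLmeas))).add (hLmeas.norm.const_mul _)).div_const _
  have hhabs : ∀ x, |⟪Lm x, f (Lm x)⟫ + 1 / 50 * ‖Lm x‖| ≤ (R + 1) * ∑ i, |x i| := by
    intro x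
    have h1 : |⟪Lm x, f (Lm x)⟫| ≤ ‖Lm x‖ * R :=
      (abs_real_inner_le_norm _ _).trans (by gcongr; exact hR _)
    have h2 := LL_norm_le b x
    have h3 : |⟪Lm x, f (Lm x)⟫ + 1 / 50 * ‖Lm x‖| ≤ |⟪Lm x, f (Lm x)⟫| + 1 / 50 * ‖Lm x‖ := by
      refine (abs_add_le _ _).trans ?_
      rw [abs_of_nonneg (a := 1 / 50 * ‖Lm x‖) (by positivity)]
    have h4 : 0 ≤ ‖Lm x‖ := norm_nonneg _
    calc |⟪Lm x, f (Lm x)⟫ + 1 / 50 * ‖Lm x‖| ≤ (R + 1) * ‖Lm x‖ := by nlinarith
      _ ≤ (R + 1) * ∑ i, |x i| := by gcongr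
  have hgr : ∀ x, |Λ x| ≤ ((R + 1) / s) * (1 + ∑ i, |x i|) := by
    intro x
    simp only [hΛ]
    rw [abs_div, abs_of_pos hspos, div_mul_eq_mul_div (R + 1)]
    have h1 := hhabs x
    have h2 : (R + 1) * ∑ i, |x i| ≤ (R + 1) * (1 + ∑ i, |x i|) := by
      have : 0 ≤ R + 1 := by linarith
      nlinarith
    exact div_le_div_of_nonneg_right (h1.trans h2) hspos.le
  set u : (Fin k → ℝ) → ℝ := fun x => (Lm ⁻¹' V).indicator 1 (s • x) with hu
  have hVm : MeasurableSet V := hV.measurableSet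
  have hpre : MeasurableSet (Lm ⁻¹' V) := hLmeas hVm
  have hum : Measurable u := (measurable_one.indicator hpre).comp (measurable_const_smul s)
  have hu0 : ∀ x, 0 ≤ u x := fun x => indicator_nonneg (fun _ _ => zero_le_one) _
  have hub : ∀ x g, u x ≤ Real.exp (Λ g - ∑ i, g i * x i) := by
    intro x g
    simp only [hu]
    by_cases hx : s • x ∈ Lm ⁻¹' V
    · rw [indicator_of_mem hx, Pi.one_apply]
      refine Real.one_le_exp ?_
      obtain ⟨v, hvS, hvx⟩ := hnet _ hx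
      have h1 : ⟪Lm g, Lm (s • x)⟫ ≤ ⟪Lm g, f (Lm g)⟫ + 1 / 50 * ‖Lm g‖ := by
        have h2 : ⟪Lm g, Lm (s • x)⟫ = ⟪Lm g, v⟫ + ⟪Lm g, Lm (s • x) - v⟫ := by
          rw [inner_sub_right]; ring
        have h3 : ⟪Lm g, Lm (s • x) - v⟫ ≤ ‖Lm g‖ * (1 / 50) :=
          (real_inner_le_norm _ _).trans (by gcongr)
        have h4 := hfmax (Lm g) v hvS
        linarith
      have h2 : ⟪Lm g, Lm (s • x)⟫ = s * ∑ i, g i * x i := by
        rw [hLm, LL_smul, inner_smul_right, LL_inner]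
      rw [h2] at h1
      simp only [hΛ]
      rw [sub_nonneg, le_div_iff₀ hspos]
      linarith
    · rw [indicator_of_notMem hx]
      exact (Real.exp_pos _).le
  have hmain := stmt_URY1 k u Λ hum hΛm hu0 ⟨_, hgr⟩ hub
  -- the left side
  have hleft : ∫⁻ x, ENNReal.ofReal (u x) = ENNReal.ofReal ((s⁻¹) ^ k) * volume V := by
    have h1 : (fun x => ENNReal.ofReal (u x))
        = fun x : Fin k → ℝ => ((s • ·) ⁻¹' (Lm ⁻¹' V)).indicator 1 x := by
      funext x
      by_cases hx : s • x ∈ Lm ⁻¹' V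
      · have hx' : x ∈ (s • ·) ⁻¹' (Lm ⁻¹' V) := hx
        simp only [hu]
        rw [indicator_of_mem hx, indicator_of_mem hx']
        simp
      · have hx' : x ∉ (s • ·) ⁻¹' (Lm ⁻¹' V) := hx
        simp only [hu]
        rw [indicator_of_notMem hx, indicator_of_notMem hx']
        simp
    rw [h1, lintegral_indicator_one (measurable_const_smul s hpre),
      Measure.addHaar_preimage_smul _ hspos.ne',
      (LL_volume b).measure_preimage hVm.nullMeasurableSet]
    congr 2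
    rw [abs_of_pos (by positivity)]
    simp
  rw [hleft] at hmain
  have h3 : ENNReal.ofReal ((s⁻¹) ^ k) ≤
      ENNReal.ofReal (Real.sqrt (2 * Real.pi) ^ k * Real.exp (∫ g, Λ g ∂(gk k))) := by
    refine le_trans ?_ hmain
    calc ENNReal.ofReal ((s⁻¹) ^ k) = ENNReal.ofReal ((s⁻¹) ^ k) * 1 := (mul_one _).symm
      _ ≤ _ := by gcongr
  rw [ENNReal.ofReal_le_ofReal_iff (by positivity)] at h3
  have h4 : (s⁻¹) ^ k = Real.sqrt (2 * Real.pi) ^ k * (Real.exp 1) ^ k := by
    rw [← mul_pow]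
    congr 1
    rw [hs]
    field_simp
  rw [h4] at h3
  have h5 : (Real.exp 1) ^ k ≤ Real.exp (∫ g, Λ g ∂(gk k)) :=
    le_of_mul_le_mul_left h3 (by positivity)
  rw [← Real.exp_nat_mul, Real.exp_le_exp, mul_one] at h5
  -- the right side
  have hint1 : Integrable (fun x => ⟪Lm x, f (Lm x)⟫) (gk k) := by
    refine ((integral_abs_sum k).1.const_mul R).mono'
      (hLmeas.inner (hfm.comp hLmeas)).aestronglyMeasurable
      (Filter.Eventually.of_forall fun x => ?_)
    rw [Real.norm_eq_abs]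
    have h1 : |⟪Lm x, f (Lm x)⟫| ≤ ‖Lm x‖ * R :=
      (abs_real_inner_le_norm _ _).trans (by gcongr; exact hR _)
    have h2 := LL_norm_le b x
    nlinarith
  have hint2 : Integrable (fun x => ‖Lm x‖) (gk k) := by
    refine (integral_abs_sum k).1.mono' hLmeas.norm.aestronglyMeasurable
      (Filter.Eventually.of_forall fun x => ?_)
    rw [norm_norm]
    exact LL_norm_le b x
  have h6 : ∫ g, Λ g ∂(gk k) = (∫ x, ⟪Lm x, f (Lm x)⟫ ∂(gk k) + 1 / 50 * ∫ x, ‖Lm x‖ ∂(gk k)) / s := by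
    simp only [hΛ]
    rw [integral_div, integral_add hint1 (hint2.const_mul _), integral_const_mul]
  have h7 : ∫ x, ‖Lm x‖ ∂(gk k) ≤ k :=
    (integral_mono hint2 (integral_abs_sum k).1 fun x => LL_norm_le b x).trans
      (integral_abs_sum k).2
  have h8 : ∫ g, ⟪g, f g⟫ ∂(stdGaussian E) = ∫ x, ⟪Lm x, f (Lm x)⟫ ∂(gk k) := by
    have hm2 : Measurable fun g : E => ⟪g, f g⟫ := measurable_id.inner hfm
    rw [← LL_gauss b, integral_map hLmeas.aemeasurable hm2.aestronglyMeasurable]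
  rw [h8]
  rw [h6, le_div_iff₀ hspos] at h5
  have h9 := const_bound
  rw [← hs] at h9
  nlinarith

end Pool.Agent.RMLite
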